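import Pool.Agent.Lib.MP_10e784_agL.SD

/-!
# The failure of the Hasse principle
-/

set_option autoImplicit false

namespace BLS

open Finset

/-- a density argument -/
private theorem diff_card {α : Type} (P Q R : α → Prop) [Finite {a // P a ∧ Q a}] [Finite {a // P a ∧ R a}] :
    (Nat.card {a // P a ∧ Q a} : ℝ) ≤ Nat.card {a // P a ∧ R a} + Nat.card {a // P a ∧ Q a ∧ ¬ R a} := by
  classical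
  have hf : Finite {a // P a ∧ Q a ∧ ¬ R a} :=
    Finite.of_injective (fun a => (⟨a.1, a.2.1, a.2.2.1⟩ : {a // P a ∧ Q a})) fun a b h =>
      Subtype.ext (congrArg (fun z => z.1) h)
  let f : {a // P a ∧ Q a} → {a // P a ∧ R a} ⊕ {a // P a ∧ Q a ∧ ¬ R a} := fun a =>
    if h : R a.1 then .inl ⟨a.1, a.2.1, h⟩ else .inr ⟨a.1, a.2.1, a.2.2, h⟩
  have hinj : Function.Injective f := by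
    intro a b hab
    by_cases ha : R a.1 <;> by_cases hb : R b.1
    · have h1 := hab
      simp only [f, dif_pos ha, dif_pos hb, Sum.inl.injEq, Subtype.mk.injEq] at h1
      exact Subtype.ext h1
    · have h1 := hab
      simp only [f, dif_pos ha, dif_neg hb, reduceCtorEq] at h1
    · have h1 := hab
      simp only [f, dif_neg ha, dif_pos hb, reduceCtorEq] at h1
    · have h1 := hab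
      simp only [f, dif_neg ha, dif_neg hb, Sum.inr.injEq, Subtype.mk.injEq] at h1
      exact Subtype.ext h1
  have h1 := Nat.card_le_card_of_injective f hinj
  rw [Nat.card_sum] at h1
  exact_mod_cast h1

theorem exp_small {c C ε : ℝ} (hc : 0 < c) (hε : 0 < ε) : ∃ H0 : ℕ, ∀ H : ℕ, H0 ≤ H →
    C * Real.exp (-(Real.log H) ^ c) ≤ ε := by
  have h1 : Filter.Tendsto (fun H : ℕ => C * Real.exp (-(Real.log (H : ℝ)) ^ c)) Filter.atTop (nhds (C * 0)) := by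
    refine Filter.Tendsto.const_mul C (Real.tendsto_exp_atBot.comp ?_)
    refine Filter.tendsto_neg_atTop_atBot.comp ?_
    exact (tendsto_rpow_atTop hc).comp (Real.tendsto_log_atTop.comp tendsto_natCast_atTop_atTop)
  rw [mul_zero] at h1
  have h2 := h1.eventually (gt_mem_nhds hε)
  obtain ⟨H0, h3⟩ := Filter.eventually_atTop.1 h2
  exact ⟨H0, fun H hH => (h3 H hH).le⟩

theorem pow_small {δ C ε : ℝ} (hδ : 0 < δ) (hε : 0 < ε) : ∃ H0 : ℕ, ∀ H : ℕ, H0 ≤ H →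
    C * (H : ℝ) ^ (-δ) ≤ ε := by
  have h1 : Filter.Tendsto (fun H : ℕ => C * (H : ℝ) ^ (-δ)) Filter.atTop (nhds (C * 0)) :=
    Filter.Tendsto.const_mul C ((tendsto_rpow_neg_atTop hδ).comp tendsto_natCast_atTop_atTop)
  rw [mul_zero] at h1
  have h2 := h1.eventually (gt_mem_nhds hε)
  obtain ⟨H0, h3⟩ := Filter.eventually_atTop.1 h2
  exact ⟨H0, fun H hH => (h3 H hH).le⟩

private theorem fin_all (d H : ℕ) (Q : (ℤ × ℤ) × (Ix d → ℤ) → Prop) :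
    Finite {a : (ℤ × ℤ) × (Ix d → ℤ) // (4 * a.1.1 ^ 3 + 27 * a.1.2 ^ 2 ≠ 0 ∧ |a.1.1| ≤ (H : ℤ) ^ 2 ∧
      |a.1.2| ≤ (H : ℤ) ^ 3 ∧ ∀ k, |a.2 k| ≤ (H : ℤ)) ∧ Q a} := by
  let f : {a : (ℤ × ℤ) × (Ix d → ℤ) // (4 * a.1.1 ^ 3 + 27 * a.1.2 ^ 2 ≠ 0 ∧ |a.1.1| ≤ (H : ℤ) ^ 2 ∧
      |a.1.2| ≤ (H : ℤ) ^ 3 ∧ ∀ k, |a.2 k| ≤ (H : ℤ)) ∧ Q a} → ((Icc (-(H : ℤ) ^ 2) ((H : ℤ) ^ 2) : Finset ℤ) ×
        (Icc (-(H : ℤ) ^ 3) ((H : ℤ) ^ 3) : Finset ℤ)) × (Ix d → (Icc (-(H : ℤ)) H : Finset ℤ)) :=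
    fun z => ((⟨z.1.1.1, mem_Icc.2 (abs_le.1 z.2.1.2.1)⟩, ⟨z.1.1.2, mem_Icc.2 (abs_le.1 z.2.1.2.2.1)⟩),
      fun i => ⟨z.1.2 i, mem_Icc.2 (abs_le.1 (z.2.1.2.2.2 i))⟩)
  have hf : Function.Injective f := by
    intro a b hab
    have h1 : a.1.1.1 = b.1.1.1 := congrArg (fun w => (w.1.1 : ℤ)) hab
    have h2 : a.1.1.2 = b.1.1.2 := congrArg (fun w => (w.1.2 : ℤ)) hab
    have h3 : a.1.2 = b.1.2 := by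
      funext i
      exact congrArg (fun w => (w.2 i : ℤ)) hab
    exact Subtype.ext (Prod.ext (Prod.ext h1 h2) h3)
  exact Finite.of_injective f hf

/-- a positive proportion of the double covers of all elliptic curves violates the Hasse principle -/
theorem hp_all {c : ℝ} (hc : 0 < c) (d : ℕ) (hd : 2 ≤ d) (hA : ∃ C : ℝ, ∀ H : ℕ, 1 ≤ H →
      (Nat.card {a : (ℤ × ℤ) × (Ix d → ℤ) // 4 * a.1.1 ^ 3 + 27 * a.1.2 ^ 2 ≠ 0 ∧ |a.1.1| ≤ (H : ℤ) ^ 2 ∧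
        |a.1.2| ≤ (H : ℤ) ^ 3 ∧ (∀ k, |a.2 k| ≤ (H : ℤ)) ∧ Sol ℚ a.1.1 a.1.2 d a.2} : ℝ) ≤
        C * (H : ℝ) ^ (2 * d + 5) * Real.exp (-(Real.log H) ^ c)) :
    ∃ (η : ℝ) (H0 : ℕ), 0 < η ∧ ∀ H : ℕ, H0 ≤ H → η * (H : ℝ) ^ (2 * d + 5) ≤
      (Nat.card {a : (ℤ × ℤ) × (Ix d → ℤ) // 4 * a.1.1 ^ 3 + 27 * a.1.2 ^ 2 ≠ 0 ∧ |a.1.1| ≤ (H : ℤ) ^ 2 ∧
        |a.1.2| ≤ (H : ℤ) ^ 3 ∧ (∀ k, |a.2 k| ≤ (H : ℤ)) ∧ Sol ℝ a.1.1 a.1.2 d a.2 ∧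
        (∀ (p : ℕ) [Fact p.Prime], Sol ℚ_[p] a.1.1 a.1.2 d a.2) ∧ ¬ Sol ℚ a.1.1 a.1.2 d a.2} : ℝ) := by
  obtain ⟨η, H1, hη, h1⟩ := loc_all d hd
  obtain ⟨C, hC⟩ := hA
  obtain ⟨H2, h2⟩ := exp_small (C := C) hc (half_pos hη)
  refine ⟨η / 2, max H1 (max H2 1), half_pos hη, fun H hH => ?_⟩
  have a1 : H1 ≤ H := (le_max_left _ _).trans hH
  have a2 : H2 ≤ H := (le_max_left _ _).trans ((le_max_right _ _).trans hH)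
  have a3 : 1 ≤ H := (le_max_right _ _).trans ((le_max_right _ _).trans hH)
  have := fin_all d H
  have h3 := diff_card (fun a : (ℤ × ℤ) × (Ix d → ℤ) => 4 * a.1.1 ^ 3 + 27 * a.1.2 ^ 2 ≠ 0 ∧
      |a.1.1| ≤ (H : ℤ) ^ 2 ∧ |a.1.2| ≤ (H : ℤ) ^ 3 ∧ ∀ k, |a.2 k| ≤ (H : ℤ))
    (fun a => Sol ℝ a.1.1 a.1.2 d a.2 ∧ ∀ (p : ℕ) [Fact p.Prime], Sol ℚ_[p] a.1.1 a.1.2 d a.2)
    (fun a => Sol ℚ a.1.1 a.1.2 d a.2)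
  have e1 : Nat.card {a : (ℤ × ℤ) × (Ix d → ℤ) // 4 * a.1.1 ^ 3 + 27 * a.1.2 ^ 2 ≠ 0 ∧
      |a.1.1| ≤ (H : ℤ) ^ 2 ∧ |a.1.2| ≤ (H : ℤ) ^ 3 ∧ (∀ k, |a.2 k| ≤ (H : ℤ)) ∧
      Sol ℝ a.1.1 a.1.2 d a.2 ∧ ∀ (p : ℕ) [Fact p.Prime], Sol ℚ_[p] a.1.1 a.1.2 d a.2} =
    Nat.card {a : (ℤ × ℤ) × (Ix d → ℤ) // (4 * a.1.1 ^ 3 + 27 * a.1.2 ^ 2 ≠ 0 ∧
      |a.1.1| ≤ (H : ℤ) ^ 2 ∧ |a.1.2| ≤ (H : ℤ) ^ 3 ∧ ∀ k, |a.2 k| ≤ (H : ℤ)) ∧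
      (Sol ℝ a.1.1 a.1.2 d a.2 ∧ ∀ (p : ℕ) [Fact p.Prime], Sol ℚ_[p] a.1.1 a.1.2 d a.2)} :=
    Nat.card_congr (Equiv.subtypeEquivRight fun a => ⟨fun h => ⟨⟨h.1, h.2.1, h.2.2.1, h.2.2.2.1⟩, h.2.2.2.2⟩,
      fun h => ⟨h.1.1, h.1.2.1, h.1.2.2.1, h.1.2.2.2, h.2⟩⟩)
  have e2 : Nat.card {a : (ℤ × ℤ) × (Ix d → ℤ) // 4 * a.1.1 ^ 3 + 27 * a.1.2 ^ 2 ≠ 0 ∧
      |a.1.1| ≤ (H : ℤ) ^ 2 ∧ |a.1.2| ≤ (H : ℤ) ^ 3 ∧ (∀ k, |a.2 k| ≤ (H : ℤ)) ∧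
      Sol ℚ a.1.1 a.1.2 d a.2} =
    Nat.card {a : (ℤ × ℤ) × (Ix d → ℤ) // (4 * a.1.1 ^ 3 + 27 * a.1.2 ^ 2 ≠ 0 ∧
      |a.1.1| ≤ (H : ℤ) ^ 2 ∧ |a.1.2| ≤ (H : ℤ) ^ 3 ∧ ∀ k, |a.2 k| ≤ (H : ℤ)) ∧
      Sol ℚ a.1.1 a.1.2 d a.2} :=
    Nat.card_congr (Equiv.subtypeEquivRight fun a => ⟨fun h => ⟨⟨h.1, h.2.1, h.2.2.1, h.2.2.2.1⟩, h.2.2.2.2⟩,
      fun h => ⟨h.1.1, h.1.2.1, h.1.2.2.1, h.1.2.2.2, h.2⟩⟩)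
  have e3 : Nat.card {a : (ℤ × ℤ) × (Ix d → ℤ) // 4 * a.1.1 ^ 3 + 27 * a.1.2 ^ 2 ≠ 0 ∧
      |a.1.1| ≤ (H : ℤ) ^ 2 ∧ |a.1.2| ≤ (H : ℤ) ^ 3 ∧ (∀ k, |a.2 k| ≤ (H : ℤ)) ∧
      Sol ℝ a.1.1 a.1.2 d a.2 ∧ (∀ (p : ℕ) [Fact p.Prime], Sol ℚ_[p] a.1.1 a.1.2 d a.2) ∧
      ¬ Sol ℚ a.1.1 a.1.2 d a.2} =
    Nat.card {a : (ℤ × ℤ) × (Ix d → ℤ) // (4 * a.1.1 ^ 3 + 27 * a.1.2 ^ 2 ≠ 0 ∧
      |a.1.1| ≤ (H : ℤ) ^ 2 ∧ |a.1.2| ≤ (H : ℤ) ^ 3 ∧ ∀ k, |a.2 k| ≤ (H : ℤ)) ∧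
      (Sol ℝ a.1.1 a.1.2 d a.2 ∧ ∀ (p : ℕ) [Fact p.Prime], Sol ℚ_[p] a.1.1 a.1.2 d a.2) ∧
      ¬ Sol ℚ a.1.1 a.1.2 d a.2} :=
    Nat.card_congr (Equiv.subtypeEquivRight fun a =>
      ⟨fun h => ⟨⟨h.1, h.2.1, h.2.2.1, h.2.2.2.1⟩, ⟨h.2.2.2.2.1, h.2.2.2.2.2.1⟩, h.2.2.2.2.2.2⟩,
        fun h => ⟨h.1.1, h.1.2.1, h.1.2.2.1, h.1.2.2.2, h.2.1.1, h.2.1.2, h.2.2⟩⟩)
  have h4 := h1 H a1
  have h5 := hC H a3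
  have h6 := h2 H a2
  rw [e1] at h4
  rw [e2] at h5
  rw [e3]
  have h7 : C * (H : ℝ) ^ (2 * d + 5) * Real.exp (-(Real.log H) ^ c) ≤ η / 2 * (H : ℝ) ^ (2 * d + 5) := by
    calc C * (H : ℝ) ^ (2 * d + 5) * Real.exp (-(Real.log H) ^ c) =
          C * Real.exp (-(Real.log H) ^ c) * (H : ℝ) ^ (2 * d + 5) := by ring
      _ ≤ η / 2 * (H : ℝ) ^ (2 * d + 5) := mul_le_mul_of_nonneg_right h6 (by positivity)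
  linarith

/-- the same for one curve -/
theorem hp_fix {δ : ℝ} (hδ : 0 < δ) (d : ℕ) (hd : 2 ≤ d) (A B : ℤ) (h : ds A B ≠ 0) (hA : ∃ C : ℝ, ∀ H : ℕ, 1 ≤ H →
      (Nat.card {a : Ix d → ℤ // (∀ k, |a k| ≤ (H : ℤ)) ∧ Sol ℚ A B d a} : ℝ) ≤
        C * (H : ℝ) ^ ((2 * d : ℝ) - δ)) :
    ∃ (η : ℝ) (H0 : ℕ), 0 < η ∧ ∀ H : ℕ, H0 ≤ H → η * (H : ℝ) ^ (2 * d) ≤
      (Nat.card {a : Ix d → ℤ // (∀ k, |a k| ≤ (H : ℤ)) ∧ Sol ℝ A B d a ∧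
        (∀ (p : ℕ) [Fact p.Prime], Sol ℚ_[p] A B d a) ∧ ¬ Sol ℚ A B d a} : ℝ) := by
  obtain ⟨η, H1, hη, h1⟩ := loc_fix d hd A B h
  obtain ⟨C, hC⟩ := hA
  obtain ⟨H2, h2⟩ := pow_small (C := C) hδ (half_pos hη)
  refine ⟨η / 2, max H1 (max H2 1), half_pos hη, fun H hH => ?_⟩
  have a1 : H1 ≤ H := (le_max_left _ _).trans hH
  have a2 : H2 ≤ H := (le_max_left _ _).trans ((le_max_right _ _).trans hH)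
  have a3 : 1 ≤ H := (le_max_right _ _).trans ((le_max_right _ _).trans hH)
  have := box_fin (ι := Ix d) H
  have h3 := diff_card (fun a : Ix d → ℤ => ∀ k, |a k| ≤ (H : ℤ))
    (fun a => Sol ℝ A B d a ∧ ∀ (p : ℕ) [Fact p.Prime], Sol ℚ_[p] A B d a) (fun a => Sol ℚ A B d a)
  have e3 : Nat.card {a : Ix d → ℤ // (∀ k, |a k| ≤ (H : ℤ)) ∧ Sol ℝ A B d a ∧
      (∀ (p : ℕ) [Fact p.Prime], Sol ℚ_[p] A B d a) ∧ ¬ Sol ℚ A B d a} =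
    Nat.card {a : Ix d → ℤ // (∀ k, |a k| ≤ (H : ℤ)) ∧ (Sol ℝ A B d a ∧
      ∀ (p : ℕ) [Fact p.Prime], Sol ℚ_[p] A B d a) ∧ ¬ Sol ℚ A B d a} :=
    Nat.card_congr (Equiv.subtypeEquivRight fun a => ⟨fun h => ⟨h.1, ⟨h.2.1, h.2.2.1⟩, h.2.2.2⟩,
      fun h => ⟨h.1, h.2.1.1, h.2.1.2, h.2.2⟩⟩)
  have h4 := h1 H a1
  have h5 := hC H a3
  have h6 := h2 H a2
  unfold nE at h4
  rw [e3]
  have hH0 : (0 : ℝ) < H := by exact_mod_cast a3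
  have h7 : C * (H : ℝ) ^ ((2 * d : ℝ) - δ) ≤ η / 2 * (H : ℝ) ^ (2 * d) := by
    have e4 : (H : ℝ) ^ ((2 * d : ℝ) - δ) = (H : ℝ) ^ (2 * d) * (H : ℝ) ^ (-δ) := by
      rw [sub_eq_add_neg, Real.rpow_add hH0]
      congr 1
      rw [← Real.rpow_natCast]
      push_cast
      rfl
    rw [e4]
    calc C * ((H : ℝ) ^ (2 * d) * (H : ℝ) ^ (-δ)) = C * (H : ℝ) ^ (-δ) * (H : ℝ) ^ (2 * d) := by ring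
      _ ≤ η / 2 * (H : ℝ) ^ (2 * d) := mul_le_mul_of_nonneg_right h6 (by positivity)
  linarith

end BLS
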