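import Pool.Agent.Lib.MP_10e784_agL.Defs

/-!
# LEAF HA: squares in `ℚ_p` (Hensel)

PROOF.  `sq_unit`: `hensels_lemma` for `F = X² - C x` at `a`, any lift of `w` to `ℤ_[p]`: `F'(a) = 2 a` is a unit (norm `1`, `p ≠ 2`, `w ≠ 0`), `‖F(a)‖ < 1` because its image in `ZMod p` vanishes (`PadicInt.toZMod`, kernel = maximal ideal).  The root `s` satisfies `‖s - a‖ < 1`, so `toZMod s = w`.  `sq_odd`: `sq_unit` with `w = 1`.  `sq_two`: `hensels_lemma` for `X² - C n` at `1`: `‖1 - n‖ ≤ 1 / 8 < ‖2‖² = 1 / 4`.  `sq_real`: `Real.mul_self_sqrt`.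
-/

set_option autoImplicit false

namespace BLS

private theorem HA_norm (p : ℕ) [Fact p.Prime] (x : ℤ_[p]) : ‖x‖ < 1 ↔ PadicInt.toZMod x = 0 := by
  rw [← RingHom.mem_ker, PadicInt.ker_toZMod, IsLocalRing.mem_maximalIdeal, PadicInt.mem_nonunits]

private theorem HA_norm_one (p : ℕ) [Fact p.Prime] (x : ℤ_[p]) (h : PadicInt.toZMod x ≠ 0) : ‖x‖ = 1 := by
  have h1 : ¬ ‖x‖ < 1 := fun hh => h ((HA_norm p x).1 hh)
  exact le_antisymm (PadicInt.norm_le_one x) (not_lt.1 h1)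

private theorem HA_hensel (p : ℕ) [Fact p.Prime] (x a : ℤ_[p]) (h : ‖a ^ 2 - x‖ < ‖2 * a‖ ^ 2) :
    ∃ s : ℤ_[p], x = s ^ 2 ∧ ‖s - a‖ < ‖2 * a‖ := by
  have h1 : Polynomial.aeval a (Polynomial.X ^ 2 - Polynomial.C x : Polynomial ℤ_[p]) = a ^ 2 - x := by
    simp
  have h2 : Polynomial.aeval a (Polynomial.derivative (Polynomial.X ^ 2 - Polynomial.C x : Polynomial ℤ_[p]))
      = 2 * a := by
    simp
    left
    norm_num
  have h3 : ‖Polynomial.aeval a (Polynomial.X ^ 2 - Polynomial.C x : Polynomial ℤ_[p])‖ <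
      ‖Polynomial.aeval a (Polynomial.derivative (Polynomial.X ^ 2 - Polynomial.C x : Polynomial ℤ_[p]))‖ ^ 2 := by
    rw [h1, h2]; exact h
  obtain ⟨s, hs, hd, -⟩ := hensels_lemma h3
  refine ⟨s, ?_, ?_⟩
  · have h4 : Polynomial.aeval s (Polynomial.X ^ 2 - Polynomial.C x : Polynomial ℤ_[p]) = s ^ 2 - x := by
      simp
    rw [h4] at hs
    exact (sub_eq_zero.1 hs).symm
  · rw [h2] at hd
    exact hd

theorem sq_unit (p : ℕ) [Fact p.Prime] (hp : p ≠ 2) (x : ℤ_[p]) (w : ZMod p) (hw : w ≠ 0)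
    (h : PadicInt.toZMod x = w ^ 2) : ∃ s : ℤ_[p], x = s ^ 2 ∧ PadicInt.toZMod s = w := by
  obtain ⟨a, ha⟩ := ZMod.ringHom_surjective (PadicInt.toZMod (p := p)) w
  have h2 : (2 : ZMod p) ≠ 0 := by
    intro hh
    have hh' : ((2 : ℕ) : ZMod p) = 0 := by exact_mod_cast hh
    rw [ZMod.natCast_eq_zero_iff] at hh'
    exact hp ((Nat.prime_dvd_prime_iff_eq (Fact.out : p.Prime) Nat.prime_two).1 hh')
  have h3 : ‖2 * a‖ = 1 := by
    apply HA_norm_one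
    rw [map_mul, ha, map_ofNat]
    exact mul_ne_zero h2 hw
  have h4 : ‖a ^ 2 - x‖ < 1 := by
    rw [HA_norm, map_sub, map_pow, ha, h, sub_self]
  obtain ⟨s, hs, hd⟩ := HA_hensel p x a (by rw [h3, one_pow]; exact h4)
  refine ⟨s, hs, ?_⟩
  rw [h3, HA_norm, map_sub, ha, sub_eq_zero] at hd
  exact hd

theorem sq_odd (p : ℕ) [Fact p.Prime] (hp : p ≠ 2) (n : ℤ) (h : (p : ℤ) ∣ n - 1) : IsSquare (n : ℚ_[p]) := by
  have h1 : PadicInt.toZMod (n : ℤ_[p]) = (1 : ZMod p) ^ 2 := by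
    rw [map_intCast, one_pow]
    have h2 := (ZMod.intCast_zmod_eq_zero_iff_dvd (n - 1) p).2 h
    push_cast at h2
    exact sub_eq_zero.1 h2
  obtain ⟨s, hs, -⟩ := sq_unit p hp (n : ℤ_[p]) 1 one_ne_zero h1
  refine ⟨(s : ℚ_[p]), ?_⟩
  have h3 := congrArg (fun t : ℤ_[p] => (t : ℚ_[p])) hs
  simp only [PadicInt.coe_intCast, PadicInt.coe_pow] at h3
  rw [h3, sq]

theorem sq_two (n : ℤ) (h : (8 : ℤ) ∣ n - 1) : IsSquare (n : ℚ_[2]) := by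
  have h1 : ‖(1 : ℤ_[2]) ^ 2 - (n : ℤ_[2])‖ < ‖(2 : ℤ_[2]) * 1‖ ^ 2 := by
    have h2 : ‖((1 - n : ℤ) : ℤ_[2])‖ ≤ (2 : ℝ) ^ (-(3 : ℕ) : ℤ) := by
      have h3 := (PadicInt.norm_int_le_pow_iff_dvd (p := 2) (k := 1 - n) (n := 3)).2 (by
        have h4 : (8 : ℤ) ∣ 1 - n := by
          obtain ⟨c, hc⟩ := h
          exact ⟨-c, by linarith⟩
        exact_mod_cast h4)
      exact_mod_cast h3
    have h5 : ‖(2 : ℤ_[2])‖ = 2⁻¹ := by
      have := PadicInt.norm_p (p := 2)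
      exact_mod_cast this
    rw [mul_one, h5, one_pow]
    push_cast at h2
    refine lt_of_le_of_lt h2 ?_
    norm_num
  obtain ⟨s, hs, -⟩ := HA_hensel 2 (n : ℤ_[2]) 1 h1
  refine ⟨(s : ℚ_[2]), ?_⟩
  have h3 := congrArg (fun t : ℤ_[2] => (t : ℚ_[2])) hs
  simp only [PadicInt.coe_intCast, PadicInt.coe_pow] at h3
  rw [h3, sq]

theorem sq_real (n : ℤ) (h : 0 < n) : IsSquare (n : ℝ) := by
  have h1 : (0 : ℝ) ≤ (n : ℝ) := by exact_mod_cast h.le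
  exact ⟨Real.sqrt n, (Real.mul_self_sqrt h1).symm⟩

end BLS
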