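import Pool.Agent.Lib.MP_10e784_agL.Defs

/-!
# LEAF MA: integral vectors in a box in given classes modulo `p`

PROOF.  `card_ap`: the integers `x` with `|x| ≤ H` in one class modulo `m`: `≤ 2 H / m + 1` (`Int.Ioc_filter_modEq_card` or an injection of the quotients; `x = r + m j`).  `card_ap'`: the integers `0 < x ≤ H` in a class modulo `p` and `≡ 1` modulo `M`, `p` and `M` coprime: one class modulo `p M` or none: `≤ H / (p M) + 1`.
`card_box`: for each `s` in `S` the vectors `a` with `a ≡ s` modulo `p` are contained in a product (`Fintype.piFinset` / `Nat.card_pi`) of such sets: at most `(2 H / p + 1)^(n - 1) (H / (p M) + 1) ≤ (3 H / p)^(n - 1) (2 H / (p M))` because `p ≤ p M ≤ H`.  Sum over `s` in `S`.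
-/

set_option autoImplicit false

namespace BLS

open Finset

/-- Integers in an interval in one class modulo `m`. -/
private theorem MA_cnt (m : ℕ) (hm : 1 ≤ m) (v lo hi : ℤ) (hlh : lo ≤ hi) (s : ℤ → Prop)
    (hs : ∀ x, s x → lo ≤ x ∧ x ≤ hi ∧ (m : ℤ) ∣ x - v) :
    (Nat.card {x : ℤ // s x} : ℝ) ≤ ((hi : ℝ) - lo) / m + 1 := by
  classical
  have hm0 : (0 : ℝ) < m := by exact_mod_cast hm
  have hmz : (m : ℤ) ≠ 0 := by exact_mod_cast (by omega : m ≠ 0)
  rcases isEmpty_or_nonempty {x : ℤ // s x} with he | ⟨⟨x0, hx0⟩⟩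
  · rw [Nat.card_of_isEmpty]
    have h1 : (lo : ℝ) ≤ hi := by exact_mod_cast hlh
    have h2 : 0 ≤ ((hi : ℝ) - lo) / m := div_nonneg (by linarith) hm0.le
    push_cast
    linarith
  · let a : ℤ := ⌈((lo : ℝ) - v) / m⌉
    let b : ℤ := ⌊((hi : ℝ) - v) / m⌋
    have key : ∀ x, s x → (x - v) / m ∈ Finset.Icc a b := by
      intro x hx
      obtain ⟨h1, h2, j, hj⟩ := hs x hx
      rw [hj, Int.mul_ediv_cancel_left _ hmz, Finset.mem_Icc]
      have h3 : (x : ℝ) - v = m * j := by exact_mod_cast hj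
      have h4 : (lo : ℝ) ≤ x := by exact_mod_cast h1
      have h5 : (x : ℝ) ≤ hi := by exact_mod_cast h2
      constructor
      · refine Int.ceil_le.2 ?_
        rw [div_le_iff₀ hm0]
        linarith
      · refine Int.le_floor.2 ?_
        rw [le_div_iff₀ hm0]
        linarith
    let g : {x : ℤ // s x} → Finset.Icc a b := fun x => ⟨(x.1 - v) / m, key x.1 x.2⟩
    have hg : Function.Injective g := by
      intro x y hxy
      have h1 : (x.1 - v) / m = (y.1 - v) / m := congrArg Subtype.val hxy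
      obtain ⟨-, -, j, hj⟩ := hs x.1 x.2
      obtain ⟨-, -, j', hj'⟩ := hs y.1 y.2
      rw [hj, hj', Int.mul_ediv_cancel_left _ hmz, Int.mul_ediv_cancel_left _ hmz] at h1
      rw [← h1] at hj'
      exact Subtype.ext (by omega)
    have h1 : Nat.card {x : ℤ // s x} ≤ (Finset.Icc a b).card := by
      have h2 := Nat.card_le_card_of_injective g hg
      have h3 : Nat.card (Finset.Icc a b) = (Finset.Icc a b).card := by
        rw [Nat.card_eq_fintype_card, Fintype.card_coe]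
      rwa [h3] at h2
    have h2 : a ≤ b := by
      have h3 := Finset.mem_Icc.1 (key x0 hx0)
      exact h3.1.trans h3.2
    rw [Int.card_Icc] at h1
    have h3 : (Nat.card {x : ℤ // s x} : ℝ) ≤ (b : ℝ) + 1 - a := by
      have h4 : ((Nat.card {x : ℤ // s x} : ℕ) : ℤ) ≤ b + 1 - a := by
        have h5 : ((b + 1 - a).toNat : ℤ) = b + 1 - a := Int.toNat_of_nonneg (by omega)
        rw [← h5]
        exact_mod_cast h1
      exact_mod_cast h4
    have h4 : (b : ℝ) ≤ ((hi : ℝ) - v) / m := Int.floor_le _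
    have h5 : ((lo : ℝ) - v) / m ≤ a := Int.le_ceil _
    have h6 : ((hi : ℝ) - lo) / m = ((hi : ℝ) - v) / m - ((lo : ℝ) - v) / m := by ring
    rw [h6]
    linarith

theorem card_ap (m H : ℕ) (hm : 1 ≤ m) (c : ZMod m) :
    (Nat.card {x : ℤ // |x| ≤ (H : ℤ) ∧ (x : ZMod m) = c} : ℝ) ≤ 2 * (H : ℝ) / m + 1 := by
  obtain ⟨v, hv⟩ := ZMod.intCast_surjective c
  have h := MA_cnt m hm v (-(H : ℤ)) H (by omega)
    (fun x => |x| ≤ (H : ℤ) ∧ (x : ZMod m) = c) (fun x hx => by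
      obtain ⟨h1, h2⟩ := abs_le.1 hx.1
      refine ⟨h1, h2, ?_⟩
      rw [← ZMod.intCast_zmod_eq_zero_iff_dvd] at *
      push_cast
      rw [hx.2, hv, sub_self])
  refine h.trans (le_of_eq ?_)
  push_cast
  ring

theorem card_ap' (p M H : ℕ) (hp : 1 ≤ p) (hM : 1 ≤ M) (hpM : p.Coprime M) (c : ZMod p) :
    (Nat.card {x : ℤ // |x| ≤ (H : ℤ) ∧ 0 < x ∧ (M : ℤ) ∣ x - 1 ∧ (x : ZMod p) = c} : ℝ) ≤ (H : ℝ) / (p * M) + 1 := by
  have hp0 : (0 : ℝ) < p := by exact_mod_cast hp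
  have hM0 : (0 : ℝ) < M := by exact_mod_cast hM
  have hH0 : (0 : ℝ) ≤ H := Nat.cast_nonneg H
  rcases isEmpty_or_nonempty {x : ℤ // |x| ≤ (H : ℤ) ∧ 0 < x ∧ (M : ℤ) ∣ x - 1 ∧ (x : ZMod p) = c}
    with he | ⟨⟨x0, h1, h2, h3, h4⟩⟩
  · rw [Nat.card_of_isEmpty]
    have h2 : 0 ≤ (H : ℝ) / (p * M) := div_nonneg hH0 (by positivity)
    push_cast
    linarith
  · have hH : (1 : ℤ) ≤ H := by
      have := (abs_le.1 h1).2
      omega
    have h := MA_cnt (p * M) (Nat.mul_pos hp hM) x0 1 H hH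
      (fun x => |x| ≤ (H : ℤ) ∧ 0 < x ∧ (M : ℤ) ∣ x - 1 ∧ (x : ZMod p) = c) (fun x hx => by
        obtain ⟨k1, k2, k3, k4⟩ := hx
        refine ⟨by omega, (abs_le.1 k1).2, ?_⟩
        have e1 : (p : ℤ) ∣ x - x0 := by
          rw [← ZMod.intCast_zmod_eq_zero_iff_dvd] at *
          push_cast
          rw [k4, h4, sub_self]
        have e2 : (M : ℤ) ∣ x - x0 := by
          have e3 : x - x0 = (x - 1) - (x0 - 1) := by ring
          rw [e3]
          exact dvd_sub k3 h3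
        have e3 : IsCoprime (p : ℤ) (M : ℤ) := Nat.isCoprime_iff_coprime.2 hpM
        have e4 := e3.mul_dvd e1 e2
        push_cast
        exact e4)
    refine h.trans ?_
    have h5 : (((H : ℤ) : ℝ) - ((1 : ℤ) : ℝ)) / ((p * M : ℕ) : ℝ) ≤ (H : ℝ) / (p * M) := by
      push_cast
      exact div_le_div_of_nonneg_right (by linarith) (by positivity)
    linarith

theorem card_box {ι : Type} [Fintype ι] [DecidableEq ι] (k1 : ι) (p M H : ℕ) [Fact p.Prime] (hM : 1 ≤ M)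
    (hpM : p.Coprime M) (h : p * M ≤ H) (S : Set (ι → ZMod p)) :
    (Nat.card {a : ι → ℤ // ((∀ k, |a k| ≤ (H : ℤ)) ∧ 0 < a k1 ∧ (M : ℤ) ∣ a k1 - 1) ∧
      (fun k => ((a k : ℤ) : ZMod p)) ∈ S} : ℝ) ≤
      Nat.card S * ((3 * (H : ℝ) / p) ^ (Fintype.card ι - 1) * (2 * (H : ℝ) / (p * M))) := by
  classical
  have hp : 1 ≤ p := (Fact.out : p.Prime).one_lt.le
  have hp0 : (0 : ℝ) < p := by exact_mod_cast hp
  have hM0 : (0 : ℝ) < M := by exact_mod_cast hM
  have hneZ : NeZero p := ⟨by omega⟩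
  let Q : (ι → ZMod p) → ι → ℤ → Prop := fun s k x =>
    if k = k1 then |x| ≤ (H : ℤ) ∧ 0 < x ∧ (M : ℤ) ∣ x - 1 ∧ (x : ZMod p) = s k
    else |x| ≤ (H : ℤ) ∧ (x : ZMod p) = s k
  have hQa : ∀ s k x, Q s k x → |x| ≤ (H : ℤ) := by
    intro s k x hx
    by_cases hk : k = k1
    · have : |x| ≤ (H : ℤ) ∧ 0 < x ∧ (M : ℤ) ∣ x - 1 ∧ (x : ZMod p) = s k := by
        simpa only [Q, if_pos hk] using hx
      exact this.1
    · have : |x| ≤ (H : ℤ) ∧ (x : ZMod p) = s k := by simpa only [Q, if_neg hk] using hx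
      exact this.1
  have hfin : ∀ s k, Finite {x : ℤ // Q s k x} := by
    intro s k
    have h1 : {x : ℤ | Q s k x} ⊆ Set.Icc (-(H : ℤ)) H := fun x hx => abs_le.1 (hQa s k x hx)
    exact ((Set.finite_Icc _ _).subset h1).to_subtype
  have hSf : Finite S := inferInstance
  have hSF : Fintype S := Fintype.ofFinite S
  let A := {a : ι → ℤ // ((∀ k, |a k| ≤ (H : ℤ)) ∧ 0 < a k1 ∧ (M : ℤ) ∣ a k1 - 1) ∧
      (fun k => ((a k : ℤ) : ZMod p)) ∈ S}
  let B := (s : S) × ((k : ι) → {x : ℤ // Q s.1 k x})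
  let g : A → B := fun a => ⟨⟨fun k => ((a.1 k : ℤ) : ZMod p), a.2.2⟩, fun k => ⟨a.1 k, by
    by_cases hk : k = k1
    · have : |a.1 k| ≤ (H : ℤ) ∧ 0 < a.1 k ∧ (M : ℤ) ∣ a.1 k - 1 ∧
          ((a.1 k : ℤ) : ZMod p) = ((a.1 k : ℤ) : ZMod p) :=
        ⟨a.2.1.1 k, hk ▸ a.2.1.2.1, hk ▸ a.2.1.2.2, rfl⟩
      simpa only [Q, if_pos hk] using this
    · have : |a.1 k| ≤ (H : ℤ) ∧ ((a.1 k : ℤ) : ZMod p) = ((a.1 k : ℤ) : ZMod p) :=
        ⟨a.2.1.1 k, rfl⟩
      simpa only [Q, if_neg hk] using this⟩⟩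
  have hg : Function.Injective g := by
    intro a b hab
    have h1 := congrArg (fun y : B => fun k => ((y.2 k).1 : ℤ)) hab
    exact Subtype.ext h1
  have h1 : Nat.card A ≤ Nat.card B := Nat.card_le_card_of_injective g hg
  have h2 : Nat.card B = ∑ s : S, ∏ k, Nat.card {x : ℤ // Q s.1 k x} := by
    rw [Nat.card_sigma]
    exact Finset.sum_congr rfl fun s _ => Nat.card_pi
  have hHp : (1 : ℝ) ≤ H / p := by
    rw [le_div_iff₀ hp0, one_mul]
    exact_mod_cast (Nat.le_mul_of_pos_right p hM).trans h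
  have hHpM : (1 : ℝ) ≤ H / (p * M) := by
    rw [le_div_iff₀ (by positivity), one_mul]
    exact_mod_cast h
  have h3 : ∀ s : S, ((∏ k, Nat.card {x : ℤ // Q s.1 k x} : ℕ) : ℝ) ≤
      (3 * (H : ℝ) / p) ^ (Fintype.card ι - 1) * (2 * (H : ℝ) / (p * M)) := by
    intro s
    rw [← Finset.mul_prod_erase _ _ (Finset.mem_univ k1)]
    push_cast
    rw [mul_comm]
    refine mul_le_mul ?_ ?_ (Nat.cast_nonneg _) (by positivity)
    · have h4 : (∏ k ∈ Finset.univ.erase k1, (Nat.card {x : ℤ // Q s.1 k x} : ℝ)) ≤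
          ∏ _k ∈ Finset.univ.erase k1, (3 * (H : ℝ) / p) := by
        refine Finset.prod_le_prod (fun _ _ => Nat.cast_nonneg _) fun k hk => ?_
        have hk1 : k ≠ k1 := Finset.ne_of_mem_erase hk
        have h5 : (Nat.card {x : ℤ // Q s.1 k x} : ℝ) =
            Nat.card {x : ℤ // |x| ≤ (H : ℤ) ∧ (x : ZMod p) = s.1 k} := by
          congr 1
          refine Nat.card_congr (Equiv.subtypeEquivRight fun x => ?_)
          simp only [Q, if_neg hk1]
        rw [h5]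
        refine (card_ap p H hp (s.1 k)).trans ?_
        have h6 : 3 * (H : ℝ) / p = 2 * (H : ℝ) / p + H / p := by ring
        rw [h6]
        linarith
      refine h4.trans (le_of_eq ?_)
      rw [Finset.prod_const, Finset.card_erase_of_mem (Finset.mem_univ k1), Finset.card_univ]
    · have h5 : (Nat.card {x : ℤ // Q s.1 k1 x} : ℝ) =
          Nat.card {x : ℤ // |x| ≤ (H : ℤ) ∧ 0 < x ∧ (M : ℤ) ∣ x - 1 ∧ (x : ZMod p) = s.1 k1} := by
        congr 1
        refine Nat.card_congr (Equiv.subtypeEquivRight fun x => ?_)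
        simp only [Q, if_true]
      rw [h5]
      refine (card_ap' p M H hp hM hpM (s.1 k1)).trans ?_
      have h6 : 2 * (H : ℝ) / (p * M) = H / (p * M) + H / (p * M) := by ring
      rw [h6]
      linarith
  have h4 : (Nat.card A : ℝ) ≤ ∑ s : S, ((∏ k, Nat.card {x : ℤ // Q s.1 k x} : ℕ) : ℝ) := by
    have h5 : (Nat.card A : ℝ) ≤ (Nat.card B : ℝ) := by exact_mod_cast h1
    rw [h2] at h5
    push_cast at h5 ⊢
    exact h5
  refine h4.trans ((Finset.sum_le_sum fun s _ => h3 s).trans (le_of_eq ?_))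
  rw [Finset.sum_const, Finset.card_univ, nsmul_eq_mul, Nat.card_eq_fintype_card]

end BLS
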