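import Pool.Agent.Lib.MP_10e784_agL.FA

/-!
# LEAF FB: the truncated square root at `O`: a relation which does not contain `a_0`

The quantities `q` (functions of the data) with `(2 t)^m q` an integral polynomial in `A`, `B` and the `a k`, `k ≠ kk, k0 d`, are closed under `+`, `*`; strong induction on `k` with the relation (*), see below.
-/

set_option autoImplicit false

namespace BLS

open Polynomial Finset

namespace FBx

/-- the data -/
structure Dat (d : ℕ) where
  /-- field -/
  K : Type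
  /-- field -/
  [fld : Field K]
  h2 : (2 : K) ≠ 0
  /-- coefficient -/
  A : K
  /-- coefficient -/
  B : K
  /-- coefficients -/
  a : Ix d → K
  /-- polynomial -/
  u : K[X]
  /-- polynomial -/
  v : K[X]
  h1 : pa a = u ^ 2 + v ^ 2 * pf A B
  h3 : pb a = 2 * u * v
  h4 : a (kd d) ≠ 0

attribute [instance] Dat.fld

variable {d : ℕ}

/-- the value of an integral polynomial at the data -/
noncomputable def ev (kk : Ix d) (D : Dat d) (G : MvPolynomial (Fin 2 ⊕ {k : Ix d // k ≠ kk ∧ k ≠ k0 d}) ℤ) : D.K :=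
  MvPolynomial.aeval (Sum.elim ![D.A, D.B] fun k => D.a k.1) G

/-- admissible quantities -/
def Adm (kk : Ix d) (q : ∀ D : Dat d, D.K) : Prop :=
  ∃ (m : ℕ) (G : MvPolynomial (Fin 2 ⊕ {k : Ix d // k ≠ kk ∧ k ≠ k0 d}) ℤ),
    ∀ D : Dat d, (2 * D.a (kd d)) ^ m * q D = ev kk D G

variable {kk : Ix d}

theorem adm_congr {q r : ∀ D : Dat d, D.K} (h : ∀ D, q D = r D) (hq : Adm kk q) : Adm kk r := by
  obtain ⟨m, G, hG⟩ := hq
  exact ⟨m, G, fun D => by rw [← h D]; exact hG D⟩

theorem adm_int (z : ℤ) : Adm kk (fun _ => (z : _)) := by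
  refine ⟨0, MvPolynomial.C z, fun D => ?_⟩
  simp only [ev, pow_zero, one_mul, MvPolynomial.aeval_C]
  simp

theorem adm_A : Adm kk (fun D => D.A) := by
  refine ⟨0, MvPolynomial.X (.inl 0), fun D => ?_⟩
  simp only [ev, pow_zero, one_mul, MvPolynomial.aeval_X]
  simp

theorem adm_B : Adm kk (fun D => D.B) := by
  refine ⟨0, MvPolynomial.X (.inl 1), fun D => ?_⟩
  simp only [ev, pow_zero, one_mul, MvPolynomial.aeval_X]
  simp

theorem adm_a (k : Ix d) (h1 : k ≠ kk) (h2 : k ≠ k0 d) : Adm kk (fun D => D.a k) := by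
  refine ⟨0, MvPolynomial.X (.inr ⟨k, h1, h2⟩), fun D => ?_⟩
  simp only [ev, pow_zero, one_mul, MvPolynomial.aeval_X]
  simp

theorem adm_mul {q r : ∀ D : Dat d, D.K} (hq : Adm kk q) (hr : Adm kk r) : Adm kk (fun D => q D * r D) := by
  obtain ⟨m, G, hG⟩ := hq
  obtain ⟨n, H, hH⟩ := hr
  refine ⟨m + n, G * H, fun D => ?_⟩
  have : ev kk D (G * H) = ev kk D G * ev kk D H := by simp only [ev, map_mul]
  rw [this, ← hG D, ← hH D]
  ring

theorem adm_add (h1 : kd d ≠ kk) (h2 : kd d ≠ k0 d) {q r : ∀ D : Dat d, D.K} (hq : Adm kk q) (hr : Adm kk r) :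
    Adm kk (fun D => q D + r D) := by
  obtain ⟨m, G, hG⟩ := hq
  obtain ⟨n, H, hH⟩ := hr
  refine ⟨m + n, (MvPolynomial.C 2 * MvPolynomial.X (.inr ⟨kd d, h1, h2⟩)) ^ n * G +
    (MvPolynomial.C 2 * MvPolynomial.X (.inr ⟨kd d, h1, h2⟩)) ^ m * H, fun D => ?_⟩
  have h5 : ∀ G' : MvPolynomial (Fin 2 ⊕ {k : Ix d // k ≠ kk ∧ k ≠ k0 d}) ℤ, ∀ s : ℕ,
      ev kk D ((MvPolynomial.C 2 * MvPolynomial.X (.inr ⟨kd d, h1, h2⟩)) ^ s * G') =
      (2 * D.a (kd d)) ^ s * ev kk D G' := by
    intro G' s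
    simp only [ev, map_mul, map_pow, MvPolynomial.aeval_X, MvPolynomial.aeval_C, Sum.elim_inr]
    simp
  have h6 : ∀ G' H' : MvPolynomial (Fin 2 ⊕ {k : Ix d // k ≠ kk ∧ k ≠ k0 d}) ℤ,
      ev kk D (G' + H') = ev kk D G' + ev kk D H' := by
    intro G' H'
    simp only [ev, map_add]
  rw [h6, h5, h5, ← hG D, ← hH D]
  ring

theorem adm_sum (h1 : kd d ≠ kk) (h2 : kd d ≠ k0 d) {ι : Type} (s : Finset ι) (q : ι → ∀ D : Dat d, D.K)
    (hq : ∀ i ∈ s, Adm kk (q i)) : Adm kk (fun D => ∑ i ∈ s, q i D) := by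
  classical
  induction s using Finset.induction_on with
  | empty =>
    refine adm_congr (q := fun _ => ((0 : ℤ) : _)) (fun D => ?_) (adm_int 0)
    simp
  | insert i s hi ih =>
    refine adm_congr (q := fun D => q i D + ∑ j ∈ s, q j D) (fun D => ?_)
      (adm_add h1 h2 (hq i (Finset.mem_insert_self i s)) (ih fun j hj => hq j (Finset.mem_insert_of_mem hj)))
    rw [Finset.sum_insert hi]

theorem adm_div {q : ∀ D : Dat d, D.K} (hq : Adm kk (fun D => 2 * D.a (kd d) * q D)) : Adm kk q := by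
  obtain ⟨m, G, hG⟩ := hq
  refine ⟨m + 1, G, fun D => ?_⟩
  rw [← hG D]
  ring

/-- the coefficients of `φ` -/
noncomputable def cc (D : Dat d) (n : ℕ) : D.K := cf (pa D.a) (pb D.a) n

/-- the coefficients of the root -/
noncomputable def ch (D : Dat d) (k : ℕ) : D.K := cf D.u D.v (d - k)

/-- the odd ones -/
noncomputable def cho (D : Dat d) (k : ℕ) : D.K := co D.v (d - k)

/-- the multiples -/
noncomputable def om (k : ℕ) (D : Dat d) : D.K := ch D 0 * ch D k

/-- the multiples -/
noncomputable def omo (k : ℕ) (D : Dat d) : D.K := ch D 0 * cho D k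

theorem pa_coeff {K : Type} [Field K] (a : Ix d → K) (n : ℕ) (hn : n < d + 1) :
    (pa a).coeff n = a (.inl ⟨n, hn⟩) := by
  unfold pa
  rw [finsetSum_coeff]
  rw [Finset.sum_eq_single (⟨n, hn⟩ : Fin (d + 1))]
  · rw [coeff_monomial, if_pos rfl]
  · intro b _ hb
    rw [coeff_monomial, if_neg]
    intro h
    exact hb (Fin.ext h)
  · intro h
    exact absurd (Finset.mem_univ _) h

theorem pb_coeff {K : Type} [Field K] (a : Ix d → K) (n : ℕ) (hn : n < d - 1) :
    (pb a).coeff n = a (.inr ⟨n, hn⟩) := by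
  unfold pb
  rw [finsetSum_coeff]
  rw [Finset.sum_eq_single (⟨n, hn⟩ : Fin (d - 1))]
  · rw [coeff_monomial, if_pos rfl]
  · intro b _ hb
    rw [coeff_monomial, if_neg]
    intro h
    exact hb (Fin.ext h)
  · intro h
    exact absurd (Finset.mem_univ _) h

/-- reversal of a convolution -/
theorem rev_sum {K : Type} [Field K] (f : ℕ → K) (hf : ∀ n, d < n → f n = 0) (k : ℕ) (hk : k ≤ d) :
    ∑ z ∈ antidiagonal (2 * d - k), f z.1 * f z.2 = ∑ z ∈ antidiagonal k, f (d - z.1) * f (d - z.2) := by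
  have h1 : ∑ z ∈ antidiagonal (2 * d - k), f z.1 * f z.2 =
      ∑ z ∈ (antidiagonal (2 * d - k)).filter (fun z => z.1 ≤ d ∧ z.2 ≤ d), f z.1 * f z.2 := by
    rw [Finset.sum_filter]
    apply Finset.sum_congr rfl
    intro z _
    split_ifs with h
    · rfl
    · rw [not_and_or] at h
      rcases h with h | h
      · rw [hf _ (not_le.1 h), zero_mul]
      · rw [hf _ (not_le.1 h), mul_zero]
  rw [h1]
  refine Finset.sum_nbij' (fun z => (d - z.1, d - z.2)) (fun z => (d - z.1, d - z.2)) ?_ ?_ ?_ ?_ ?_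
  · intro z hz
    simp only [Finset.mem_filter, Finset.HasAntidiagonal.mem_antidiagonal] at hz ⊢
    omega
  · intro z hz
    simp only [Finset.mem_filter, Finset.HasAntidiagonal.mem_antidiagonal] at hz ⊢
    omega
  · intro z hz
    simp only [Finset.mem_filter, Finset.HasAntidiagonal.mem_antidiagonal] at hz
    apply Prod.ext
    · simp only
      omega
    · simp only
      omega
  · intro z hz
    simp only [Finset.HasAntidiagonal.mem_antidiagonal] at hz
    apply Prod.ext
    · simp only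
      omega
    · simp only
      omega
  · intro z hz
    simp only [Finset.mem_filter, Finset.HasAntidiagonal.mem_antidiagonal] at hz
    simp only
    rw [Nat.sub_sub_self hz.2.1, Nat.sub_sub_self hz.2.2]

/-- vanishing of a convolution -/
theorem van_sum {K : Type} [Field K] (f : ℕ → K) (hf : ∀ n, d < n → f n = 0) (k : ℕ) (hk : 2 * d < k) :
    ∑ z ∈ antidiagonal k, f z.1 * f z.2 = 0 := by
  apply Finset.sum_eq_zero
  intro z hz
  rw [Finset.HasAntidiagonal.mem_antidiagonal] at hz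
  by_cases h : d < z.1
  · rw [hf _ h, zero_mul]
  · rw [hf z.2 (by omega), mul_zero]

/-- the truncated convolution -/
noncomputable def cv {K : Type} [Field K] (f : ℕ → K) (e k : ℕ) : K :=
  if e ≤ k then ∑ z ∈ antidiagonal (k - e), f z.1 * f z.2 else 0

theorem cc_eq (hd : 2 ≤ d) (D : Dat d) (k : ℕ) (hk : k ≤ d) :
    cc D (2 * d - k) = cv (ch D) 0 k + D.A * cv (cho D) 4 k + D.B * cv (cho D) 6 k := by
  have h1 : ∀ n, d < n → cf D.u D.v n = 0 := fun n hn => (cf_top hd D.A D.B D.a D.u D.v D.h1 n hn).1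
  have h2 : ∀ n, d < n → co D.v n = 0 := fun n hn => (cf_top hd D.A D.B D.a D.u D.v D.h1 n hn).2
  have h3 : ∀ e, ∑ z ∈ antidiagonal (2 * d - k + e), co D.v z.1 * co D.v z.2 = cv (cho D) e k := by
    intro e
    unfold cv
    split_ifs with h
    · have : 2 * d - k + e = 2 * d - (k - e) := by omega
      rw [this, rev_sum (d := d) (co D.v) h2 (k - e) (by omega)]
      rfl
    · exact van_sum (d := d) (co D.v) h2 _ (by omega)
  have h4 : ∑ z ∈ antidiagonal (2 * d - k), cf D.u D.v z.1 * cf D.u D.v z.2 = cv (ch D) 0 k := by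
    unfold cv
    rw [if_pos (Nat.zero_le k), rev_sum (d := d) (cf D.u D.v) h1 k hk]
    rfl
  unfold cc
  rw [D.h1, D.h3, cf_sq, h3 4, h3 6, h4]

theorem t_eq (hd : 2 ≤ d) (D : Dat d) : D.a (kd d) = ch D 0 * ch D 0 := by
  have h := cc_eq hd D 0 (Nat.zero_le d)
  have h1 : cc D (2 * d - 0) = D.a (kd d) := by
    unfold cc cf
    rw [if_pos (by omega)]
    have : (2 * d - 0) / 2 = d := by omega
    rw [this, pa_coeff D.a d (Nat.lt_succ_self d)]
    rfl
  rw [h1] at h
  rw [h]
  unfold cv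
  simp

theorem mul_cv {K : Type} [Field K] (c : K) (f : ℕ → K) (e k : ℕ) : (c * c) * cv f e k = cv (fun n => c * f n) e k := by
  unfold cv
  split_ifs with h
  · rw [Finset.mul_sum]
    apply Finset.sum_congr rfl
    intro z _
    ring
  · exact mul_zero _

/-- the part of the convolution without the two outer terms -/
noncomputable def ci {K : Type} [Field K] (f : ℕ → K) (k : ℕ) : K :=
  ∑ z ∈ ((antidiagonal k).erase (0, k)).erase (k, 0), f z.1 * f z.2

theorem cv_ci {K : Type} [Field K] (f : ℕ → K) (k : ℕ) (hk : 1 ≤ k) : cv f 0 k = 2 * f 0 * f k + ci f k := by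
  unfold cv ci
  rw [if_pos (Nat.zero_le k), Nat.sub_zero]
  have h1 : (0, k) ∈ antidiagonal k := by
    rw [Finset.HasAntidiagonal.mem_antidiagonal]
    exact zero_add k
  have h2 : (k, 0) ∈ (antidiagonal k).erase (0, k) := by
    rw [Finset.mem_erase, Finset.HasAntidiagonal.mem_antidiagonal]
    refine ⟨fun h => ?_, add_zero k⟩
    have := congrArg Prod.fst h
    simp only at this
    omega
  rw [← Finset.add_sum_erase _ _ h1, ← Finset.add_sum_erase _ _ h2]
  simp only
  ring

/-- the relation (*) -/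
theorem star (hd : 2 ≤ d) (D : Dat d) (k : ℕ) (hk : k ≤ d) (hk1 : 1 ≤ k) :
    D.a (kd d) * cc D (2 * d - k) = 2 * D.a (kd d) * om k D + (ci (fun n => om n D) k +
      D.A * cv (fun n => omo n D) 4 k + D.B * cv (fun n => omo n D) 6 k) := by
  rw [cc_eq hd D k hk, t_eq hd D]
  have h1 := mul_cv (ch D 0) (ch D) 0 k
  have h2 := mul_cv (ch D 0) (cho D) 4 k
  have h3 := mul_cv (ch D 0) (cho D) 6 k
  have h4 : ∀ n, ch D 0 * ch D n = om n D := fun n => rfl
  have h5 : ∀ n, ch D 0 * cho D n = omo n D := fun n => rfl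
  simp only [h4] at h1
  simp only [h5] at h2 h3
  rw [cv_ci (fun n => om n D) _ hk1] at h1
  rw [h4 0, mul_add, mul_add]
  have h6 : om 0 D * (D.A * cv (cho D) 4 k) = D.A * cv (fun n => omo n D) 4 k := by
    rw [← h2, ← h4 0]
    ring
  have h7 : om 0 D * (D.B * cv (cho D) 6 k) = D.B * cv (fun n => omo n D) 6 k := by
    rw [← h3, ← h4 0]
    ring
  rw [h6, h7, h1]
  ring

theorem omo_eq (k : ℕ) (D : Dat d) : omo k D = if (d - k) % 2 = 0 then 0 else om k D := by
  unfold omo om cho ch co cf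
  split_ifs <;> simp

theorem adm_cv (h1 : kd d ≠ kk) (h2 : kd d ≠ k0 d) (q : ℕ → ∀ D : Dat d, D.K) (e k : ℕ)
    (hq : ∀ i, i ≤ k - e → Adm kk (q i)) : Adm kk (fun D => cv (fun n => q n D) e k) := by
  unfold cv
  by_cases h : e ≤ k
  · simp only [if_pos h]
    refine adm_sum h1 h2 _ (fun (z : ℕ × ℕ) D => q z.1 D * q z.2 D) fun z hz => ?_
    rw [Finset.HasAntidiagonal.mem_antidiagonal] at hz
    exact adm_mul (hq _ (by omega)) (hq _ (by omega))
  · simp only [if_neg h]
    refine adm_congr (q := fun _ => ((0 : ℤ) : _)) (fun D => ?_) (adm_int 0)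
    simp

/-- the right side -/
theorem adm_R (h1 : kd d ≠ kk) (h2 : kd d ≠ k0 d) (k : ℕ) (hk : 1 ≤ k)
    (hq : ∀ i, i < k → Adm kk (om i)) : Adm kk (fun D => ci (fun n => om n D) k +
      D.A * cv (fun n => omo n D) 4 k + D.B * cv (fun n => omo n D) 6 k) := by
  have hqo : ∀ i, i < k → Adm kk (omo i) := by
    intro i hi
    by_cases h : (d - i) % 2 = 0
    · refine adm_congr (q := fun _ => ((0 : ℤ) : _)) (fun D => ?_) (adm_int 0)
      rw [omo_eq, if_pos h]
      simp
    · refine adm_congr (q := om i) (fun D => ?_) (hq i hi)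
      rw [omo_eq, if_neg h]
  refine adm_add h1 h2 (adm_add h1 h2 ?_ (adm_mul adm_A (adm_cv h1 h2 (fun n D => omo n D) 4 k ?_)))
    (adm_mul adm_B (adm_cv h1 h2 (fun n D => omo n D) 6 k ?_))
  · unfold ci
    refine adm_sum h1 h2 _ (fun (z : ℕ × ℕ) D => om z.1 D * om z.2 D) fun z hz => ?_
    rw [Finset.mem_erase, Finset.mem_erase, Finset.HasAntidiagonal.mem_antidiagonal] at hz
    obtain ⟨hz1, hz2, hz3⟩ := hz
    have h3 : z.1 ≠ 0 := by
      intro h
      exact hz2 (Prod.ext h (by simp only; omega))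
    have h4 : z.2 ≠ 0 := by
      intro h
      exact hz1 (Prod.ext (by simp only; omega) h)
    exact adm_mul (hq _ (by omega)) (hq _ (by omega))
  · intro i hi
    exact hqo i (by omega)
  · intro i hi
    exact hqo i (by omega)

/-- the coefficients of `φ` are admissible except at `kk` -/
theorem adm_cc (hd : 2 ≤ d) (hkk : kk = if h : d % 2 = 0 then .inr ⟨(d - 2) / 2, by omega⟩ else .inl ⟨(d + 1) / 2, by omega⟩)
    (n : ℕ) (hn1 : d + 2 ≤ n) (hn2 : n ≤ 2 * d) : Adm kk (fun D => cc D n) := by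
  by_cases h : n % 2 = 0
  · refine adm_congr (q := fun D => D.a (.inl ⟨n / 2, by omega⟩)) (fun D => ?_) (adm_a _ ?_ ?_)
    · unfold cc cf
      rw [if_pos h, pa_coeff]
    · rw [hkk]
      split_ifs with h1
      · exact Sum.inl_ne_inr
      · intro h2
        have := congrArg Fin.val (Sum.inl.inj h2)
        simp only at this
        omega
    · intro h2
      have := congrArg Fin.val (Sum.inl.inj h2)
      simp only [Fin.val_zero] at this
      omega
  · refine adm_congr (q := fun D => D.a (.inr ⟨(n - 3) / 2, by omega⟩)) (fun D => ?_) (adm_a _ ?_ ?_)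
    · unfold cc cf
      rw [if_neg h, if_neg (by omega), pb_coeff]
    · rw [hkk]
      split_ifs with h1
      · intro h2
        have := congrArg Fin.val (Sum.inr.inj h2)
        simp only at this
        omega
      · exact Sum.inr_ne_inl
    · exact Sum.inr_ne_inl

end FBx

open FBx in
theorem rel (d : ℕ) (hd : 2 ≤ d) : ∃ (kk : Ix d) (m : ℕ)
    (G : MvPolynomial (Fin 2 ⊕ {k : Ix d // k ≠ kk ∧ k ≠ k0 d}) ℤ), kk ≠ k0 d ∧ kk ≠ kd d ∧
    ∀ (K : Type) [Field K], (2 : K) ≠ 0 → ∀ (A B : K) (a : Ix d → K) (u v : K[X]),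
      pa a = u ^ 2 + v ^ 2 * pf A B → pb a = 2 * u * v → a (kd d) ≠ 0 →
      (2 * a (kd d)) ^ m * a kk = MvPolynomial.aeval (Sum.elim ![A, B] fun k => a k.1) G := by
  obtain ⟨kk, hkk⟩ : ∃ kk : Ix d, kk = if h : d % 2 = 0 then .inr ⟨(d - 2) / 2, by omega⟩ else
    .inl ⟨(d + 1) / 2, by omega⟩ := ⟨_, rfl⟩
  have hk0 : kk ≠ k0 d := by
    rw [hkk]
    split_ifs with h
    · exact Sum.inr_ne_inl
    · intro h2
      have := congrArg Fin.val (Sum.inl.inj h2)
      simp only [Fin.val_zero] at this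
      omega
  have hkd : kk ≠ kd d := by
    rw [hkk]
    split_ifs with h
    · exact Sum.inr_ne_inl
    · intro h2
      have := congrArg Fin.val (Sum.inl.inj h2)
      simp only [Fin.val_last] at this
      omega
  have h0d : kd d ≠ k0 d := by
    intro h2
    have := congrArg Fin.val (Sum.inl.inj h2)
    simp only [Fin.val_zero, Fin.val_last] at this
    omega
  have hadt : Adm kk (fun D => D.a (kd d)) := adm_a _ hkd.symm h0d
  have hneg : ∀ {q : ∀ D : Dat d, D.K}, Adm kk q → Adm kk (fun D => - q D) := by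
    intro q hq
    refine adm_congr (q := fun D => ((-1 : ℤ) : _) * q D) (fun D => ?_) (adm_mul (adm_int (-1)) hq)
    simp
  have hom : ∀ k, k ≤ d - 2 → Adm kk (om k) := by
    intro k
    induction k using Nat.strong_induction_on with
    | _ k ih =>
      intro hk
      by_cases hk1 : k = 0
      · subst hk1
        exact adm_congr (fun D => t_eq hd D) hadt
      · apply adm_div
        refine adm_congr (q := fun D => D.a (kd d) * cc D (2 * d - k) + -(ci (fun n => om n D) k +
          D.A * cv (fun n => omo n D) 4 k + D.B * cv (fun n => omo n D) 6 k)) (fun D => ?_)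
          (adm_add hkd.symm h0d (adm_mul hadt (adm_cc hd hkk _ (by omega) (by omega)))
            (hneg (adm_R hkd.symm h0d k (by omega) fun i hi => ih i hi (by omega))))
        rw [star hd D k (by omega) (by omega)]
        ring
  have hfin : Adm kk (fun D => D.a kk) := by
    apply adm_div
    refine adm_congr (q := fun D => ((2 : ℤ) : _) * (ci (fun n => om n D) (d - 1) +
          D.A * cv (fun n => omo n D) 4 (d - 1) + D.B * cv (fun n => omo n D) 6 (d - 1))) (fun D => ?_)
          (adm_mul (adm_int 2) (adm_R hkd.symm h0d (d - 1) (by omega) fun i hi => hom i (by omega)))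
    have h1 := star hd D (d - 1) (by omega) (by omega)
    have h2 : om (d - 1) D = 0 := by
      unfold om ch
      have h3 : d - (d - 1) = 1 := by omega
      rw [h3]
      have h4 : cf D.u D.v 1 = 0 := by
        unfold cf
        simp
      rw [h4, mul_zero]
    have h3 : cc D (2 * d - (d - 1)) = D.a kk := by
      have h5 : 2 * d - (d - 1) = d + 1 := by omega
      rw [h5, hkk]
      unfold cc cf
      by_cases h : d % 2 = 0
      · rw [if_neg (by omega), if_neg (by omega), dif_pos h]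
        have h6 : (d + 1 - 3) / 2 = (d - 2) / 2 := by omega
        rw [h6, pb_coeff]
      · rw [if_pos (by omega), dif_neg h, pa_coeff]
    rw [h2, h3, mul_zero, zero_add] at h1
    rw [← h1]
    push_cast
    ring
  obtain ⟨m, G, hG⟩ := hfin
  refine ⟨kk, m, G, hk0, hkd, ?_⟩
  intro K _ h2 A B a u v h1 h3 h4
  exact hG ⟨K, h2, A, B, a, u, v, h1, h3, h4⟩

end BLS
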