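import Pool.Agent.Lib.MP_10e784_agL.UB
import Pool.Agent.Lib.MP_10e784_agL.FB

/-!
# LEAF CA: the number of bad `φ` modulo `p`

PROOF.  `Bp` is `Bd` over the closure `K` (injective `algebraMap`, `2 ≠ 0` in `K`); `Bd_unique` for `ZMod p`: two bad vectors which agree off `k0` and are not zero off `k0` are equal.
`card_bad`: the bad vectors which are zero off `k0`: at most `p`; the others: the restriction to the `2 d - 1` indices `k ≠ k0` is injective: at most `p^(2 d - 1)`.  Total `≤ 2 p^(2 d - 1)`.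
`card_bad'`: `rel` gives `kk`.  Zero off `k0`: at most `p ≤ p^(2 d - 2)`.  Not zero off `k0` and `a (kd d) = 0`: the restriction to `k ≠ k0, kd` is injective: at most `p^(2 d - 2)`.  `a (kd d) ≠ 0`: the restriction to `k ≠ k0, kk` is injective: `pf A B` is squarefree over `K` (`sqf_pf`), so `Bd` with `m = 1`, `g = pf A B` gives `u`, `v`, and `rel` determines `a kk` by the coefficients other than `kk`, `k0`; then `Bd_unique`.
-/

set_option autoImplicit false

namespace BLS

open Polynomial Finset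

private theorem CA_two (p : ℕ) [Fact p.Prime] (hp : p ≠ 2) : (2 : AlgebraicClosure (ZMod p)) ≠ 0 := by
  intro h
  have h1 : algebraMap (ZMod p) (AlgebraicClosure (ZMod p)) 2 = 0 := by rw [map_ofNat, h]
  have h2 : (2 : ZMod p) = 0 :=
    (algebraMap (ZMod p) (AlgebraicClosure (ZMod p))).injective (by rw [h1, map_zero])
  have h3 : ((2 : ℕ) : ZMod p) = 0 := by exact_mod_cast h2
  rw [ZMod.natCast_eq_zero_iff] at h3
  exact hp ((Nat.prime_dvd_prime_iff_eq Fact.out Nat.prime_two).1 h3)

private theorem CA_card1 {d : ℕ} (hd : 2 ≤ d) (x : Ix d) : Fintype.card {k : Ix d // k ≠ x} = 2 * d - 1 := by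
  classical
  rw [Fintype.card_of_subtype (univ.erase x) (by simp), card_erase_of_mem (mem_univ _), Finset.card_univ,
    Fintype.card_sum, Fintype.card_fin, Fintype.card_fin]
  omega

private theorem CA_card2 {d : ℕ} (hd : 2 ≤ d) (x y : Ix d) (hxy : x ≠ y) :
    Fintype.card {k : Ix d // k ≠ x ∧ k ≠ y} = 2 * d - 2 := by
  classical
  rw [Fintype.card_of_subtype ((univ.erase x).erase y) (by
      intro k
      simp only [mem_erase, mem_univ, and_true]
      exact and_comm),
    card_erase_of_mem (mem_erase.2 ⟨hxy.symm, mem_univ _⟩), card_erase_of_mem (mem_univ _), Finset.card_univ,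
    Fintype.card_sum, Fintype.card_fin, Fintype.card_fin]
  omega

private theorem CA_kd {d : ℕ} (hd : 2 ≤ d) : kd d ≠ k0 d := by
  intro h
  have h1 : Fin.last d = 0 := Sum.inl.inj h
  have h2 := congrArg Fin.val h1
  rw [Fin.val_last, Fin.val_zero] at h2
  omega

theorem Bp_unique (p : ℕ) [Fact p.Prime] (hp : p ≠ 2) {d : ℕ} (A B : ZMod p) (a a' : Ix d → ZMod p)
    (h : Bp p A B a) (h' : Bp p A B a') (hk : ∀ k, k ≠ k0 d → a k = a' k) (hn : ∃ k, k ≠ k0 d ∧ a k ≠ 0) :
    a = a' := by
  have hinj := (algebraMap (ZMod p) (AlgebraicClosure (ZMod p))).injective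
  obtain ⟨k, hk0, hk1⟩ := hn
  have h1 := Bd_unique (CA_two p hp) _ _ _ _ h h'
    (fun k hk' => by rw [hk k hk']) ⟨k, hk0, fun h0 => hk1 (hinj (by rw [h0, map_zero]))⟩
  funext j
  exact hinj (congrFun h1 j)

theorem card_bad (d : ℕ) (hd : 2 ≤ d) (p : ℕ) [Fact p.Prime] (hp : 5 ≤ p) (A B : ZMod p) :
    Nat.card {a : Ix d → ZMod p // Bp p A B a} ≤ 2 * p ^ (2 * d - 1) := by
  classical
  have hp2 : p ≠ 2 := by omega
  let F : {a : Ix d → ZMod p // Bp p A B a} → ZMod p ⊕ ({k : Ix d // k ≠ k0 d} → ZMod p) := fun a =>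
    if ∀ k, k ≠ k0 d → a.1 k = 0 then Sum.inl (a.1 (k0 d)) else Sum.inr fun k => a.1 k.1
  have hF : Function.Injective F := by
    intro a a' h
    apply Subtype.ext
    by_cases h1 : ∀ k, k ≠ k0 d → a.1 k = 0
    · by_cases h2 : ∀ k, k ≠ k0 d → a'.1 k = 0
      · simp only [F, if_pos h1, if_pos h2] at h
        funext k
        by_cases hk : k = k0 d
        · rw [hk]
          exact Sum.inl.inj h
        · rw [h1 k hk, h2 k hk]
      · simp only [F, if_pos h1, if_neg h2] at h
        cases h
    · by_cases h2 : ∀ k, k ≠ k0 d → a'.1 k = 0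
      · simp only [F, if_neg h1, if_pos h2] at h
        cases h
      · simp only [F, if_neg h1, if_neg h2] at h
        have h3 := Sum.inr.inj h
        push Not at h1
        exact Bp_unique p hp2 A B a.1 a'.1 a.2 a'.2 (fun k hk => congrFun h3 ⟨k, hk⟩) h1
  have h1 := Nat.card_le_card_of_injective F hF
  rw [Nat.card_eq_fintype_card (α := ZMod p ⊕ ({k : Ix d // k ≠ k0 d} → ZMod p)), Fintype.card_sum,
    Fintype.card_fun, ZMod.card, CA_card1 hd] at h1
  have h2 : p ≤ p ^ (2 * d - 1) := Nat.le_self_pow (by omega) p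
  omega

theorem card_bad' (d : ℕ) (hd : 2 ≤ d) (p : ℕ) [Fact p.Prime] (hp : 5 ≤ p) (A B : ZMod p)
    (h : 4 * A ^ 3 + 27 * B ^ 2 ≠ 0) : Nat.card {a : Ix d → ZMod p // Bp p A B a} ≤ 3 * p ^ (2 * d - 2) := by
  classical
  have hp2 : p ≠ 2 := by omega
  obtain ⟨kk, m, G, hkk0, hkkd, hrel⟩ := rel d hd
  have hinj := (algebraMap (ZMod p) (AlgebraicClosure (ZMod p))).injective
  have hdisc : 4 * (algebraMap (ZMod p) (AlgebraicClosure (ZMod p)) A) ^ 3 +
      27 * (algebraMap (ZMod p) (AlgebraicClosure (ZMod p)) B) ^ 2 ≠ 0 := by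
    intro h0
    apply h
    apply hinj
    rw [map_zero, ← h0, map_add, map_mul, map_mul, map_pow, map_pow, map_ofNat, map_ofNat]
  have key : ∀ a : Ix d → ZMod p, Bp p A B a → a (kd d) ≠ 0 →
      (2 * algebraMap (ZMod p) (AlgebraicClosure (ZMod p)) (a (kd d))) ^ m *
        algebraMap (ZMod p) (AlgebraicClosure (ZMod p)) (a kk) =
      MvPolynomial.aeval (Sum.elim ![algebraMap (ZMod p) (AlgebraicClosure (ZMod p)) A,
        algebraMap (ZMod p) (AlgebraicClosure (ZMod p)) B]
        fun k => algebraMap (ZMod p) (AlgebraicClosure (ZMod p)) (a k.1)) G := by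
    intro a ha had
    obtain ⟨u, v, h1, h2⟩ := ha 1 _ (sqf_pf _ _ hdisc) (by rw [one_pow, one_mul])
    rw [mul_one] at h2
    exact hrel _ (CA_two p hp2) _ _ _ u v h1 h2 (fun h0 => had (hinj (by rw [h0, map_zero])))
  let F : {a : Ix d → ZMod p // Bp p A B a} → ZMod p ⊕ (({k : Ix d // k ≠ k0 d ∧ k ≠ kd d} → ZMod p) ⊕
      ({k : Ix d // k ≠ kk ∧ k ≠ k0 d} → ZMod p)) := fun a =>
    if ∀ k, k ≠ k0 d → a.1 k = 0 then Sum.inl (a.1 (k0 d)) else
      if a.1 (kd d) = 0 then Sum.inr (Sum.inl fun k => a.1 k.1) else Sum.inr (Sum.inr fun k => a.1 k.1)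
  have hF : Function.Injective F := by
    intro a a' h
    apply Subtype.ext
    by_cases h1 : ∀ k, k ≠ k0 d → a.1 k = 0
    · by_cases h2 : ∀ k, k ≠ k0 d → a'.1 k = 0
      · simp only [F, if_pos h1, if_pos h2] at h
        funext k
        by_cases hk : k = k0 d
        · rw [hk]
          exact Sum.inl.inj h
        · rw [h1 k hk, h2 k hk]
      · by_cases h3 : a'.1 (kd d) = 0
        · simp only [F, if_pos h1, if_neg h2, if_pos h3] at h
          cases h
        · simp only [F, if_pos h1, if_neg h2, if_neg h3] at h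
          cases h
    · by_cases h2 : ∀ k, k ≠ k0 d → a'.1 k = 0
      · by_cases h3 : a.1 (kd d) = 0
        · simp only [F, if_neg h1, if_pos h2, if_pos h3] at h
          cases h
        · simp only [F, if_neg h1, if_pos h2, if_neg h3] at h
          cases h
      · by_cases h3 : a.1 (kd d) = 0
        · by_cases h4 : a'.1 (kd d) = 0
          · simp only [F, if_neg h1, if_neg h2, if_pos h3, if_pos h4] at h
            have h5 := Sum.inl.inj (Sum.inr.inj h)
            push Not at h1
            refine Bp_unique p hp2 A B a.1 a'.1 a.2 a'.2 (fun k hk => ?_) h1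
            by_cases hk' : k = kd d
            · rw [hk', h3, h4]
            · exact congrFun h5 ⟨k, hk, hk'⟩
          · simp only [F, if_neg h1, if_neg h2, if_pos h3, if_neg h4] at h
            cases Sum.inr.inj h
        · by_cases h4 : a'.1 (kd d) = 0
          · simp only [F, if_neg h1, if_neg h2, if_neg h3, if_pos h4] at h
            cases Sum.inr.inj h
          · simp only [F, if_neg h1, if_neg h2, if_neg h3, if_neg h4] at h
            have h5 := Sum.inr.inj (Sum.inr.inj h)
            push Not at h1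
            refine Bp_unique p hp2 A B a.1 a'.1 a.2 a'.2 (fun k hk => ?_) h1
            by_cases hk' : k = kk
            · have h6 := key a.1 a.2 h3
              have h7 := key a'.1 a'.2 h4
              have h8 : a.1 (kd d) = a'.1 (kd d) := congrFun h5 ⟨kd d, hkkd.symm, CA_kd hd⟩
              have h9 : (fun k : {k : Ix d // k ≠ kk ∧ k ≠ k0 d} =>
                  algebraMap (ZMod p) (AlgebraicClosure (ZMod p)) (a.1 k.1)) =
                  fun k => algebraMap (ZMod p) (AlgebraicClosure (ZMod p)) (a'.1 k.1) := by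
                funext k
                exact congrArg _ (congrFun h5 k)
              rw [h9, ← h7, h8] at h6
              have h10 : (2 * algebraMap (ZMod p) (AlgebraicClosure (ZMod p)) (a'.1 (kd d))) ^ m ≠ 0 :=
                pow_ne_zero _ (mul_ne_zero (CA_two p hp2) fun h0 => h4 (hinj (by rw [h0, map_zero])))
              rw [hk']
              exact hinj (mul_left_cancel₀ h10 h6)
            · exact congrFun h5 ⟨k, hk', hk⟩
  have h1 := Nat.card_le_card_of_injective F hF
  rw [Nat.card_eq_fintype_card (α := ZMod p ⊕ (({k : Ix d // k ≠ k0 d ∧ k ≠ kd d} → ZMod p) ⊕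
      ({k : Ix d // k ≠ kk ∧ k ≠ k0 d} → ZMod p))), Fintype.card_sum, Fintype.card_sum,
    Fintype.card_fun, Fintype.card_fun, ZMod.card, CA_card2 hd _ _ (CA_kd hd).symm, CA_card2 hd _ _ hkk0] at h1
  have h2 : p ≤ p ^ (2 * d - 2) := Nat.le_self_pow (by omega) p
  omega

end BLS
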