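import Pool.Agent.Lib.MP_10e784_agL.MA
import Pool.Agent.Lib.MP_10e784_agL.CA

/-!
# LEAF MB: the bad vectors at the primes `p ≤ H / M`

PROOF.  `C1 = 6 * 3 ^ (2 d - 1)`.  `Fintype.card (Ix d) = 2 d`.  For a prime `p > P0` with `p M ≤ H` `card_box` with `S` the set of the bad vectors modulo `p`, `k1 = kd d`: if `p ∣ ds A B` at most `2 p^(2 d - 1) (3 H / p)^(2 d - 1) (2 H / (p M)) ≤ C1 H^(2 d) / (M p)` (`card_bad`), otherwise at most `3 p^(2 d - 2) (3 H / p)^(2 d - 1) 2 H / (p M) = C1 H^(2 d) / (M p²)` (`card_bad'`).  The set in question is contained in the union over the primes `P0 < p ≤ H` (`p ≤ p M ≤ H`): `Nat.card ≤ ∑` (all sets are finite: the box).  `∑_(p > P0) 1 / p² ≤ 1 / P0` (`sum_inv_sq`: `1 / n² ≤ 1 / (n - 1) - 1 / n`, telescoping).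
-/

set_option autoImplicit false

namespace BLS

open Finset

theorem sum_inv_sq (P0 H : ℕ) (hP : 1 ≤ P0) : ∑ n ∈ Icc (P0 + 1) H, (1 : ℝ) / (n : ℝ) ^ 2 ≤ 1 / P0 := by
  have hP0 : (0 : ℝ) < P0 := by exact_mod_cast hP
  rcases le_total P0 H with h | h
  · have key : ∀ n : ℕ, P0 ≤ n →
        ∑ m ∈ Icc (P0 + 1) n, (1 : ℝ) / (m : ℝ) ^ 2 ≤ 1 / P0 - 1 / n := by
      intro n hn
      induction n, hn using Nat.le_induction with
      | base => simp
      | succ n hn ih =>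
        rw [Finset.sum_Icc_succ_top (by omega)]
        have hn0 : (0 : ℝ) < n := lt_of_lt_of_le hP0 (by exact_mod_cast hn)
        have h1 : (1 : ℝ) / ((n + 1 : ℕ) : ℝ) ^ 2 ≤ 1 / n - 1 / ((n + 1 : ℕ) : ℝ) := by
          push_cast
          have h2 : (1 : ℝ) / n - 1 / (n + 1) = 1 / (n * (n + 1)) := by
            field_simp
            ring
          rw [h2]
          apply one_div_le_one_div_of_le (by positivity)
          nlinarith
        linarith
    refine (key H h).trans ?_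
    have : (0 : ℝ) ≤ 1 / H := by positivity
    linarith
  · rw [Finset.Icc_eq_empty (by omega), Finset.sum_empty]
    positivity

/-- the bad vectors at one prime -/
private theorem MB_one (d : ℕ) (hd : 2 ≤ d) (P0 M H : ℕ) (hP : 4 ≤ P0) (hM : 1 ≤ M)
    (A B : ℤ) (p : ℕ) [Fact p.Prime] (hp : P0 < p) (hpM : p.Coprime M) (h : p * M ≤ H) :
    (Nat.card {a : Ix d → ℤ // Tm M H a ∧
      Bp p (A : ZMod p) (B : ZMod p) (fun k => ((a k : ℤ) : ZMod p))} : ℝ) ≤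
      6 * 3 ^ (2 * d - 1) * (H : ℝ) ^ (2 * d) / M *
        (1 / (p : ℝ) ^ 2 + if (p : ℤ) ∣ ds A B then (1 : ℝ) / p else 0) := by
  have hp5 : 5 ≤ p := by omega
  have hcard : Fintype.card (Ix d) = 2 * d := by
    rw [Fintype.card_sum, Fintype.card_fin, Fintype.card_fin]
    omega
  have hp0 : (0 : ℝ) < p := by exact_mod_cast (by omega : 0 < p)
  have hM0 : (0 : ℝ) < M := by exact_mod_cast hM
  have hbox := card_box (kd d) p M H hM hpM h {s : Ix d → ZMod p | Bp p (A : ZMod p) (B : ZMod p) s}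
  rw [hcard] at hbox
  have h1 : (Nat.card {a : Ix d → ℤ // Tm M H a ∧
      Bp p (A : ZMod p) (B : ZMod p) (fun k => ((a k : ℤ) : ZMod p))} : ℝ) ≤
      Nat.card {s : Ix d → ZMod p | Bp p (A : ZMod p) (B : ZMod p) s} *
        ((3 * (H : ℝ) / p) ^ (2 * d - 1) * (2 * (H : ℝ) / (p * M))) := hbox
  refine h1.trans ?_
  have hpow : (H : ℝ) ^ (2 * d) = (H : ℝ) ^ (2 * d - 1) * H := by
    rw [← pow_succ]
    congr 1
    omega
  have hnn : (0 : ℝ) ≤ (3 * (H : ℝ) / p) ^ (2 * d - 1) * (2 * (H : ℝ) / (p * M)) := by positivity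
  by_cases hds : (p : ℤ) ∣ ds A B
  · rw [if_pos hds]
    have h2 : (Nat.card {s : Ix d → ZMod p | Bp p (A : ZMod p) (B : ZMod p) s} : ℝ) ≤
        2 * (p : ℝ) ^ (2 * d - 1) := by
      have := card_bad d hd p hp5 (A : ZMod p) (B : ZMod p)
      have h3 : Nat.card {s : Ix d → ZMod p | Bp p (A : ZMod p) (B : ZMod p) s} ≤
          2 * p ^ (2 * d - 1) := this
      exact_mod_cast h3
    have h4 : 2 * (p : ℝ) ^ (2 * d - 1) * ((3 * (H : ℝ) / p) ^ (2 * d - 1) * (2 * (H : ℝ) / (p * M))) =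
        4 * 3 ^ (2 * d - 1) * (H : ℝ) ^ (2 * d) / M * (1 / p) := by
      rw [hpow, div_pow, mul_pow]
      field_simp
      ring
    refine (mul_le_mul_of_nonneg_right h2 hnn).trans ?_
    rw [h4]
    have h5 : (0 : ℝ) ≤ 3 ^ (2 * d - 1) * (H : ℝ) ^ (2 * d) / M := by positivity
    have h6 : (0 : ℝ) ≤ 1 / (p : ℝ) ^ 2 := by positivity
    have h7 : (0 : ℝ) ≤ 1 / (p : ℝ) := by positivity
    have h8 : 4 * 3 ^ (2 * d - 1) * (H : ℝ) ^ (2 * d) / M =
        4 * (3 ^ (2 * d - 1) * (H : ℝ) ^ (2 * d) / M) := by ring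
    have h9 : 6 * 3 ^ (2 * d - 1) * (H : ℝ) ^ (2 * d) / M =
        6 * (3 ^ (2 * d - 1) * (H : ℝ) ^ (2 * d) / M) := by ring
    rw [h8, h9]
    nlinarith [mul_nonneg h5 h6, mul_nonneg h5 h7]
  · rw [if_neg hds, add_zero]
    have h2 : (Nat.card {s : Ix d → ZMod p | Bp p (A : ZMod p) (B : ZMod p) s} : ℝ) ≤
        3 * (p : ℝ) ^ (2 * d - 2) := by
      have hne : 4 * (A : ZMod p) ^ 3 + 27 * (B : ZMod p) ^ 2 ≠ 0 := by
        intro h0
        apply hds
        rw [← ZMod.intCast_zmod_eq_zero_iff_dvd]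
        unfold ds
        push_cast
        exact h0
      have := card_bad' d hd p hp5 (A : ZMod p) (B : ZMod p) hne
      have h3 : Nat.card {s : Ix d → ZMod p | Bp p (A : ZMod p) (B : ZMod p) s} ≤
          3 * p ^ (2 * d - 2) := this
      exact_mod_cast h3
    have hpp : (p : ℝ) ^ (2 * d - 1) = (p : ℝ) ^ (2 * d - 2) * p := by
      rw [← pow_succ]
      congr 1
      omega
    refine (mul_le_mul_of_nonneg_right h2 hnn).trans (le_of_eq ?_)
    rw [hpow, div_pow, mul_pow, hpp]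
    field_simp
    ring

theorem mid (d : ℕ) (hd : 2 ≤ d) : ∃ C1 : ℝ, 0 < C1 ∧ ∀ P0 M H : ℕ, 4 ≤ P0 → 1 ≤ M →
    (∀ p : ℕ, p.Prime → P0 < p → p.Coprime M) → ∀ A B : ℤ,
    (Nat.card {a : Ix d → ℤ // Tm M H a ∧ ∃ (p : ℕ) (_ : Fact p.Prime), P0 < p ∧ p * M ≤ H ∧
      Bp p (A : ZMod p) (B : ZMod p) (fun k => ((a k : ℤ) : ZMod p))} : ℝ) ≤
      C1 * (H : ℝ) ^ (2 * d) / M *
        (1 / P0 + ∑ p ∈ (Icc (P0 + 1) H).filter (fun p : ℕ => p.Prime ∧ (p : ℤ) ∣ ds A B), (1 : ℝ) / p) := by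
  classical
  refine ⟨6 * 3 ^ (2 * d - 1), by positivity, fun P0 M H hP hM hcop A B => ?_⟩
  set F : Finset (Ix d → ℤ) := Fintype.piFinset fun _ => Icc (-(H : ℤ)) H with hF
  have hFm : ∀ a : Ix d → ℤ, Tm M H a → a ∈ F := fun a ha => by
    rw [hF, Fintype.mem_piFinset]
    intro k
    rw [Finset.mem_Icc]
    exact abs_le.1 (ha.1 k)
  set T : ℕ → Finset (Ix d → ℤ) := fun p => F.filter fun a => Tm M H a ∧ p * M ≤ H ∧
    ∃ _ : Fact p.Prime, Bp p (A : ZMod p) (B : ZMod p) (fun k => ((a k : ℤ) : ZMod p)) with hT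
  set U : Finset (Ix d → ℤ) := F.filter fun a => Tm M H a ∧ ∃ (p : ℕ) (_ : Fact p.Prime), P0 < p ∧
    p * M ≤ H ∧ Bp p (A : ZMod p) (B : ZMod p) (fun k => ((a k : ℤ) : ZMod p)) with hU
  have hcU : Nat.card {a : Ix d → ℤ // Tm M H a ∧ ∃ (p : ℕ) (_ : Fact p.Prime), P0 < p ∧ p * M ≤ H ∧
      Bp p (A : ZMod p) (B : ZMod p) (fun k => ((a k : ℤ) : ZMod p))} = U.card := by
    refine Nat.subtype_card U fun a => ?_
    rw [hU, Finset.mem_filter]
    exact ⟨fun h => h.2, fun h => ⟨hFm a h.1, h⟩⟩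
  rw [hcU]
  have hsub : U ⊆ ((Icc (P0 + 1) H).filter Nat.Prime).biUnion T := by
    intro a ha
    rw [hU, Finset.mem_filter] at ha
    obtain ⟨haF, haT, p, hp, hp0, hpM, hB⟩ := ha
    rw [Finset.mem_biUnion]
    refine ⟨p, ?_, ?_⟩
    · rw [Finset.mem_filter, Finset.mem_Icc]
      exact ⟨⟨hp0, (Nat.le_mul_of_pos_right p hM).trans hpM⟩, hp.out⟩
    · rw [hT, Finset.mem_filter]
      exact ⟨haF, haT, hpM, hp, hB⟩
  have h1 : (U.card : ℝ) ≤ ∑ p ∈ (Icc (P0 + 1) H).filter Nat.Prime, ((T p).card : ℝ) := by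
    have := (Finset.card_le_card hsub).trans Finset.card_biUnion_le
    exact_mod_cast this
  refine h1.trans ?_
  have h2 : ∀ p ∈ (Icc (P0 + 1) H).filter Nat.Prime, ((T p).card : ℝ) ≤
      6 * 3 ^ (2 * d - 1) * (H : ℝ) ^ (2 * d) / M *
        (1 / (p : ℝ) ^ 2 + if (p : ℤ) ∣ ds A B then (1 : ℝ) / p else 0) := by
    intro p hp
    rw [Finset.mem_filter, Finset.mem_Icc] at hp
    have : Fact p.Prime := ⟨hp.2⟩
    by_cases hpM : p * M ≤ H
    · refine le_trans (le_of_eq ?_) (MB_one d hd P0 M H hP hM A B p hp.1.1 (hcop p hp.2 hp.1.1) hpM)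
      congr 1
      symm
      refine Nat.subtype_card (T p) fun a => ?_
      rw [hT, Finset.mem_filter]
      exact ⟨fun h => ⟨h.2.1, h.2.2.2.2⟩, fun h => ⟨hFm a h.1, h.1, hpM, ⟨hp.2⟩, h.2⟩⟩
    · have h3 : T p = ∅ := by
        rw [hT]
        refine Finset.filter_eq_empty_iff.2 fun a _ h => hpM h.2.1
      rw [h3, Finset.card_empty, Nat.cast_zero]
      split_ifs <;> positivity
  refine (Finset.sum_le_sum h2).trans ?_
  rw [← Finset.mul_sum, Finset.sum_add_distrib]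
  refine mul_le_mul_of_nonneg_left ?_ (by positivity)
  refine add_le_add ?_ (le_of_eq ?_)
  · refine le_trans ?_ (sum_inv_sq P0 H (by omega))
    exact Finset.sum_le_sum_of_subset_of_nonneg (Finset.filter_subset _ _) fun p _ _ => by positivity
  · rw [← Finset.sum_filter, Finset.filter_filter]

end BLS
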