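import Pool.Agent.Lib.MP_10e784_agL.Defs

/-!
# LEAF TL: a lower bound for the number of the vectors of `Tm`

PROOF.  The set of the `a` with `|a k| ≤ H`, `a (kd d) = 1 + M j`, `0 ≤ j`, `1 + M j ≤ H`: `(2 H + 1)^(2 d - 1)` times the number of the `j`, which is `⌊(H - 1) / M⌋ + 1 ≥ H / M`.  (`H = 0`: the right hand side is `0` because `d ≥ 1`.)  Use an injection of a product, or `Nat.card` of a `Finset` `Fintype.piFinset`.
`card_le`: an upper bound `(2 H + 1)^(2 d)` for the whole box, used for finiteness: `box_fin`.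
-/

set_option autoImplicit false

namespace BLS

open Finset

theorem box_fin {ι : Type} [Fintype ι] (H : ℕ) (Q : (ι → ℤ) → Prop) :
    Finite {a : ι → ℤ // (∀ k, |a k| ≤ (H : ℤ)) ∧ Q a} := by
  classical
  let f : {a : ι → ℤ // (∀ k, |a k| ≤ (H : ℤ)) ∧ Q a} → ι → (Icc (-(H : ℤ)) H : Finset ℤ) :=
    fun c t => ⟨c.1 t, mem_Icc.2 (abs_le.1 (c.2.1 t))⟩
  have hf : Function.Injective f := by
    intro a b hab
    refine Subtype.ext (funext fun t => ?_)
    exact congrArg Subtype.val (congrFun hab t)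
  exact Finite.of_injective f hf

theorem card_Tm (d M H : ℕ) (hd : 1 ≤ d) (hM : 1 ≤ M) :
    (H : ℝ) ^ (2 * d) / M ≤ (Nat.card {a : Ix d → ℤ // Tm M H a} : ℝ) := by
  classical
  rcases Nat.eq_zero_or_pos H with rfl | hH
  · have h0 : (((0 : ℕ) : ℝ)) ^ (2 * d) / M = 0 := by
      rw [Nat.cast_zero, zero_pow (by omega), zero_div]
    rw [h0]
    exact Nat.cast_nonneg _
  have hfin : Finite {a : Ix d → ℤ // Tm M H a} :=
    box_fin H (fun a : Ix d → ℤ => 0 < a (kd d) ∧ (M : ℤ) ∣ a (kd d) - 1)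
  let F : Ix d → Finset ℤ := fun k =>
    if k = kd d then (range ((H - 1) / M + 1)).image (fun j : ℕ => (1 : ℤ) + M * j)
    else Icc (-(H : ℤ)) H
  have hM' : (0 : ℤ) < M := by exact_mod_cast hM
  have hFk : ∀ j : ℕ, j < (H - 1) / M + 1 → (0 : ℤ) < 1 + M * j ∧ (1 : ℤ) + M * j ≤ H := by
    intro j hj
    have h1 : j ≤ (H - 1) / M := Nat.lt_succ_iff.1 hj
    have h2 : j * M ≤ H - 1 := (Nat.le_div_iff_mul_le hM).1 h1
    have h3 : j * M + 1 ≤ H := by omega
    have h4 : (j : ℤ) * M + 1 ≤ H := by exact_mod_cast h3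
    have h5 : (0 : ℤ) ≤ (j : ℤ) := Int.natCast_nonneg j
    constructor
    · nlinarith
    · linarith [mul_comm (M : ℤ) j]
  have hTm : ∀ a ∈ Fintype.piFinset F, Tm M H a := by
    intro a ha
    rw [Fintype.mem_piFinset] at ha
    have hk := ha (kd d)
    simp only [F, if_true, mem_image, mem_range] at hk
    obtain ⟨j, hj, hja⟩ := hk
    obtain ⟨p1, p2⟩ := hFk j hj
    refine ⟨fun k => ?_, ?_, ?_⟩
    · by_cases hkd : k = kd d
      · subst hkd
        rw [← hja, abs_of_pos p1]
        exact p2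
      · have h1 := ha k
        simp only [F, if_neg hkd, mem_Icc] at h1
        exact abs_le.2 h1
    · rw [← hja]
      exact p1
    · rw [← hja]
      exact ⟨j, by ring⟩
  have hcard1 : (Fintype.piFinset F).card ≤ Nat.card {a : Ix d → ℤ // Tm M H a} := by
    rw [← Fintype.card_coe (Fintype.piFinset F), ← Nat.card_eq_fintype_card]
    exact Nat.card_le_card_of_injective
      (fun a : (Fintype.piFinset F : Finset (Ix d → ℤ)) => (⟨a.1, hTm a.1 a.2⟩ : {a : Ix d → ℤ // Tm M H a}))
      (fun a b hab => Subtype.ext (congrArg (fun w : {a : Ix d → ℤ // Tm M H a} => w.1) hab))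
  have hcard2 : (Fintype.piFinset F).card = ((H - 1) / M + 1) * (2 * H + 1) ^ (2 * d - 1) := by
    rw [Fintype.card_piFinset, ← mul_prod_erase univ _ (mem_univ (kd d))]
    have h1 : (F (kd d)).card = (H - 1) / M + 1 := by
      simp only [F, if_true]
      rw [card_image_of_injective, card_range]
      intro i j hij
      have h2 : (M : ℤ) * i = M * j := by simpa using hij
      exact_mod_cast mul_left_cancel₀ hM'.ne' h2
    have h2 : ∏ k ∈ univ.erase (kd d), (F k).card = (2 * H + 1) ^ (2 * d - 1) := by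
      have h3 : ∀ k ∈ univ.erase (kd d), (F k).card = 2 * H + 1 := by
        intro k hk
        have hk' := (mem_erase.1 hk).1
        simp only [F, if_neg hk', Int.card_Icc]
        omega
      rw [prod_congr rfl h3, prod_const, card_erase_of_mem (mem_univ _), card_univ, Fintype.card_sum,
        Fintype.card_fin, Fintype.card_fin]
      congr 1
      omega
    rw [h1, h2]
  have hr1 : (H : ℝ) / M ≤ (((H - 1) / M + 1 : ℕ) : ℝ) := by
    rw [div_le_iff₀ (by exact_mod_cast hM)]
    have h1 : H ≤ ((H - 1) / M + 1) * M := by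
      have h2 := Nat.div_add_mod (H - 1) M
      have h3 := Nat.mod_lt (H - 1) hM
      have h4 : ((H - 1) / M + 1) * M = M * ((H - 1) / M) + M := by ring
      rw [h4]
      omega
    exact_mod_cast h1
  have hr2 : (H : ℝ) ^ (2 * d - 1) ≤ (((2 * H + 1) ^ (2 * d - 1) : ℕ) : ℝ) := by
    push_cast
    refine pow_le_pow_left₀ (Nat.cast_nonneg _) ?_ _
    have : (0 : ℝ) ≤ H := Nat.cast_nonneg _
    linarith
  calc (H : ℝ) ^ (2 * d) / M = (H : ℝ) / M * (H : ℝ) ^ (2 * d - 1) := by
        have h1 : (H : ℝ) ^ (2 * d) = H * (H : ℝ) ^ (2 * d - 1) := by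
          rw [← pow_succ']
          congr 1
          omega
        rw [h1]
        ring
    _ ≤ (((H - 1) / M + 1 : ℕ) : ℝ) * (((2 * H + 1) ^ (2 * d - 1) : ℕ) : ℝ) :=
        mul_le_mul hr1 hr2 (by positivity) (Nat.cast_nonneg _)
    _ = ((Fintype.piFinset F).card : ℝ) := by
        rw [hcard2]
        push_cast
        ring
    _ ≤ _ := by exact_mod_cast hcard1

end BLS
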