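import Pool.Agent.Lib.MP_10e784_agL.GB
import Pool.Agent.Lib.MP_10e784_agL.MA
import Pool.Agent.Lib.MP_10e784_agL.TL

/-!
# LEAF GD: three counting lemmas in the box

PROOF.  `n = Fintype.card ι`.  `fib1`: the restriction to the indices `≠ k` is injective on the set: at most `(2 H + 1)^(n - 1) ≤ (3 H)^(n - 1)`.
`fib2`: the restriction `a'` to the indices `≠ k` takes at most `(3 H)^(n - 1)` values; for each `a'` the integer `N a ≠ 0` is the same, it has at most `K` prime divisors `p ≥ L` (`few_big`), and for each `p` the values `a k` lie in one class modulo `p` (by `h2`): at most `2 H / p + 1 ≤ 2 M + 1 ≤ 3 M` values (`card_ap`; `p ≥ L`, `H ≤ L M`).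
`fib3`: `0 < a k1 ≤ H < L²`: at most one prime `p ≥ L` divides `a k1` (`few_big` with `k = 1`); so for each restriction `a'` of `a` to the indices `≠ k2` the values `a k2` are the multiples of one `p`: at most `3 M` values.
-/

set_option autoImplicit false

namespace BLS

open Finset

variable {ι : Type} [Fintype ι] [DecidableEq ι]

private theorem GD_card (H : ℕ) (Y : ℤ → Prop) [DecidablePred Y] :
    Nat.card {x : ℤ // |x| ≤ (H : ℤ) ∧ Y x} = ((Finset.Icc (-(H : ℤ)) H).filter Y).card := by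
  refine Nat.subtype_card _ fun x => ?_
  rw [Finset.mem_filter, Finset.mem_Icc, abs_le]

private theorem GD_un (H L M K : ℕ) (hH : 1 ≤ H) (hM : 1 ≤ M) (hL : H ≤ L * M) (S : Set ℕ)
    (hS : S.Finite) (hK : S.ncard ≤ K) (hSL : ∀ p ∈ S, L ≤ p) (R : ℕ → ℤ → Prop)
    (hR : ∀ p ∈ S, ∀ x x', R p x → R p x' → (p : ℤ) ∣ x - x') (Y : ℤ → Prop)
    (hY : ∀ x, |x| ≤ (H : ℤ) → Y x → ∃ p ∈ S, R p x) :
    (Nat.card {x : ℤ // |x| ≤ (H : ℤ) ∧ Y x} : ℝ) ≤ K * (3 * M) := by
  classical
  have hL0 : 0 < L := by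
    rcases Nat.eq_zero_or_pos L with h | h
    · rw [h, zero_mul] at hL
      omega
    · exact h
  have hMr : (1 : ℝ) ≤ M := by exact_mod_cast hM
  have h1 : ∀ p ∈ S, (((Finset.Icc (-(H : ℤ)) H).filter (R p)).card : ℝ) ≤ 3 * M := by
    intro p hp
    have hLp : L ≤ p := hSL p hp
    have hp0 : (0 : ℝ) < p := by
      have : 0 < p := by omega
      exact_mod_cast this
    rcases ((Finset.Icc (-(H : ℤ)) H).filter (R p)).eq_empty_or_nonempty with he | ⟨x₀, hx₀⟩
    · rw [he, Finset.card_empty, Nat.cast_zero]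
      positivity
    · have hsub : (Finset.Icc (-(H : ℤ)) H).filter (R p) ⊆
          (Finset.Icc (-(H : ℤ)) H).filter (fun x : ℤ => (x : ZMod p) = (x₀ : ZMod p)) := by
        intro x hx
        rw [Finset.mem_filter] at hx hx₀ ⊢
        exact ⟨hx.1, (ZMod.intCast_eq_intCast_iff_dvd_sub x x₀ p).2 (hR p hp _ _ hx₀.2 hx.2)⟩
      have h2 := card_ap p H (by omega) (x₀ : ZMod p)
      rw [GD_card] at h2
      have h3 : (H : ℝ) / p ≤ M := by
        rw [div_le_iff₀ hp0]
        have h4 : H ≤ M * p := by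
          calc H ≤ L * M := hL
            _ ≤ p * M := Nat.mul_le_mul_right M hLp
            _ = M * p := mul_comm _ _
        exact_mod_cast h4
      calc (((Finset.Icc (-(H : ℤ)) H).filter (R p)).card : ℝ)
          ≤ (((Finset.Icc (-(H : ℤ)) H).filter
            (fun x : ℤ => (x : ZMod p) = (x₀ : ZMod p))).card : ℝ) := by
            exact_mod_cast Finset.card_le_card hsub
        _ ≤ 2 * (H : ℝ) / p + 1 := h2
        _ = 2 * ((H : ℝ) / p) + 1 := by ring
        _ ≤ 3 * M := by linarith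
  have h5 : (Finset.Icc (-(H : ℤ)) H).filter Y ⊆
      hS.toFinset.biUnion (fun p => (Finset.Icc (-(H : ℤ)) H).filter (R p)) := by
    intro x hx
    rw [Finset.mem_filter] at hx
    obtain ⟨p, hp, hpx⟩ := hY x (abs_le.2 (Finset.mem_Icc.1 hx.1)) hx.2
    rw [Finset.mem_biUnion]
    exact ⟨p, hS.mem_toFinset.2 hp, Finset.mem_filter.2 ⟨hx.1, hpx⟩⟩
  have h6 : hS.toFinset.card ≤ K := by
    rw [← Set.ncard_eq_toFinset_card S hS]
    exact hK
  rw [GD_card]
  calc (((Finset.Icc (-(H : ℤ)) H).filter Y).card : ℝ)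
      ≤ ((hS.toFinset.biUnion (fun p => (Finset.Icc (-(H : ℤ)) H).filter (R p))).card : ℝ) := by
        exact_mod_cast Finset.card_le_card h5
    _ ≤ ((∑ p ∈ hS.toFinset, ((Finset.Icc (-(H : ℤ)) H).filter (R p)).card : ℕ) : ℝ) := by
        exact_mod_cast Finset.card_biUnion_le
    _ = ∑ p ∈ hS.toFinset, (((Finset.Icc (-(H : ℤ)) H).filter (R p)).card : ℝ) := by
        rw [Nat.cast_sum]
    _ ≤ ∑ _p ∈ hS.toFinset, (3 * (M : ℝ)) :=
        Finset.sum_le_sum fun p hp => h1 p (hS.mem_toFinset.1 hp)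
    _ = (hS.toFinset.card : ℝ) * (3 * M) := by rw [Finset.sum_const, nsmul_eq_mul]
    _ ≤ K * (3 * M) := by
        refine mul_le_mul_of_nonneg_right ?_ (by positivity)
        exact_mod_cast h6

private theorem GD_box (k : ι) (H : ℕ) : (Fintype.piFinset fun j : ι =>
    if j = k then ({0} : Finset ℤ) else Finset.Icc (-(H : ℤ)) H).card =
      (2 * H + 1) ^ (Fintype.card ι - 1) := by
  classical
  rw [Fintype.card_piFinset]
  have h1 : ∀ j : ι, (if j = k then ({0} : Finset ℤ) else Finset.Icc (-(H : ℤ)) H).card =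
      if j = k then 1 else 2 * H + 1 := by
    intro j
    split_ifs
    · exact Finset.card_singleton 0
    · rw [Int.card_Icc]
      omega
  rw [Finset.prod_congr rfl fun j _ => h1 j, Finset.prod_ite, Finset.prod_const_one, one_mul,
    Finset.prod_const, Finset.filter_ne', Finset.card_erase_of_mem (Finset.mem_univ k),
    Finset.card_univ]

private theorem GD_fib (k : ι) (H : ℕ) (hH : 1 ≤ H) (P : (ι → ℤ) → Prop)
    (hP : ∀ a, P a → ∀ j, |a j| ≤ (H : ℤ)) (c : ℝ) (hc0 : 0 ≤ c)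
    (hc : ∀ a, P a → (Nat.card {x : ℤ // |x| ≤ (H : ℤ) ∧ P (Function.update a k x)} : ℝ) ≤ c) :
    (Nat.card {a : ι → ℤ // P a} : ℝ) ≤ (3 * (H : ℝ)) ^ (Fintype.card ι - 1) * c := by
  classical
  have h0 : Nat.card {a : ι → ℤ // P a} =
      ((Fintype.piFinset fun _ : ι => Finset.Icc (-(H : ℤ)) H).filter P).card := by
    refine Nat.subtype_card _ fun a => ?_
    rw [Finset.mem_filter, Fintype.mem_piFinset]
    refine ⟨fun h => h.2, fun h => ⟨fun j => ?_, h⟩⟩
    exact Finset.mem_Icc.2 (abs_le.1 (hP a h j))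
  have hmap : ∀ a ∈ (Fintype.piFinset fun _ : ι => Finset.Icc (-(H : ℤ)) H).filter P,
      Function.update a k 0 ∈ Fintype.piFinset fun j : ι =>
        if j = k then ({0} : Finset ℤ) else Finset.Icc (-(H : ℤ)) H := by
    intro a ha
    rw [Fintype.mem_piFinset]
    intro j
    by_cases hj : j = k
    · rw [if_pos hj, hj, Function.update_self]
      exact Finset.mem_singleton_self 0
    · rw [if_neg hj, Function.update_of_ne hj]
      exact Fintype.mem_piFinset.1 (Finset.mem_filter.1 ha).1 j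
  rw [h0, Finset.card_eq_sum_card_fiberwise hmap, Nat.cast_sum]
  have h1 : ∀ b ∈ Fintype.piFinset fun j : ι =>
      if j = k then ({0} : Finset ℤ) else Finset.Icc (-(H : ℤ)) H,
      ((((Fintype.piFinset fun _ : ι => Finset.Icc (-(H : ℤ)) H).filter P).filter
        (fun a => Function.update a k 0 = b)).card : ℝ) ≤ c := by
    intro b _
    rcases (((Fintype.piFinset fun _ : ι => Finset.Icc (-(H : ℤ)) H).filter P).filter
        (fun a => Function.update a k 0 = b)).eq_empty_or_nonempty with he | ⟨a₀, ha₀⟩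
    · rw [he, Finset.card_empty, Nat.cast_zero]
      exact hc0
    · rw [Finset.mem_filter, Finset.mem_filter] at ha₀
      refine le_trans ?_ (hc a₀ ha₀.1.2)
      rw [GD_card]
      have h2 : (((Fintype.piFinset fun _ : ι => Finset.Icc (-(H : ℤ)) H).filter P).filter
          (fun a => Function.update a k 0 = b)).card ≤
          ((Finset.Icc (-(H : ℤ)) H).filter fun x => P (Function.update a₀ k x)).card := by
        have hu : ∀ a ∈ ((Fintype.piFinset fun _ : ι => Finset.Icc (-(H : ℤ)) H).filter P).filter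
            (fun a => Function.update a k 0 = b), a = Function.update a₀ k (a k) := by
          intro a ha
          rw [Finset.mem_filter] at ha
          funext j
          by_cases hj : j = k
          · rw [hj, Function.update_self]
          · rw [Function.update_of_ne hj]
            have h3 := congrFun (ha.2.trans ha₀.2.symm) j
            rw [Function.update_of_ne hj, Function.update_of_ne hj] at h3
            exact h3
        refine Finset.card_le_card_of_injOn (fun a => a k) ?_ ?_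
        · intro a ha
          have ha' := Finset.mem_filter.1 (Finset.mem_coe.1 ha)
          have ha'' := Finset.mem_filter.1 ha'.1
          refine Finset.mem_coe.2 (Finset.mem_filter.2 ⟨Fintype.mem_piFinset.1 ha''.1 k, ?_⟩)
          rw [← hu a (Finset.mem_coe.1 ha)]
          exact ha''.2
        · intro a ha a' ha' h
          rw [hu a (Finset.mem_coe.1 ha), hu a' (Finset.mem_coe.1 ha')]
          have h' : a k = a' k := h
          rw [h']
      exact_mod_cast h2
  have hHr : (1 : ℝ) ≤ H := by exact_mod_cast hH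
  calc ∑ b ∈ Fintype.piFinset fun j : ι =>
      if j = k then ({0} : Finset ℤ) else Finset.Icc (-(H : ℤ)) H,
      ((((Fintype.piFinset fun _ : ι => Finset.Icc (-(H : ℤ)) H).filter P).filter
        (fun a => Function.update a k 0 = b)).card : ℝ)
      ≤ ∑ _b ∈ Fintype.piFinset fun j : ι =>
        if j = k then ({0} : Finset ℤ) else Finset.Icc (-(H : ℤ)) H, c := Finset.sum_le_sum h1
    _ = ((2 * (H : ℝ) + 1) ^ (Fintype.card ι - 1)) * c := by
        rw [Finset.sum_const, nsmul_eq_mul, GD_box]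
        push_cast
        rfl
    _ ≤ (3 * (H : ℝ)) ^ (Fintype.card ι - 1) * c := by
        refine mul_le_mul_of_nonneg_right ?_ hc0
        exact pow_le_pow_left₀ (by positivity) (by linarith) _

theorem fib1 (k : ι) (H : ℕ) (hH : 1 ≤ H) (Q : (ι → ℤ) → Prop)
    (h : ∀ a a', Q a → Q a' → (∀ j, j ≠ k → a j = a' j) → a = a') :
    (Nat.card {a : ι → ℤ // (∀ j, |a j| ≤ (H : ℤ)) ∧ Q a} : ℝ) ≤ (3 * (H : ℝ)) ^ (Fintype.card ι - 1) := by
  rw [← mul_one ((3 * (H : ℝ)) ^ (Fintype.card ι - 1))]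
  refine GD_fib k H hH (fun a => (∀ j, |a j| ≤ (H : ℤ)) ∧ Q a) (fun a ha => ha.1) 1 zero_le_one ?_
  intro a _
  have hs : Subsingleton {x : ℤ // |x| ≤ (H : ℤ) ∧ ((∀ j, |Function.update a k x j| ≤ (H : ℤ)) ∧
      Q (Function.update a k x))} := by
    refine ⟨fun x y => Subtype.ext ?_⟩
    have h1 := h _ _ x.2.2.2 y.2.2.2 (fun j hj => by
      rw [Function.update_of_ne hj, Function.update_of_ne hj])
    have h2 := congrFun h1 k
    rw [Function.update_self, Function.update_self] at h2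
    exact h2
  have h3 : Nat.card {x : ℤ // |x| ≤ (H : ℤ) ∧ ((∀ j, |Function.update a k x j| ≤ (H : ℤ)) ∧
      Q (Function.update a k x))} ≤ 1 := Finite.card_le_one_iff_subsingleton.2 hs
  exact_mod_cast h3

theorem fib2 (k : ι) (H L M K : ℕ) (hH : 1 ≤ H) (hM : 1 ≤ M) (hL : H ≤ L * M) (N : (ι → ℤ) → ℤ)
    (hN : ∀ a a', (∀ j, j ≠ k → a j = a' j) → N a = N a') (Q : ℕ → (ι → ℤ) → Prop)
    (hK : ∀ a, (∀ j, |a j| ≤ (H : ℤ)) → |N a| < (L : ℤ) ^ (K + 1))
    (h1 : ∀ p a, Q p a → p.Prime ∧ L ≤ p ∧ (p : ℤ) ∣ N a)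
    (h2 : ∀ p a a', Q p a → Q p a' → (∀ j, j ≠ k → a j = a' j) → (p : ℤ) ∣ a k - a' k) :
    (Nat.card {a : ι → ℤ // (∀ j, |a j| ≤ (H : ℤ)) ∧ N a ≠ 0 ∧ ∃ p, Q p a} : ℝ) ≤
      (3 * (H : ℝ)) ^ (Fintype.card ι - 1) * (K * (3 * M)) := by
  refine GD_fib k H hH (fun a => (∀ j, |a j| ≤ (H : ℤ)) ∧ N a ≠ 0 ∧ ∃ p, Q p a)
    (fun a ha => ha.1) _ (by positivity) ?_
  rintro a ⟨ha, hNa, -⟩
  obtain ⟨hS, hSK⟩ := few_big (N a) hNa L K (hK a ha)
  refine GD_un H L M K hH hM hL _ hS hSK (fun p hp => hp.2.1)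
    (fun p x => Q p (Function.update a k x)) ?_ _ ?_
  · intro p _ x x' h h'
    have h3 := h2 p _ _ h h' (fun j hj => by
      rw [Function.update_of_ne hj, Function.update_of_ne hj])
    rw [Function.update_self, Function.update_self] at h3
    exact h3
  · rintro x _ ⟨-, -, p, hp⟩
    refine ⟨p, ?_, hp⟩
    have h3 := h1 p _ hp
    rw [hN (Function.update a k x) a (fun j hj => Function.update_of_ne hj _ _)] at h3
    exact h3

theorem fib3 (k1 k2 : ι) (hk : k1 ≠ k2) (H L M : ℕ) (hH : 1 ≤ H) (hM : 1 ≤ M) (hL : H ≤ L * M) (hL2 : H < L ^ 2) :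
    (Nat.card {a : ι → ℤ // (∀ j, |a j| ≤ (H : ℤ)) ∧ 0 < a k1 ∧
      ∃ p : ℕ, p.Prime ∧ L ≤ p ∧ (p : ℤ) ∣ a k1 ∧ (p : ℤ) ∣ a k2} : ℝ) ≤
      (3 * (H : ℝ)) ^ (Fintype.card ι - 1) * (3 * M) := by
  have h0 : (3 * (H : ℝ)) ^ (Fintype.card ι - 1) * (3 * M) =
      (3 * (H : ℝ)) ^ (Fintype.card ι - 1) * ((1 : ℕ) * (3 * M)) := by
    rw [Nat.cast_one, one_mul]
  rw [h0]
  refine GD_fib k2 H hH (fun a => (∀ j, |a j| ≤ (H : ℤ)) ∧ 0 < a k1 ∧
      ∃ p : ℕ, p.Prime ∧ L ≤ p ∧ (p : ℤ) ∣ a k1 ∧ (p : ℤ) ∣ a k2)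
    (fun a ha => ha.1) _ (by positivity) ?_
  rintro a ⟨ha, ha1, -⟩
  have hlt : |a k1| < (L : ℤ) ^ (1 + 1) := by
    refine lt_of_le_of_lt (ha k1) ?_
    exact_mod_cast hL2
  obtain ⟨hS, hSK⟩ := few_big (a k1) ha1.ne' L 1 hlt
  refine GD_un H L M 1 hH hM hL _ hS hSK (fun p hp => hp.2.1)
    (fun p x => (p : ℤ) ∣ x) (fun p _ x x' h h' => dvd_sub h h') _ ?_
  rintro x _ ⟨-, -, p, hp, hLp, hp1, hp2⟩
  rw [Function.update_of_ne hk] at hp1
  rw [Function.update_self] at hp2
  exact ⟨p, ⟨hp, hLp, hp1⟩, hp2⟩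

end BLS
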