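import Pool.Agent.Lib.MP_10e784_agL.IC

/-!
# LEAF ID: a good point, `b ≠ 0`

PROOF.  `n = 2 d + 6`.  `F = (X² - C a)² - C (b² f)` has `TD n F` (`TD_C`, `TD.mul`, `TD_X_pow`, `natDegree (pa a) ≤ d`, `natDegree (pb a) ≤ d`, `natDegree (pf A B) ≤ 3`): `zeros_ge`, `3 p ≤ 4 #Z`, `Z` the set of the zeros `(x, w)`.  Over each `x` there are at most `4` values `w` (`F(x, w)` is a monic quartic in `w`).  Remove the zeros with `b(x) = 0` (at most `4 d`), `f(x) = 0` (at most `12`), `w = 0` (then `a(x)² - b(x)² f(x) = 0`; the polynomial `a² - b² f` is not `0` because the degree of `b² f` is odd, and has degree `≤ 2 d + 3`; at most `2 d + 3`).  Since `p ≥ 1000 (2 d + 6)^6` one zero remains: `y = (w² - a(x)) / b(x)`, `y² = f(x) ≠ 0`, `w² = a(x) + b(x) y`.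
-/

set_option autoImplicit false

open Classical

namespace BLS

open Polynomial Finset

private theorem ID_pa {K : Type} [Field K] {d : ℕ} (a : Ix d → K) : (pa a).natDegree ≤ d := by
  unfold pa
  refine natDegree_sum_le_of_forall_le _ _ fun i _ => ?_
  exact (natDegree_monomial_le _).trans (Nat.lt_succ_iff.1 i.2)

private theorem ID_pb {K : Type} [Field K] {d : ℕ} (a : Ix d → K) : (pb a).natDegree ≤ d := by
  unfold pb
  refine natDegree_sum_le_of_forall_le _ _ fun i _ => ?_
  exact (natDegree_monomial_le _).trans (by have := i.2; omega)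

private theorem ID_pf {K : Type} [Field K] (A B : K) : (pf A B).natDegree = 3 := by
  unfold pf
  compute_degree!

/-- At most `4` values `w` with `(w² - u)² = v`. -/
private theorem ID_four {K : Type} [Field K] (u v : K) :
    ∃ S : Finset K, S.card ≤ 4 ∧ ∀ w : K, (w ^ 2 - u) ^ 2 - v = 0 → w ∈ S := by
  obtain ⟨q, hq⟩ : ∃ q : K[X], q = X ^ 4 - C (2 * u) * X ^ 2 + C (u ^ 2 - v) := ⟨_, rfl⟩
  have h1 : q.natDegree = 4 := by
    rw [hq]
    compute_degree!
  have h0 : q ≠ 0 := by
    rintro h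
    rw [h, natDegree_zero] at h1
    omega
  refine ⟨q.roots.toFinset, (Multiset.toFinset_card_le _).trans ((card_roots' q).trans h1.le),
    fun w hw => ?_⟩
  rw [Multiset.mem_toFinset, mem_roots h0, IsRoot.def, hq]
  simp only [eval_add, eval_sub, eval_mul, eval_pow, eval_X, eval_C]
  linear_combination hw

theorem gp_ne (d p : ℕ) [Fact p.Prime] (hp : 1000 * (2 * d + 6) ^ 6 ≤ p) (A B : ZMod p) (a : Ix d → ZMod p)
    (hb : pb a ≠ 0)
    (hi : Irreducible (HNQ.fK p ((X ^ 2 - C (pa a)) ^ 2 - C (pb a ^ 2 * pf A B)))) : Gp A B a := by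
  have ha := ID_pa a
  have hb1 := ID_pb a
  have hf := ID_pf A B
  have hf0 : pf A B ≠ 0 := by
    intro h
    rw [h, natDegree_zero] at hf
    omega
  obtain ⟨F, hF⟩ : ∃ F : (ZMod p)[X][X], F = (X ^ 2 - C (pa a)) ^ 2 - C (pb a ^ 2 * pf A B) :=
    ⟨_, rfl⟩
  rw [← hF] at hi
  have hT : HNQ.TD (2 * d + 6) F := by
    have h1 : HNQ.TD (d + 3) (X ^ 2 - C (pa a) : (ZMod p)[X][X]) :=
      ((HNQ.TD_X_pow 2).mono (by omega)).sub (HNQ.TD_C _ (by omega))
    have h2 : HNQ.TD (2 * d + 6) ((X ^ 2 - C (pa a)) ^ 2 : (ZMod p)[X][X]) :=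
      (h1.pow 2).mono (by omega)
    have h3 : HNQ.TD (2 * d + 6) (C (pb a ^ 2 * pf A B) : (ZMod p)[X][X]) := by
      refine HNQ.TD_C _ ?_
      refine natDegree_mul_le.trans ?_
      have := natDegree_pow_le (p := pb a) (n := 2)
      omega
    rw [hF]
    exact h2.sub h3
  have hev : ∀ x w : ZMod p, F.evalEval x w =
      (w ^ 2 - (pa a).eval x) ^ 2 - (pb a).eval x ^ 2 * (pf A B).eval x := by
    intro x w
    rw [hF]
    simp only [evalEval_sub, evalEval_pow, evalEval_X, evalEval_C, eval_mul, eval_pow]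
  have hz := zeros_ge p hp (by omega) hT hi
  -- one zero remains
  have hex : ∃ x w : ZMod p, F.evalEval x w = 0 ∧ (pb a).eval x ≠ 0 ∧ (pf A B).eval x ≠ 0 ∧
      w ≠ 0 := by
    by_contra hcon
    push Not at hcon
    choose S hS hS' using fun x : ZMod p => ID_four ((pa a).eval x) ((pb a).eval x ^ 2 *
      (pf A B).eval x)
    have hbf : pb a * pf A B ≠ 0 := mul_ne_zero hb hf0
    have hq0 : pa a ^ 2 - pb a ^ 2 * pf A B ≠ 0 := by
      intro h
      have h1 := congrArg natDegree (sub_eq_zero.1 h)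
      rw [natDegree_pow, natDegree_mul (pow_ne_zero 2 hb) hf0, natDegree_pow, hf] at h1
      omega
    have hsub : (univ.filter fun z : ZMod p × ZMod p => F.evalEval z.1 z.2 = 0) ⊆
        ((pb a * pf A B).roots.toFinset.biUnion fun x => (S x).image fun w => (x, w)) ∪
          (pa a ^ 2 - pb a ^ 2 * pf A B).roots.toFinset.image fun x => (x, (0 : ZMod p)) := by
      rintro ⟨x, w⟩ hxw
      have h1 : F.evalEval x w = 0 := (mem_filter.1 hxw).2
      by_cases h2 : (pb a).eval x ≠ 0 ∧ (pf A B).eval x ≠ 0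
      · have hw : w = 0 := hcon x w h1 h2.1 h2.2
        subst hw
        refine mem_union_right _ (mem_image.2 ⟨x, ?_, rfl⟩)
        rw [Multiset.mem_toFinset, mem_roots hq0, IsRoot.def]
        rw [hev] at h1
        simp only [eval_sub, eval_mul, eval_pow]
        linear_combination h1
      · refine mem_union_left _ (mem_biUnion.2 ⟨x, ?_, mem_image.2 ⟨w, hS' x w ?_, rfl⟩⟩)
        · rw [Multiset.mem_toFinset, mem_roots hbf, IsRoot.def, eval_mul]
          by_contra h3
          exact h2 ⟨left_ne_zero_of_mul h3, right_ne_zero_of_mul h3⟩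
        · rw [← hev]
          exact h1
    have hc1 : (pb a * pf A B).roots.toFinset.card ≤ d + 3 := by
      refine (Multiset.toFinset_card_le _).trans ((card_roots' _).trans ?_)
      refine natDegree_mul_le.trans ?_
      omega
    have hc2 : (pa a ^ 2 - pb a ^ 2 * pf A B).roots.toFinset.card ≤ 2 * d + 3 := by
      refine (Multiset.toFinset_card_le _).trans ((card_roots' _).trans ?_)
      refine (natDegree_sub_le _ _).trans (max_le ?_ ?_)
      · have := natDegree_pow_le (p := pa a) (n := 2)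
        omega
      · refine natDegree_mul_le.trans ?_
        have := natDegree_pow_le (p := pb a) (n := 2)
        omega
    have hc3 : ((pb a * pf A B).roots.toFinset.biUnion fun x => (S x).image fun w =>
        (x, w)).card ≤ (d + 3) * 4 := by
      refine card_biUnion_le.trans ?_
      refine (sum_le_sum fun x _ => card_image_le.trans (hS x)).trans ?_
      rw [sum_const, smul_eq_mul]
      exact Nat.mul_le_mul_right _ hc1
    have hc4 : ((pa a ^ 2 - pb a ^ 2 * pf A B).roots.toFinset.image fun x =>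
        (x, (0 : ZMod p))).card ≤ 2 * d + 3 := card_image_le.trans hc2
    have hc5 := (card_le_card hsub).trans (card_union_le _ _)
    have h6 : 2 * d + 6 ≤ (2 * d + 6) ^ 6 := Nat.le_self_pow (by norm_num) _
    omega
  obtain ⟨x, w, h1, h2, h3, h4⟩ := hex
  rw [hev] at h1
  have h5 : (pf A B).eval x = x ^ 3 + A * x + B := by
    unfold pf
    simp only [eval_add, eval_mul, eval_pow, eval_X, eval_C]
  have h6 : ((w ^ 2 - (pa a).eval x) / (pb a).eval x) ^ 2 = (pf A B).eval x := by
    rw [div_pow, div_eq_iff (pow_ne_zero 2 h2)]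
    linear_combination h1
  refine ⟨x, (w ^ 2 - (pa a).eval x) / (pb a).eval x, w, ?_, h4, ?_, ?_⟩
  · intro h7
    rw [h7, zero_pow two_ne_zero] at h6
    exact h3 h6.symm
  · rw [h6, h5]
  · rw [mul_div_cancel₀ _ h2]
    ring

end BLS
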