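import Pool.Agent.Lib.MP_10e784_agL.IC

/-!
# LEAF IE: a good point, `b = 0`
-/

set_option autoImplicit false

open Classical

namespace BLS

open Polynomial Finset

private theorem IE_dega {K : Type} [Field K] {d : ℕ} (a : Ix d → K) : (pa a).natDegree ≤ d := by
  unfold pa
  refine natDegree_sum_le_of_forall_le _ _ fun i _ => ?_
  exact (natDegree_monomial_le _).trans (Nat.lt_succ_iff.mp i.2)

private theorem IE_degf {K : Type} [Field K] (A B : K) : (pf A B).natDegree ≤ 3 := by
  unfold pf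
  compute_degree

private theorem IE_f_ne {K : Type} [Field K] (A B : K) : pf A B ≠ 0 := by
  intro h
  have h1 : (pf A B).coeff 3 = 1 := by
    unfold pf
    simp
  rw [h, coeff_zero] at h1
  exact zero_ne_one h1

private theorem IE_td {K : Type} [Field K] {d : ℕ} (A B : K) (a : Ix d → K) :
    HNQ.TD (2 * d + 6) ((X ^ 2 - C (pa a + pf A B)) ^ 2 - C (4 * pa a * pf A B) : K[X][X]) := by
  have ha := IE_dega a
  have hf := IE_degf A B
  have h1 : HNQ.TD (d + 3) (X ^ 2 - C (pa a + pf A B) : K[X][X]) := by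
    refine ((HNQ.TD_X_pow 2).mono (by omega)).sub (HNQ.TD_C _ ?_)
    refine (natDegree_add_le _ _).trans ?_
    omega
  have h2 := h1.pow 2
  refine (h2.mono (by omega)).sub (HNQ.TD_C _ ?_)
  have h3 : (4 * pa a * pf A B : K[X]) = C (4 : K) * (pa a * pf A B) := by
    rw [map_ofNat]
    ring
  rw [h3]
  refine (natDegree_C_mul_le _ _).trans ?_
  refine natDegree_mul_le.trans ?_
  omega

private theorem IE_eval {K : Type} [Field K] {d : ℕ} (A B : K) (a : Ix d → K) (x z : K) :
    ((X ^ 2 - C (pa a + pf A B)) ^ 2 - C (4 * pa a * pf A B) : K[X][X]).evalEval x z =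
      (z ^ 2 - ((pa a).eval x + (pf A B).eval x)) ^ 2 - 4 * (pa a).eval x * (pf A B).eval x := by
  unfold evalEval
  simp only [eval_sub, eval_pow, eval_X, eval_C, eval_add, eval_mul, eval_ofNat]

private theorem IE_fibre {K : Type} [Field K] [Fintype K] (u v : K) (S : Finset K)
    (hS : ∀ z ∈ S, (z ^ 2 - u) ^ 2 - v = 0) : S.card ≤ 4 := by
  have hm : ((X ^ 2 - C u) ^ 2 - C v : K[X]).natDegree = 4 := by
    compute_degree!
  have h0 : ((X ^ 2 - C u) ^ 2 - C v : K[X]) ≠ 0 := by
    intro h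
    rw [h, natDegree_zero] at hm
    omega
  calc S.card ≤ ((X ^ 2 - C u) ^ 2 - C v : K[X]).roots.toFinset.card := by
        refine card_le_card fun z hz => ?_
        rw [Multiset.mem_toFinset, mem_roots h0, IsRoot.def]
        simpa using hS z hz
    _ ≤ Multiset.card ((X ^ 2 - C u) ^ 2 - C v : K[X]).roots := Multiset.toFinset_card_le _
    _ ≤ 4 := by
        rw [← hm]
        exact card_roots' _

theorem gp_zero (d p : ℕ) [Fact p.Prime] (hp : 1000 * (2 * d + 6) ^ 6 ≤ p) (A B : ZMod p) (a : Ix d → ZMod p)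
    (hb : pb a = 0)
    (hi : Irreducible (HNQ.fK p ((X ^ 2 - C (pa a + pf A B)) ^ 2 - C (4 * pa a * pf A B)))) : Gp A B a := by
  have hpow : 2 * d + 6 ≤ (2 * d + 6) ^ 6 := Nat.le_self_pow (by norm_num) _
  have hz := zeros_ge p (n := 2 * d + 6) hp (by omega) (IE_td A B a) hi
  have h2 : (2 : ZMod p) ≠ 0 := by
    intro h
    have h' : ((2 : ℕ) : ZMod p) = 0 := by exact_mod_cast h
    rw [ZMod.natCast_eq_zero_iff] at h'
    have := Nat.le_of_dvd (by norm_num) h'
    omega
  -- the mapped expression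
  have ha0 : pa a ≠ 0 := by
    intro h
    apply hi.not_isSquare
    refine ⟨HNQ.fK p (X ^ 2 - C (pf A B)), ?_⟩
    rw [h]
    simp only [HNQ.fK, zero_add, mul_zero, zero_mul, map_zero, sub_zero, sq, Polynomial.map_mul]
  have haf : pa a - pf A B ≠ 0 := by
    intro h
    have h1 : pa a = pf A B := sub_eq_zero.mp h
    have h3 : ((X ^ 2 - C (pa a + pf A B)) ^ 2 - C (4 * pa a * pf A B) : (ZMod p)[X][X]) =
        X * (X * (X ^ 2 - C (4 * pf A B))) := by
      rw [h1]
      simp only [map_add, map_mul, map_ofNat]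
      ring
    rw [h3] at hi
    have h4 : HNQ.fK p (X * (X * (X ^ 2 - C (4 * pf A B)))) =
        X * (X * HNQ.fK p (X ^ 2 - C (4 * pf A B))) := by
      simp only [HNQ.fK, Polynomial.map_mul, Polynomial.map_X]
    rw [h4] at hi
    rcases hi.isUnit_or_isUnit rfl with h5 | h5
    · exact not_isUnit_X h5
    · exact not_isUnit_X (isUnit_of_mul_isUnit_left h5)
  by_contra hno
  set P : (ZMod p)[X] := pa a * pf A B * (pa a - pf A B) with hP
  have hP0 : P ≠ 0 := mul_ne_zero (mul_ne_zero ha0 (IE_f_ne A B)) haf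
  have hPd : P.natDegree ≤ 2 * d + 6 := by
    have ha := IE_dega a
    have hf := IE_degf A B
    refine natDegree_mul_le.trans ?_
    have h1 : (pa a * pf A B).natDegree ≤ d + 3 := natDegree_mul_le.trans (by omega)
    have h3 : (pa a - pf A B).natDegree ≤ d + 3 := (natDegree_sub_le _ _).trans (by omega)
    omega
  set Z : Finset (ZMod p × ZMod p) := univ.filter fun z : ZMod p × ZMod p =>
    ((X ^ 2 - C (pa a + pf A B)) ^ 2 - C (4 * pa a * pf A B) : (ZMod p)[X][X]).evalEval z.1 z.2 = 0 with hZ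
  have hZm : ∀ z ∈ Z, (z.2 ^ 2 - ((pa a).eval z.1 + (pf A B).eval z.1)) ^ 2
      - 4 * (pa a).eval z.1 * (pf A B).eval z.1 = 0 := by
    intro z hz1
    have h1 := (mem_filter.mp hz1).2
    rwa [IE_eval] at h1
  have hroot : ∀ z ∈ Z, z.1 ∈ P.roots.toFinset := by
    intro z hz1
    have hE := hZm z hz1
    rw [Multiset.mem_toFinset, mem_roots hP0, IsRoot.def, hP, eval_mul, eval_mul, eval_sub]
    by_contra hne
    have hne1 : (pa a).eval z.1 ≠ 0 := fun h => hne (by rw [h]; ring)
    have hne2 : (pf A B).eval z.1 ≠ 0 := fun h => hne (by rw [h]; ring)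
    have hne3 : (pa a).eval z.1 - (pf A B).eval z.1 ≠ 0 := fun h => hne (by rw [h]; ring)
    have hz0 : z.2 ≠ 0 := by
      intro h
      apply hne3
      rw [h] at hE
      have : ((pa a).eval z.1 - (pf A B).eval z.1) ^ 2 = 0 := by linear_combination hE
      exact pow_eq_zero_iff (two_ne_zero) |>.mp this
    have h2z : 2 * z.2 ≠ 0 := mul_ne_zero h2 hz0
    apply hno
    have hw : ((z.2 ^ 2 + (pa a).eval z.1 - (pf A B).eval z.1) / (2 * z.2)) ^ 2 = (pa a).eval z.1 := by
      rw [div_pow, div_eq_iff (pow_ne_zero 2 h2z)]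
      linear_combination hE
    have hy : ((z.2 ^ 2 - (pa a).eval z.1 + (pf A B).eval z.1) / (2 * z.2)) ^ 2 = (pf A B).eval z.1 := by
      rw [div_pow, div_eq_iff (pow_ne_zero 2 h2z)]
      linear_combination hE
    refine ⟨z.1, (z.2 ^ 2 - (pa a).eval z.1 + (pf A B).eval z.1) / (2 * z.2),
      (z.2 ^ 2 + (pa a).eval z.1 - (pf A B).eval z.1) / (2 * z.2), ?_, ?_, ?_, ?_⟩
    · intro h
      rw [h] at hy
      exact hne2 (by rw [← hy]; ring)
    · intro h
      rw [h] at hw
      exact hne1 (by rw [← hw]; ring)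
    · rw [hy]
      unfold pf
      simp only [eval_add, eval_mul, eval_pow, eval_X, eval_C]
    · rw [hw, hb, eval_zero, zero_mul, add_zero]
  have hcard : Z.card ≤ 4 * (Z.image Prod.fst).card := by
    refine card_le_mul_card_image Z 4 fun x _ => ?_
    have h1 : (Z.filter fun z => z.1 = x).card = ((Z.filter fun z => z.1 = x).image Prod.snd).card := by
      rw [card_image_of_injOn]
      rintro ⟨x1, y1⟩ h1 ⟨x2, y2⟩ h3 h4
      have e1 := (mem_filter.mp (mem_coe.mp h1)).2
      have e2 := (mem_filter.mp (mem_coe.mp h3)).2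
      simp only at e1 e2 h4
      rw [e1, e2, h4]
    rw [h1]
    refine IE_fibre ((pa a).eval x + (pf A B).eval x) (4 * (pa a).eval x * (pf A B).eval x) _ ?_
    intro z hz1
    obtain ⟨w, hw, rfl⟩ := mem_image.mp hz1
    obtain ⟨hw1, hw2⟩ := mem_filter.mp hw
    have := hZm w hw1
    rw [hw2] at this
    exact this
  have hcard2 : (Z.image Prod.fst).card ≤ 2 * d + 6 := by
    have h1 : (Z.image Prod.fst).card ≤ P.roots.toFinset.card := by
      refine card_le_card fun x hx => ?_
      obtain ⟨z, hz1, rfl⟩ := mem_image.mp hx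
      exact hroot z hz1
    exact (h1.trans (Multiset.toFinset_card_le _)).trans ((card_roots' _).trans hPd)
  omega

end BLS
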