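import Pool.Agent.Lib.MP_10e784_agL.IB
import Pool.Agent.Lib.MP_10e784_agL.ID
import Pool.Agent.Lib.MP_10e784_agL.IE

/-!
# LEAF IF: no good point modulo `p` implies that `φ` is a square

PROOF.  `P1 = 1000 (2 d + 6)^6`.  Let `K` be the closure, `ι : ZMod p → K`.  `pa (ι ∘ a) = (pa a).map ι`, the same for `pb`, `pf`.  Take `m`, `g` as in `Bd`.  If `pb a ≠ 0`: `gp_ne` shows that `fK p (..)` is not irreducible; `fK p ((X² - C a)² - C (b² f))` is the same expression in the mapped polynomials; `red_ne` (`natDegree (pf A B) = 3`, `2 ≠ 0` because `p > 2`).  If `pb a = 0`: `gp_zero` and `red_zero`.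
-/

set_option autoImplicit false

namespace BLS

open Polynomial

private theorem IF_pa {K L : Type} [Field K] [Field L] (i : K →+* L) {d : ℕ} (a : Ix d → K) :
    pa (fun k => i (a k)) = (pa a).map i := by
  unfold pa
  rw [Polynomial.map_sum]
  exact Finset.sum_congr rfl fun j _ => (Polynomial.map_monomial i).symm

private theorem IF_pb {K L : Type} [Field K] [Field L] (i : K →+* L) {d : ℕ} (a : Ix d → K) :
    pb (fun k => i (a k)) = (pb a).map i := by
  unfold pb
  rw [Polynomial.map_sum]
  exact Finset.sum_congr rfl fun j _ => (Polynomial.map_monomial i).symm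

private theorem IF_pf {K L : Type} [Field K] [Field L] (i : K →+* L) (A B : K) :
    pf (i A) (i B) = (pf A B).map i := by
  unfold pf
  simp only [Polynomial.map_add, Polynomial.map_mul, Polynomial.map_pow, Polynomial.map_X,
    Polynomial.map_C]

private theorem IF_deg {K : Type} [Field K] (A B : K) : (pf A B).natDegree = 3 := by
  unfold pf
  compute_degree!

theorem good_pt (d : ℕ) : ∃ P1 : ℕ, ∀ (p : ℕ) [Fact p.Prime], P1 ≤ p → ∀ (A B : ZMod p) (a : Ix d → ZMod p),
    ¬ Gp A B a → Bp p A B a := by
  refine ⟨1000 * (2 * d + 6) ^ 6, fun p _ hp A B a hG => ?_⟩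
  have h3 : 2 < p := by
    have h4 : 6 ^ 6 ≤ (2 * d + 6) ^ 6 := Nat.pow_le_pow_left (by omega) 6
    have h5 : (6 : ℕ) ^ 6 = 46656 := by norm_num
    omega
  have h2 : (2 : AlgebraicClosure (ZMod p)) ≠ 0 := by
    have h4 : (2 : ZMod p) ≠ 0 := by
      intro h
      have h5 : ((2 : ℕ) : ZMod p) = 0 := by exact_mod_cast h
      rw [ZMod.natCast_eq_zero_iff] at h5
      exact absurd (Nat.le_of_dvd (by norm_num) h5) (by omega)
    intro h
    apply h4
    apply (algebraMap (ZMod p) (AlgebraicClosure (ZMod p))).injective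
    rw [map_ofNat, map_zero]
    exact h
  intro m g hg hfm
  have hodd : Odd (pf (algebraMap (ZMod p) (AlgebraicClosure (ZMod p)) A)
      (algebraMap (ZMod p) (AlgebraicClosure (ZMod p)) B)).natDegree := by
    rw [IF_deg]
    decide
  by_cases h0 : pb a = 0
  · have hpb : pb (fun k => algebraMap (ZMod p) (AlgebraicClosure (ZMod p)) (a k)) = 0 := by
      rw [IF_pb, h0, Polynomial.map_zero]
    obtain ⟨u, v, h4, h5⟩ := red_zero h2 hfm hg hodd
      (a := pa (fun k => algebraMap (ZMod p) (AlgebraicClosure (ZMod p)) (a k))) (by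
        intro h6
        apply hG
        apply gp_zero d p hp A B a h0
        have h7 : HNQ.fK p ((X ^ 2 - C (pa a + pf A B)) ^ 2 - C (4 * pa a * pf A B)) =
            (X ^ 2 - C (pa (fun k => algebraMap (ZMod p) (AlgebraicClosure (ZMod p)) (a k)) +
              pf (algebraMap (ZMod p) (AlgebraicClosure (ZMod p)) A)
                (algebraMap (ZMod p) (AlgebraicClosure (ZMod p)) B))) ^ 2 -
            C (4 * pa (fun k => algebraMap (ZMod p) (AlgebraicClosure (ZMod p)) (a k)) *
              pf (algebraMap (ZMod p) (AlgebraicClosure (ZMod p)) A)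
                (algebraMap (ZMod p) (AlgebraicClosure (ZMod p)) B)) := by
          rw [IF_pa, IF_pf]
          simp only [HNQ.fK, Polynomial.map_sub, Polynomial.map_pow, Polynomial.map_X,
            Polynomial.map_C, Polynomial.coe_mapRingHom, Polynomial.map_add, Polynomial.map_mul,
            Polynomial.map_ofNat]
        rw [h7]
        exact h6)
    refine ⟨u, v, h4, ?_⟩
    rw [hpb, zero_mul]
    exact h5
  · have hpb : pb (fun k => algebraMap (ZMod p) (AlgebraicClosure (ZMod p)) (a k)) ≠ 0 := by
      rw [IF_pb]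
      exact (Polynomial.map_ne_zero_iff (algebraMap (ZMod p) (AlgebraicClosure (ZMod p))).injective).2 h0
    refine red_ne h2 hfm hg hodd hpb ?_
    intro h6
    apply hG
    apply gp_ne d p hp A B a h0
    have h7 : HNQ.fK p ((X ^ 2 - C (pa a)) ^ 2 - C (pb a ^ 2 * pf A B)) =
        (X ^ 2 - C (pa (fun k => algebraMap (ZMod p) (AlgebraicClosure (ZMod p)) (a k)))) ^ 2 -
        C (pb (fun k => algebraMap (ZMod p) (AlgebraicClosure (ZMod p)) (a k)) ^ 2 *
          pf (algebraMap (ZMod p) (AlgebraicClosure (ZMod p)) A)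
            (algebraMap (ZMod p) (AlgebraicClosure (ZMod p)) B)) := by
      rw [IF_pa, IF_pb, IF_pf]
      simp only [HNQ.fK, Polynomial.map_sub, Polynomial.map_pow, Polynomial.map_X,
        Polynomial.map_C, Polynomial.coe_mapRingHom, Polynomial.map_mul]
    rw [h7]
    exact h6

end BLS
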