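import Pool.Agent.Lib.MP_10e784_agL.HB
import Pool.Agent.Lib.MP_10e784_agL.IF

/-!
# LEAF SB: everywhere locally soluble

PROOF.  `P1` from `good_pt`, take the maximum with `4`.  `M = 8 * P0!`.  Let `a` be as in the statement.  Real points: `a (kd d) > 0`: `sol_O`, `sq_real`.  `p = 2`: `8 ∣ a (kd d) - 1`: `sol_O`, `sq_two` (`subst`).  `2 < p ≤ P0`: `p ∣ P0!`, so `p ∣ a (kd d) - 1`: `sol_O`, `sq_odd`.  `p > P0`: `good_pt` (contrapositive) gives a good point, `sol_of_gp`.
-/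

set_option autoImplicit false

namespace BLS

theorem els (d : ℕ) : ∃ P1 : ℕ, 4 ≤ P1 ∧ ∀ P0 : ℕ, P1 ≤ P0 → ∀ (H : ℕ) (A B : ℤ) (a : Ix d → ℤ),
    Tm (8 * P0.factorial) H a →
    (∀ (p : ℕ) (_ : Fact p.Prime), P0 < p →
      ¬ Bp p (A : ZMod p) (B : ZMod p) (fun k => ((a k : ℤ) : ZMod p))) →
    Sol ℝ A B d a ∧ ∀ (p : ℕ) [Fact p.Prime], Sol ℚ_[p] A B d a := by
  obtain ⟨P1, hP1⟩ := good_pt d
  refine ⟨max P1 4, le_max_right _ _, fun P0 h0 H A B a hT hB => ⟨?_, ?_⟩⟩
  · exact sol_O ℝ A B a (sq_real _ hT.2.1)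
  · intro p hp
    have hP1' : P1 ≤ P0 := (le_max_left _ _).trans h0
    rcases lt_or_ge P0 p with h | h
    · have h2 : p ≠ 2 := by
        have := le_trans (le_max_right P1 4) h0
        omega
      apply sol_of_gp p h2
      by_contra hg
      exact hB p hp h (hP1 p (hP1'.trans h.le) _ _ _ hg)
    · rcases eq_or_ne p 2 with h2 | h2
      · subst h2
        apply sol_O
        apply sq_two
        refine dvd_trans ?_ hT.2.2
        push_cast
        exact dvd_mul_right _ _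
      · apply sol_O
        apply sq_odd p h2
        refine dvd_trans ?_ hT.2.2
        exact_mod_cast (dvd_mul_of_dvd_right ((Nat.Prime.dvd_factorial hp.out).mpr h) 8)

theorem coprime_fac (P0 p : ℕ) (h4 : 4 ≤ P0) (hp : p.Prime) (h : P0 < p) : p.Coprime (8 * P0.factorial) := by
  apply Nat.Coprime.mul_right
  · rw [Nat.Prime.coprime_iff_not_dvd hp]
    intro hd
    have h8 : p ∣ 2 ^ 3 := by
      simpa using hd
    have h2 : p ∣ 2 := hp.dvd_of_dvd_pow h8
    have := Nat.le_of_dvd (by norm_num) h2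
    omega
  · rw [Nat.Prime.coprime_iff_not_dvd hp, Nat.Prime.dvd_factorial hp]
    omega

end BLS
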