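import Mathlib

/-!
# Local solubility of double covers of elliptic curves: definitions
-/

set_option autoImplicit false

namespace BLS

open Polynomial

/-- the indices of the basis `x^i` (`i ≤ d`), `x^i y` (`i ≤ d - 2`) of `L(2 d O)` -/
abbrev Ix (d : ℕ) : Type := Fin (d + 1) ⊕ Fin (d - 1)

/-- the index of `1` -/
abbrev k0 (d : ℕ) : Ix d := .inl 0

/-- the index of `x^d` -/
abbrev kd (d : ℕ) : Ix d := .inl (Fin.last d)

/-- the points of `y² = x³ + A x + B` over the field `K`; `none` is the point `O` at infinity -/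
def PtK (K : Type) [Field K] (A B : ℤ) : Option (K × K) → Prop
  | none => True
  | some z => z.2 ^ 2 = z.1 ^ 3 + A * z.1 + B

/-- the values of the basis at a point; at `O` the values after division by `x^d` -/
def basK (K : Type) [Field K] (d : ℕ) : Option (K × K) → Ix d → K
  | none, .inl i => if i = Fin.last d then 1 else 0
  | none, .inr _ => 0
  | some z, .inl i => z.1 ^ (i : ℕ)
  | some z, .inr i => z.1 ^ (i : ℕ) * z.2

/-- the double cover `w² = φ` of `E` has a point over the field `K` -/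
def Sol (K : Type) [Field K] (A B : ℤ) (d : ℕ) (a : Ix d → ℤ) : Prop :=
  ∃ P, PtK K A B P ∧ IsSquare (∑ k, (a k : K) * basK K d P k)

section

variable {K : Type} [Field K]

/-- `φ = pa + pb y` -/
noncomputable def pa {d : ℕ} (a : Ix d → K) : K[X] := ∑ i : Fin (d + 1), monomial (i : ℕ) (a (.inl i))

/-- `φ = pa + pb y` -/
noncomputable def pb {d : ℕ} (a : Ix d → K) : K[X] := ∑ i : Fin (d - 1), monomial (i : ℕ) (a (.inr i))

/-- the cubic `x³ + A x + B` -/
noncomputable def pf (A B : K) : K[X] := X ^ 3 + C A * X + C B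

/-- `φ` is a square in the function field of the (possibly singular) cubic, `K` algebraically closed -/
def Bd {d : ℕ} (A B : K) (a : Ix d → K) : Prop :=
  ∀ m g : K[X], Squarefree g → pf A B = m ^ 2 * g → ∃ u v : K[X], pa a = u ^ 2 + v ^ 2 * g ∧ pb a * m = 2 * u * v

/-- the double cover has a point with `y ≠ 0`, `w ≠ 0` -/
def Gp {d : ℕ} (A B : K) (a : Ix d → K) : Prop :=
  ∃ x y w : K, y ≠ 0 ∧ w ≠ 0 ∧ y ^ 2 = x ^ 3 + A * x + B ∧ w ^ 2 = (pa a).eval x + (pb a).eval x * y

end

/-- `φ` is a square in the function field of the cubic over the algebraic closure of `ZMod p` -/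
def Bp (p : ℕ) [Fact p.Prime] {d : ℕ} (A B : ZMod p) (a : Ix d → ZMod p) : Prop :=
  Bd (algebraMap (ZMod p) (AlgebraicClosure (ZMod p)) A) (algebraMap (ZMod p) (AlgebraicClosure (ZMod p)) B)
    (fun k => algebraMap (ZMod p) (AlgebraicClosure (ZMod p)) (a k))

/-- the box with the condition `a_d > 0`, `a_d ≡ 1` modulo `M` -/
def Tm {d : ℕ} (M H : ℕ) (a : Ix d → ℤ) : Prop :=
  (∀ k, |a k| ≤ (H : ℤ)) ∧ 0 < a (kd d) ∧ (M : ℤ) ∣ a (kd d) - 1

/-- `4 A³ + 27 B²` -/
def ds (A B : ℤ) : ℤ := 4 * A ^ 3 + 27 * B ^ 2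

end BLS
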