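import Pool.Agent.Lib.MP_10e784_agL.Defs

/-!
# LEAF FA: coefficients by the order of the pole at `O`

`cf P Q n` is the coefficient of `φ = P + Q y` at the basis element with a pole of order `n` at `O`: `x^(n / 2)` if `n` is even, `x^((n - 3) / 2) y` if `n ≥ 3` is odd.

PROOF.  `cf_sq`: for `n` even, `n = 2 s`, `cf = coeff (u² + v² f) s`; `coeff (u²) s` is the sum over `i + j = n`, `i`, `j` even; `coeff (v² X³) s = coeff (v²) (s - 3)` is the sum over `i + j = n`, `i = 2 i' + 3`, `j = 2 j' + 3` odd; `coeff (A v² X) s = A coeff (v²) (s - 1)` is `A` times the sum over `i + j = n + 4`, `i`, `j` odd; `coeff (B v²) s` the same with `n + 6`.  For `n` odd, `n = 2 s + 3`: `coeff (2 u v) s`: the sum over `i + j = n`, one even, one odd (both orders); the two last sums vanish (one of `i`, `j` is even, and `co` vanishes at even indices).  `n = 1`: both sides are `0`.  (`cf` at `1` is `0`.)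
`cf_top`: `natDegree (pa a) ≤ d`, `natDegree (pb a) ≤ d - 2`.  Since `u² + v² f` has degree `max (2 deg u) (2 deg v + 3)` (even and odd), `2 deg u ≤ d` and `2 deg v + 3 ≤ d` (if `u`, `v ≠ 0`).
-/

set_option autoImplicit false

namespace BLS

open Polynomial Finset

variable {K : Type} [Field K]

/-- the coefficient of `P + Q y` at the basis element of pole order `n` -/
noncomputable def cf (P Q : K[X]) (n : ℕ) : K :=
  if n % 2 = 0 then P.coeff (n / 2) else if n = 1 then 0 else Q.coeff ((n - 3) / 2)

/-- the same, odd orders only -/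
noncomputable def co (Q : K[X]) (n : ℕ) : K :=
  if n % 2 = 0 then 0 else if n = 1 then 0 else Q.coeff ((n - 3) / 2)

/-- `cf` as a coefficient of one polynomial in the local parameter -/
private theorem FA_cf (P Q : K[X]) (n : ℕ) :
    cf P Q n = (expand K 2 P + X ^ 3 * expand K 2 Q).coeff n := by
  unfold cf
  rw [coeff_add, coeff_expand (by norm_num), coeff_X_pow_mul']
  rcases Nat.mod_two_eq_zero_or_one n with h | h
  · rw [if_pos h, if_pos (Nat.dvd_of_mod_eq_zero h)]
    by_cases h3 : 3 ≤ n
    · rw [if_pos h3, coeff_expand (by norm_num), if_neg (by omega), add_zero]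
    · rw [if_neg h3, add_zero]
  · rw [if_neg (by omega), if_neg (by omega : ¬ 2 ∣ n), zero_add]
    by_cases h1 : n = 1
    · rw [if_pos h1, if_neg (by omega)]
    · rw [if_neg h1, if_pos (by omega), coeff_expand (by norm_num), if_pos (by omega)]

/-- `co` as a coefficient of one polynomial in the local parameter -/
private theorem FA_co (Q : K[X]) (n : ℕ) : co Q n = (X ^ 3 * expand K 2 Q).coeff n := by
  unfold co
  rw [coeff_X_pow_mul']
  rcases Nat.mod_two_eq_zero_or_one n with h | h
  · rw [if_pos h]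
    by_cases h3 : 3 ≤ n
    · rw [if_pos h3, coeff_expand (by norm_num), if_neg (by omega)]
    · rw [if_neg h3]
  · rw [if_neg (by omega)]
    by_cases h1 : n = 1
    · rw [if_pos h1, if_neg (by omega)]
    · rw [if_neg h1, if_pos (by omega), coeff_expand (by norm_num), if_pos (by omega)]

theorem cf_sq (A B : K) (u v : K[X]) (n : ℕ) :
    cf (u ^ 2 + v ^ 2 * pf A B) (2 * u * v) n =
      ∑ z ∈ antidiagonal n, cf u v z.1 * cf u v z.2 + A * ∑ z ∈ antidiagonal (n + 4), co v z.1 * co v z.2 +
        B * ∑ z ∈ antidiagonal (n + 6), co v z.1 * co v z.2 := by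
  have h1 : ∑ z ∈ antidiagonal n, cf u v z.1 * cf u v z.2 =
      ((expand K 2 u + X ^ 3 * expand K 2 v) * (expand K 2 u + X ^ 3 * expand K 2 v)).coeff n := by
    rw [coeff_mul]
    exact sum_congr rfl fun z _ => by rw [FA_cf, FA_cf]
  have h2 : ∀ m, ∑ z ∈ antidiagonal m, co v z.1 * co v z.2 =
      ((X ^ 3 * expand K 2 v) * (X ^ 3 * expand K 2 v)).coeff m := by
    intro m
    rw [coeff_mul]
    exact sum_congr rfl fun z _ => by rw [FA_co, FA_co]
  have h4 : ((X ^ 3 * expand K 2 v) * (X ^ 3 * expand K 2 v)).coeff (n + 4) =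
      (X ^ 2 * expand K 2 v ^ 2).coeff n := by
    have e : (X ^ 3 * expand K 2 v) * (X ^ 3 * expand K 2 v) = X ^ 4 * (X ^ 2 * expand K 2 v ^ 2) := by ring
    rw [e, coeff_X_pow_mul]
  have h6 : ((X ^ 3 * expand K 2 v) * (X ^ 3 * expand K 2 v)).coeff (n + 6) = (expand K 2 v ^ 2).coeff n := by
    have e : (X ^ 3 * expand K 2 v) * (X ^ 3 * expand K 2 v) = X ^ 6 * (expand K 2 v ^ 2) := by ring
    rw [e, coeff_X_pow_mul]
  rw [h1, h2, h2, h4, h6, FA_cf, ← coeff_C_mul, ← coeff_C_mul, ← coeff_add, ← coeff_add]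
  congr 1
  unfold pf
  simp only [map_add, map_mul, map_pow, expand_X, expand_C, map_ofNat]
  ring

/-- the degree of the even part -/
private theorem FA_pa {d : ℕ} (a : Ix d → K) : (pa a).natDegree ≤ d := by
  unfold pa
  refine natDegree_sum_le_of_forall_le _ _ fun i _ => ?_
  exact (natDegree_monomial_le _).trans (by omega)

theorem cf_top {d : ℕ} (hd : 2 ≤ d) (A B : K) (a : Ix d → K) (u v : K[X]) (h1 : pa a = u ^ 2 + v ^ 2 * pf A B)
    (n : ℕ) (hn : d < n) : cf u v n = 0 ∧ co v n = 0 := by
  have hpa := FA_pa a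
  rw [h1] at hpa
  have hf : (pf A B).natDegree = 3 := by
    unfold pf
    compute_degree!
  have hf0 : pf A B ≠ 0 := by
    intro h0
    rw [h0, natDegree_zero] at hf
    omega
  have key : 2 * u.natDegree ≤ d ∧ (v = 0 ∨ 2 * v.natDegree + 3 ≤ d) := by
    by_cases hv : v = 0
    · refine ⟨?_, Or.inl hv⟩
      rw [hv, zero_pow two_ne_zero, zero_mul, add_zero, natDegree_pow] at hpa
      exact hpa
    · have e2 : (v ^ 2 * pf A B).natDegree = 2 * v.natDegree + 3 := by
        rw [natDegree_mul (pow_ne_zero 2 hv) hf0, natDegree_pow, hf]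
      have e1 : (u ^ 2).natDegree = 2 * u.natDegree := natDegree_pow _ _
      rcases Nat.lt_or_ge (u ^ 2).natDegree (v ^ 2 * pf A B).natDegree with h | h
      · rw [natDegree_add_eq_right_of_natDegree_lt h] at hpa
        omega
      · have h' : (v ^ 2 * pf A B).natDegree < (u ^ 2).natDegree := by omega
        rw [natDegree_add_eq_left_of_natDegree_lt h'] at hpa
        omega
  obtain ⟨k1, k2⟩ := key
  have hvc : n % 2 ≠ 0 → v.coeff ((n - 3) / 2) = 0 := by
    intro h
    rcases k2 with k2 | k2
    · rw [k2, coeff_zero]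
    · exact coeff_eq_zero_of_natDegree_lt (by omega)
  constructor
  · unfold cf
    by_cases h : n % 2 = 0
    · rw [if_pos h]
      exact coeff_eq_zero_of_natDegree_lt (by omega)
    · rw [if_neg h, if_neg (by omega)]
      exact hvc h
  · unfold co
    by_cases h : n % 2 = 0
    · rw [if_pos h]
    · rw [if_neg h, if_neg (by omega)]
      exact hvc h

end BLS
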