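import Pool.Agent.Lib.MP_10e784_agL.Defs

/-!
# LEAF GB: the size of a polynomial on a box; the number of large prime divisors

PROOF.  `mv_bound`: induction on `G` (`MvPolynomial.induction_on`): constants, sums, products with a variable; all bounds with `H ≥ 1`.
`few_big`: if there were `k + 1` such primes their product (pairwise coprime) would divide `N ≠ 0` and be at least `L^(k + 1) > |N|`.
-/

set_option autoImplicit false

namespace BLS

open Finset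

theorem mv_bound {σ : Type} [Fintype σ] (G : MvPolynomial σ ℤ) : ∃ C K : ℕ, ∀ H : ℕ, 1 ≤ H → ∀ x : σ → ℤ,
    (∀ s, |x s| ≤ (H : ℤ) ^ 3) → |MvPolynomial.aeval x G| ≤ (C : ℤ) * (H : ℤ) ^ K := by
  induction G using MvPolynomial.induction_on with
  | C a =>
    refine ⟨a.natAbs, 0, fun H _ x _ => ?_⟩
    rw [MvPolynomial.aeval_C, pow_zero, mul_one, Int.natCast_natAbs]
    exact le_refl _
  | add p q hp hq =>
    obtain ⟨C₁, K₁, h₁⟩ := hp
    obtain ⟨C₂, K₂, h₂⟩ := hq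
    refine ⟨C₁ + C₂, K₁ + K₂, fun H hH x hx => ?_⟩
    have hH' : (1 : ℤ) ≤ (H : ℤ) := by exact_mod_cast hH
    have h3 := h₁ H hH x hx
    have h4 := h₂ H hH x hx
    have h5 : (H : ℤ) ^ K₁ ≤ (H : ℤ) ^ (K₁ + K₂) := pow_le_pow_right₀ hH' (Nat.le_add_right _ _)
    have h6 : (H : ℤ) ^ K₂ ≤ (H : ℤ) ^ (K₁ + K₂) := pow_le_pow_right₀ hH' (Nat.le_add_left _ _)
    have h7 : (C₁ : ℤ) * (H : ℤ) ^ K₁ ≤ (C₁ : ℤ) * (H : ℤ) ^ (K₁ + K₂) :=
      mul_le_mul_of_nonneg_left h5 (Int.natCast_nonneg _)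
    have h8 : (C₂ : ℤ) * (H : ℤ) ^ K₂ ≤ (C₂ : ℤ) * (H : ℤ) ^ (K₁ + K₂) :=
      mul_le_mul_of_nonneg_left h6 (Int.natCast_nonneg _)
    rw [map_add]
    have h9 := abs_add_le (MvPolynomial.aeval x p : ℤ) (MvPolynomial.aeval x q)
    push_cast
    linarith
  | mul_X p n hp =>
    obtain ⟨C₁, K₁, h₁⟩ := hp
    refine ⟨C₁, K₁ + 3, fun H hH x hx => ?_⟩
    rw [map_mul, MvPolynomial.aeval_X, abs_mul, pow_add, ← mul_assoc]
    exact mul_le_mul (h₁ H hH x hx) (hx n) (abs_nonneg _) (by positivity)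

theorem few_big (N : ℤ) (hN : N ≠ 0) (L k : ℕ) (h : |N| < (L : ℤ) ^ (k + 1)) :
    {p : ℕ | p.Prime ∧ L ≤ p ∧ (p : ℤ) ∣ N}.Finite ∧ {p : ℕ | p.Prime ∧ L ≤ p ∧ (p : ℤ) ∣ N}.ncard ≤ k := by
  have hN' : N.natAbs ≠ 0 := Int.natAbs_ne_zero.2 hN
  have hset : {p : ℕ | p.Prime ∧ L ≤ p ∧ (p : ℤ) ∣ N} = ↑(N.natAbs.primeFactors.filter fun p => L ≤ p) := by
    ext p
    simp only [Set.mem_ofPred_eq, Finset.coe_filter, Nat.mem_primeFactors]
    constructor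
    · rintro ⟨h1, h2, h3⟩
      exact ⟨⟨h1, Int.natCast_dvd.1 h3, hN'⟩, h2⟩
    · rintro ⟨⟨h1, h3, -⟩, h2⟩
      exact ⟨h1, h2, Int.natCast_dvd.2 h3⟩
  rw [hset]
  refine ⟨Finset.finite_toSet _, ?_⟩
  rw [Set.ncard_coe_finset]
  by_contra hk
  have hk' : k + 1 ≤ (N.natAbs.primeFactors.filter fun p => L ≤ p).card := not_le.1 hk
  have hL : 1 ≤ L := by
    by_contra h0
    have h1 : L = 0 := by omega
    rw [h1, Nat.cast_zero, zero_pow (Nat.succ_ne_zero k)] at h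
    exact absurd h (not_lt.2 (abs_nonneg N))
  have h1 : ∏ p ∈ N.natAbs.primeFactors.filter (fun p => L ≤ p), p ∣ N.natAbs :=
    (Finset.prod_dvd_prod_of_subset _ _ _ (Finset.filter_subset _ _)).trans (Nat.prod_primeFactors_dvd _)
  have h2 : L ^ (N.natAbs.primeFactors.filter fun p => L ≤ p).card ≤
      ∏ p ∈ N.natAbs.primeFactors.filter (fun p => L ≤ p), p :=
    Finset.pow_card_le_prod _ _ _ fun p hp => (Finset.mem_filter.1 hp).2
  have h3 : L ^ (k + 1) ≤ N.natAbs :=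
    ((Nat.pow_le_pow_right hL hk').trans h2).trans (Nat.le_of_dvd (Nat.pos_of_ne_zero hN') h1)
  have h4 : ((L ^ (k + 1) : ℕ) : ℤ) ≤ |N| := by
    rw [← Int.natCast_natAbs]
    exact_mod_cast h3
  push_cast at h4
  exact absurd h (not_lt.2 h4)

end BLS
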