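import Pool.Agent.Lib.MP_10e784_agL.CA
import Pool.Agent.Lib.MP_10e784_agL.GB
import Pool.Agent.Lib.MP_10e784_agL.MA
import Pool.Agent.Lib.MP_10e784_agL.TL

/-!
# LEAF GA: an integer which is divisible by all bad primes

PROOF.  `rel` gives `kk`, `m`, `G`.  `D A B a = ds A B * (a kd * ((2 a kd)^m a kk - G(A, B, a)))`, `G` evaluated at `Sum.elim ![A, B] fun k => a k.1`.
(1) it does not depend on `a k0`: `kk ≠ k0`, `kd ≠ k0` (`d ≥ 2`), the variables of `G` are not `k0`.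
(2) if `ds A B ≠ 0`, `a kd ≠ 0` and `D = 0` then `(2 a kd)^m a kk = G(..)`: two vectors with this property which agree off `kk` are equal.
(3) if `p ≥ 5` and `Bp p A B a` then `p ∣ D`: if `p ∤ ds A B` the cubic is squarefree over the closure `K` (`sqf_pf`, `ds A B ≠ 0` in `K`), `Bd` with `m = 1`, `g = pf` gives `u`, `v`; if `a kd ≠ 0` in `K` `rel` gives `(2 a kd)^m a kk = G` in `K` (`MvPolynomial.aeval` commutes with the ring homomorphism `ℤ → K`: `MvPolynomial.aeval_def`, `eval₂_comp`-like lemmas, `map_aeval`); an integer which vanishes in `K` is divisible by `p` (`CharP K p`).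
(4) the size: `mv_bound` for `G` with `|A| ≤ H²`, `|B| ≤ H³`, `|a k| ≤ H`.
-/

set_option autoImplicit false

namespace BLS

open Finset

private theorem GA_cast {K : Type} [Field K] {σ : Type} (x : σ → ℤ) (G : MvPolynomial σ ℤ) :
    ((MvPolynomial.aeval x G : ℤ) : K) = MvPolynomial.aeval (fun s => ((x s : ℤ) : K)) G := by
  have h9 := MvPolynomial.aeval_algebraMap_apply (R := ℤ) (A := ℤ) K x G
  rw [eq_intCast] at h9
  rw [← h9]
  refine congrArg (fun y => MvPolynomial.aeval y G) ?_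
  funext s
  show ((x s : ℤ) : K) = algebraMap ℤ K (x s)
  rw [eq_intCast]

private theorem GA_key {d : ℕ} {kk : Ix d} {m : ℕ}
    {G : MvPolynomial (Fin 2 ⊕ {k : Ix d // k ≠ kk ∧ k ≠ k0 d}) ℤ}
    (hrel : ∀ (K : Type) [Field K], (2 : K) ≠ 0 → ∀ (A B : K) (a : Ix d → K) (u v : Polynomial K),
      pa a = u ^ 2 + v ^ 2 * pf A B → pb a = 2 * u * v → a (kd d) ≠ 0 →
      (2 * a (kd d)) ^ m * a kk = MvPolynomial.aeval (Sum.elim ![A, B] fun k => a k.1) G)
    (K : Type) [Field K] (h20 : (2 : K) ≠ 0) (A B : ℤ) (a : Ix d → ℤ)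
    (hB : Bd ((A : ℤ) : K) ((B : ℤ) : K) (fun k => ((a k : ℤ) : K)))
    (hds : 4 * ((A : ℤ) : K) ^ 3 + 27 * ((B : ℤ) : K) ^ 2 ≠ 0) (h2 : ¬ ((a (kd d) : ℤ) : K) = 0) :
    (((2 * a (kd d)) ^ m * a kk - MvPolynomial.aeval (Sum.elim ![A, B]
        fun k : {k : Ix d // k ≠ kk ∧ k ≠ k0 d} => a k.1) G : ℤ) : K) = 0 := by
  obtain ⟨u, v, hu, hv⟩ := hB 1 _ (sqf_pf _ _ hds) (by rw [one_pow, one_mul])
  rw [mul_one] at hv
  have h7 := hrel K h20 _ _ _ u v hu hv h2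
  have h8 : (fun s => ((Sum.elim ![A, B] (fun k : {k : Ix d // k ≠ kk ∧ k ≠ k0 d} => a k.1) s : ℤ) : K)) =
      Sum.elim ![((A : ℤ) : K), ((B : ℤ) : K)]
        fun k : {k : Ix d // k ≠ kk ∧ k ≠ k0 d} => ((a k.1 : ℤ) : K) := by
    funext s
    rcases s with s | s
    · fin_cases s <;> rfl
    · rfl
  rw [Int.cast_sub, GA_cast, h8, ← h7]
  push_cast
  rw [sub_self]

theorem exists_D (d : ℕ) (hd : 2 ≤ d) : ∃ (kk : Ix d) (D : ℤ → ℤ → (Ix d → ℤ) → ℤ) (C K : ℕ), kk ≠ kd d ∧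
    (∀ A B a a', (∀ k, k ≠ k0 d → a k = a' k) → D A B a = D A B a') ∧
    (∀ A B a a', ds A B ≠ 0 → a (kd d) ≠ 0 → (∀ k, k ≠ kk → a k = a' k) → D A B a = 0 → D A B a' = 0 → a = a') ∧
    (∀ (p : ℕ) [Fact p.Prime] (A B : ℤ) (a : Ix d → ℤ), 5 ≤ p →
      Bp p (A : ZMod p) (B : ZMod p) (fun k => ((a k : ℤ) : ZMod p)) → (p : ℤ) ∣ D A B a) ∧
    ∀ H : ℕ, 1 ≤ H → ∀ A B a, |A| ≤ (H : ℤ) ^ 2 → |B| ≤ (H : ℤ) ^ 3 → (∀ k, |a k| ≤ (H : ℤ)) →
      |D A B a| ≤ (C : ℤ) * (H : ℤ) ^ K := by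
  classical
  obtain ⟨kk, m, G, hk0, hkd, hrel⟩ := rel d hd
  obtain ⟨C, K, hG⟩ := mv_bound G
  have hd0 : kd d ≠ k0 d := by
    intro h
    have h1 : Fin.last d = 0 := Sum.inl_injective h
    have h2 : ((Fin.last d : Fin (d + 1)) : ℕ) = ((0 : Fin (d + 1)) : ℕ) := by rw [h1]
    rw [Fin.val_last, Fin.val_zero] at h2
    omega
  refine ⟨kk, fun A B a => ds A B * (a (kd d) * ((2 * a (kd d)) ^ m * a kk -
    MvPolynomial.aeval (Sum.elim ![A, B] fun k : {k : Ix d // k ≠ kk ∧ k ≠ k0 d} => a k.1) G)),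
    31 * (2 ^ m + C), 7 + ((m + 1) + K), hkd, ?_, ?_, ?_, ?_⟩
  · intro A B a a' h
    have h1 : (fun k : {k : Ix d // k ≠ kk ∧ k ≠ k0 d} => a k.1) = fun k => a' k.1 :=
      funext fun k => h _ k.2.2
    dsimp only
    rw [h1, h _ hd0, h _ hk0]
  · intro A B a a' hds ha h h0 h0'
    have h1 : (fun k : {k : Ix d // k ≠ kk ∧ k ≠ k0 d} => a k.1) = fun k => a' k.1 :=
      funext fun k => h _ k.2.1
    have h2 : a (kd d) = a' (kd d) := h _ (Ne.symm hkd)
    have ha' : a' (kd d) ≠ 0 := by rw [← h2]; exact ha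
    dsimp only at h0 h0'
    have h3 := sub_eq_zero.1 (((mul_eq_zero.1 (((mul_eq_zero.1 h0).resolve_left hds))).resolve_left ha))
    have h4 := sub_eq_zero.1 (((mul_eq_zero.1 (((mul_eq_zero.1 h0').resolve_left hds))).resolve_left ha'))
    rw [h1, ← h4, h2] at h3
    have h5 : a kk = a' kk := mul_left_cancel₀ (pow_ne_zero m (mul_ne_zero two_ne_zero ha')) h3
    funext k
    by_cases hk : k = kk
    · rw [hk]; exact h5
    · exact h k hk
  · intro p _ A B a hp5 hBp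
    have hp : p.Prime := Fact.out
    dsimp only
    have hzero : ∀ z : ℤ, ((z : ℤ) : AlgebraicClosure (ZMod p)) = 0 → (p : ℤ) ∣ z := by
      intro z hz
      exact (CharP.intCast_eq_zero_iff (AlgebraicClosure (ZMod p)) p z).1 hz
    by_cases h1 : ((ds A B : ℤ) : AlgebraicClosure (ZMod p)) = 0
    · exact Dvd.dvd.mul_right (hzero _ h1) _
    by_cases h2 : ((a (kd d) : ℤ) : AlgebraicClosure (ZMod p)) = 0
    · exact Dvd.dvd.mul_left (Dvd.dvd.mul_right (hzero _ h2) _) _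
    refine Dvd.dvd.mul_left (Dvd.dvd.mul_left (hzero _ ?_) _) _
    have hB : Bd ((A : ℤ) : AlgebraicClosure (ZMod p)) ((B : ℤ) : AlgebraicClosure (ZMod p))
        (fun k => ((a k : ℤ) : AlgebraicClosure (ZMod p))) := by
      have h3 := hBp
      unfold Bp at h3
      simp only [map_intCast] at h3
      exact h3
    have hds : 4 * ((A : ℤ) : AlgebraicClosure (ZMod p)) ^ 3 +
        27 * ((B : ℤ) : AlgebraicClosure (ZMod p)) ^ 2 ≠ 0 := by
      intro h3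
      apply h1
      unfold ds
      push_cast
      exact h3
    have h20 : (2 : AlgebraicClosure (ZMod p)) ≠ 0 := by
      intro h3
      have h4 : (p : ℤ) ∣ 2 := hzero 2 (by push_cast; exact h3)
      have h5 : p ∣ 2 := by exact_mod_cast h4
      have h6 := Nat.le_of_dvd (by norm_num) h5
      omega
    exact GA_key hrel _ h20 A B a hB hds h2
  · intro H hH A B a hA hB ha
    dsimp only
    have hH1 : (1 : ℤ) ≤ (H : ℤ) := by exact_mod_cast hH
    have hH0 : (0 : ℤ) ≤ (H : ℤ) := le_trans zero_le_one hH1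
    have hG' := hG H hH (Sum.elim ![A, B] fun k : {k : Ix d // k ≠ kk ∧ k ≠ k0 d} => a k.1) (by
      intro s
      rcases s with s | s
      · fin_cases s
        · exact le_trans hA (pow_le_pow_right₀ hH1 (by norm_num))
        · exact hB
      · refine le_trans (ha s.1) ?_
        calc (H : ℤ) = (H : ℤ) ^ 1 := (pow_one _).symm
          _ ≤ (H : ℤ) ^ 3 := pow_le_pow_right₀ hH1 (by norm_num))
    have hds : |ds A B| ≤ 31 * (H : ℤ) ^ 6 := by
      have h1 : |A| ^ 3 ≤ ((H : ℤ) ^ 2) ^ 3 := pow_le_pow_left₀ (abs_nonneg _) hA 3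
      have h2 : |B| ^ 2 ≤ ((H : ℤ) ^ 3) ^ 2 := pow_le_pow_left₀ (abs_nonneg _) hB 2
      have h3 : |ds A B| ≤ 4 * |A| ^ 3 + 27 * |B| ^ 2 := by
        unfold ds
        refine (abs_add_le _ _).trans (le_of_eq ?_)
        rw [abs_mul, abs_mul, abs_pow, abs_pow]
        rfl
      have h4 : ((H : ℤ) ^ 2) ^ 3 = (H : ℤ) ^ 6 := by ring
      have h5 : ((H : ℤ) ^ 3) ^ 2 = (H : ℤ) ^ 6 := by ring
      rw [h4] at h1
      rw [h5] at h2
      linarith
    have h2a : |2 * a (kd d)| ≤ 2 * (H : ℤ) := by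
      rw [abs_mul]
      have h1 : |(2 : ℤ)| = 2 := rfl
      rw [h1]
      have := ha (kd d)
      linarith
    have h6 : |(2 * a (kd d)) ^ m * a kk| ≤ (2 * (H : ℤ)) ^ m * (H : ℤ) := by
      rw [abs_mul, abs_pow]
      exact mul_le_mul (pow_le_pow_left₀ (abs_nonneg _) h2a m) (ha kk) (abs_nonneg _)
        (pow_nonneg (by linarith) m)
    have h7 : |(2 * a (kd d)) ^ m * a kk - MvPolynomial.aeval (Sum.elim ![A, B]
        fun k : {k : Ix d // k ≠ kk ∧ k ≠ k0 d} => a k.1) G| ≤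
        (2 ^ m + (C : ℤ)) * (H : ℤ) ^ ((m + 1) + K) := by
      refine (abs_sub _ _).trans ?_
      have h8 : (2 * (H : ℤ)) ^ m * (H : ℤ) ≤ 2 ^ m * (H : ℤ) ^ ((m + 1) + K) := by
        have h9 : (2 * (H : ℤ)) ^ m * (H : ℤ) = 2 ^ m * (H : ℤ) ^ (m + 1) := by
          rw [mul_pow, pow_succ]; ring
        rw [h9]
        exact mul_le_mul_of_nonneg_left (pow_le_pow_right₀ hH1 (by omega)) (by positivity)
      have h10 : (C : ℤ) * (H : ℤ) ^ K ≤ (C : ℤ) * (H : ℤ) ^ ((m + 1) + K) :=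
        mul_le_mul_of_nonneg_left (pow_le_pow_right₀ hH1 (by omega)) (Int.natCast_nonneg C)
      rw [add_mul]
      exact add_le_add (h6.trans h8) (hG'.trans h10)
    rw [abs_mul, abs_mul]
    have h11 : |ds A B| * (|a (kd d)| * |(2 * a (kd d)) ^ m * a kk - MvPolynomial.aeval
        (Sum.elim ![A, B] fun k : {k : Ix d // k ≠ kk ∧ k ≠ k0 d} => a k.1) G|) ≤
        (31 * (H : ℤ) ^ 6) * ((H : ℤ) * ((2 ^ m + (C : ℤ)) * (H : ℤ) ^ ((m + 1) + K))) := by
      refine mul_le_mul hds ?_ (by positivity) (by positivity)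
      exact mul_le_mul (ha (kd d)) h7 (abs_nonneg _) hH0
    refine h11.trans (le_of_eq ?_)
    push_cast
    rw [pow_add _ 7]
    ring

end BLS
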