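import Pool.Agent.Lib.MP_10e784_agL.GA
import Pool.Agent.Lib.MP_10e784_agL.GD

/-!
# LEAF GE: the bad vectors at the primes `p > H / M`

PROOF.  `kk`, `D`, `C`, `K` from `exists_D`.  `L = H / M + 1` (floor): `H ≤ L M`, and `H < p M` implies `L ≤ p`.  For `H ≥ H0`: `C H^K < L^(K + 1)` (since `L > H / M`, `L^(K + 1) > H^(K + 1) / M^(K + 1) ≥ C H^K` if `H ≥ C M^(K + 1)`) and `H < L²` (if `H > M²`).  A vector `a` of the set is in one of three sets: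
(i) `D A B a = 0`: `fib1` with `k = kk` (`a (kd d) > 0`): at most `(3 H)^(2 d - 1)`.
(ii) for some prime `p ≥ L`, `p ∣ a (kd d)` and `p ∣ a (k2)`, `k2 = inl 1` (`≠ kd d` as `d ≥ 2`): `fib3`: at most `(3 H)^(2 d - 1) 3 M`.
(iii) `D ≠ 0` and for some prime `p ≥ L`, `p ≥ 5`, `Bp` and not all the coefficients `a k`, `k ≠ k0`, vanish modulo `p`: `fib2` with `k = k0`, `N = D A B`, `Q p a = Tm ∧ p.Prime ∧ 5 ≤ p ∧ L ≤ p ∧ Bp .. ∧ ∃ k ≠ k0, ¬ p ∣ a k`: `h1` is (3) of `exists_D`, `h2` is `Bp_unique`: at most `(3 H)^(2 d - 1) K 3 M`.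
(If all the coefficients off `k0` vanish modulo `p` we are in (ii).)  `C' = 3^(2 d - 1) (1 + 3 M + 3 K M)`.
-/

set_option autoImplicit false

namespace BLS

open Finset

theorem big (d : ℕ) (hd : 2 ≤ d) (M : ℕ) (hM : 1 ≤ M) : ∃ (C : ℝ) (H0 : ℕ), 0 < C ∧ ∀ H : ℕ, H0 ≤ H →
    ∀ A B : ℤ, |A| ≤ (H : ℤ) ^ 2 → |B| ≤ (H : ℤ) ^ 3 → ds A B ≠ 0 →
    (Nat.card {a : Ix d → ℤ // Tm M H a ∧ ∃ (p : ℕ) (_ : Fact p.Prime), 5 ≤ p ∧ H < p * M ∧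
      Bp p (A : ZMod p) (B : ZMod p) (fun k => ((a k : ℤ) : ZMod p))} : ℝ) ≤ C * (H : ℝ) ^ (2 * d - 1) := by
  classical
  obtain ⟨kk, D, C0, K, -, hD1, hD2, hD3, hD4⟩ := exists_D d hd
  have hcard : Fintype.card (Ix d) - 1 = 2 * d - 1 := by
    rw [Fintype.card_sum, Fintype.card_fin, Fintype.card_fin]
    omega
  have hMr : (0 : ℝ) ≤ M := Nat.cast_nonneg M
  have hKr : (0 : ℝ) ≤ K := Nat.cast_nonneg K
  refine ⟨3 ^ (2 * d - 1) * (1 + (K * (3 * M) + 3 * M)), C0 * M ^ (K + 1) + M ^ 2 + 1, by positivity, ?_⟩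
  intro H hH0 A B hA hB hds
  obtain ⟨L, hLdef⟩ : ∃ L : ℕ, L = H / M + 1 := ⟨_, rfl⟩
  have hMpos : 0 < M := hM
  have hLM : H < L * M := by
    rw [hLdef]
    exact Nat.lt_mul_of_div_lt (Nat.lt_succ_self _) hMpos
  have hH1 : 1 ≤ H := by omega
  have hHC : C0 * M ^ (K + 1) ≤ H := by omega
  have hHM : M ^ 2 ≤ H := by omega
  have hL2 : H < L ^ 2 := by
    have h1 : H ^ 2 < (L * M) ^ 2 := Nat.pow_lt_pow_left hLM (by norm_num)
    have h2 : H * M ^ 2 ≤ H ^ 2 := by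
      rw [pow_two H]
      exact Nat.mul_le_mul_left _ hHM
    have h3 : H * M ^ 2 < L ^ 2 * M ^ 2 := by
      rw [← mul_pow]
      omega
    exact Nat.lt_of_mul_lt_mul_right h3
  have hLK : C0 * H ^ K < L ^ (K + 1) := by
    have h1 : H ^ (K + 1) < (L * M) ^ (K + 1) := Nat.pow_lt_pow_left hLM (by omega)
    have h2 : C0 * M ^ (K + 1) * H ^ K ≤ H ^ (K + 1) := by
      rw [pow_succ' H]
      exact Nat.mul_le_mul_right _ hHC
    have h3 : C0 * H ^ K * M ^ (K + 1) < L ^ (K + 1) * M ^ (K + 1) := by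
      rw [← mul_pow]
      calc C0 * H ^ K * M ^ (K + 1) = C0 * M ^ (K + 1) * H ^ K := by ring
        _ ≤ H ^ (K + 1) := h2
        _ < (L * M) ^ (K + 1) := h1
    exact Nat.lt_of_mul_lt_mul_right h3
  have hK : ∀ a : Ix d → ℤ, (∀ j, |a j| ≤ (H : ℤ)) → |D A B a| < (L : ℤ) ^ (K + 1) := by
    intro a ha
    refine lt_of_le_of_lt (hD4 H hH1 A B a hA hB ha) ?_
    exact_mod_cast hLK
  have h1lt : 1 < d + 1 := by omega
  have hk1 : kd d ≠ (Sum.inl ⟨1, h1lt⟩ : Ix d) := by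
    intro h
    have h2 := congrArg Fin.val (Sum.inl_injective h)
    simp only [Fin.val_last] at h2
    omega
  have hk2 : kd d ≠ k0 d := by
    intro h
    have h2 := congrArg Fin.val (Sum.inl_injective h)
    simp only [Fin.val_last, Fin.val_zero] at h2
    omega
  have hk3 : (Sum.inl ⟨1, h1lt⟩ : Ix d) ≠ k0 d := by
    intro h
    have h2 := congrArg Fin.val (Sum.inl_injective h)
    simp only [Fin.val_zero] at h2
    omega
  -- the three sets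
  obtain ⟨Q, hQ⟩ : ∃ Q : ℕ → (Ix d → ℤ) → Prop, Q = fun p a => ∃ (_ : Fact p.Prime), 5 ≤ p ∧ L ≤ p ∧
      Bp p (A : ZMod p) (B : ZMod p) (fun k => ((a k : ℤ) : ZMod p)) ∧
      ∃ k, k ≠ k0 d ∧ ¬ (p : ℤ) ∣ a k := ⟨_, rfl⟩
  have f1 := fib1 kk H hH1 (fun a : Ix d → ℤ => a (kd d) ≠ 0 ∧ D A B a = 0)
    (fun a a' h h' hj => hD2 A B a a' hds h.1 hj h.2 h'.2)
  have f2 := fib2 (k0 d) H L M K hH1 hM hLM.le (D A B) (fun a a' hj => hD1 A B a a' hj) Q hK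
    (by
      intro p a hq
      rw [hQ] at hq
      obtain ⟨hp, h5, hLp, hb, -⟩ := hq
      exact ⟨hp.out, hLp, hD3 p A B a h5 hb⟩)
    (by
      intro p a a' hq hq' hj
      rw [hQ] at hq hq'
      obtain ⟨hp, h5, hLp, hb, k, hk, hpk⟩ := hq
      obtain ⟨_, _, _, hb', _⟩ := hq'
      have h2 : (fun k => ((a k : ℤ) : ZMod p)) = fun k => ((a' k : ℤ) : ZMod p) := by
        refine Bp_unique p (by omega) (A : ZMod p) (B : ZMod p) _ _ hb hb' ?_ ⟨k, hk, ?_⟩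
        · intro j hjk
          show ((a j : ℤ) : ZMod p) = ((a' j : ℤ) : ZMod p)
          rw [hj j hjk]
        · intro h0
          exact hpk ((ZMod.intCast_zmod_eq_zero_iff_dvd (a k) p).1 h0)
      have h3 : ((a' (k0 d) : ℤ) : ZMod p) = ((a (k0 d) : ℤ) : ZMod p) := (congrFun h2 (k0 d)).symm
      exact (ZMod.intCast_eq_intCast_iff_dvd_sub _ _ _).1 h3)
  have f3 := fib3 (kd d) (Sum.inl ⟨1, h1lt⟩) hk1 H L M hH1 hM hLM.le hL2
  rw [hcard] at f1 f2 f3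
  have hfin : ∀ R : (Ix d → ℤ) → Prop, {a : Ix d → ℤ | (∀ j, |a j| ≤ (H : ℤ)) ∧ R a}.Finite := by
    intro R
    exact Set.finite_coe_iff.1 (box_fin H R)
  have hsub : {a : Ix d → ℤ | Tm M H a ∧ ∃ (p : ℕ) (_ : Fact p.Prime), 5 ≤ p ∧ H < p * M ∧
      Bp p (A : ZMod p) (B : ZMod p) (fun k => ((a k : ℤ) : ZMod p))} ⊆
      {a : Ix d → ℤ | (∀ j, |a j| ≤ (H : ℤ)) ∧ (a (kd d) ≠ 0 ∧ D A B a = 0)} ∪
      ({a : Ix d → ℤ | (∀ j, |a j| ≤ (H : ℤ)) ∧ D A B a ≠ 0 ∧ ∃ p, Q p a} ∪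
      {a : Ix d → ℤ | (∀ j, |a j| ≤ (H : ℤ)) ∧ 0 < a (kd d) ∧
        ∃ p : ℕ, p.Prime ∧ L ≤ p ∧ (p : ℤ) ∣ a (kd d) ∧ (p : ℤ) ∣ a (Sum.inl ⟨1, h1lt⟩)}) := by
    rintro a ⟨⟨hbox, hpos, -⟩, p, hp, h5, hHp, hb⟩
    have hLp : L ≤ p := by
      have h1 : H / M < p := (Nat.div_lt_iff_lt_mul hMpos).2 hHp
      omega
    by_cases hD0 : D A B a = 0
    · exact Or.inl ⟨hbox, hpos.ne', hD0⟩
    · by_cases hex : ∃ k, k ≠ k0 d ∧ ¬ (p : ℤ) ∣ a k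
      · refine Or.inr (Or.inl ⟨hbox, hD0, p, ?_⟩)
        rw [hQ]
        exact ⟨hp, h5, hLp, hb, hex⟩
      · push Not at hex
        exact Or.inr (Or.inr ⟨hbox, hpos, p, hp.out, hLp, hex _ hk2, hex _ hk3⟩)
  have hle := (Set.ncard_le_ncard hsub ((hfin _).union ((hfin _).union (hfin _)))).trans
    ((Set.ncard_union_le _ _).trans (Nat.add_le_add_left (Set.ncard_union_le _ _) _))
  have hle2 : (Nat.card {a : Ix d → ℤ // Tm M H a ∧ ∃ (p : ℕ) (_ : Fact p.Prime), 5 ≤ p ∧ H < p * M ∧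
      Bp p (A : ZMod p) (B : ZMod p) (fun k => ((a k : ℤ) : ZMod p))} : ℝ) ≤
      (3 * (H : ℝ)) ^ (2 * d - 1) + ((3 * (H : ℝ)) ^ (2 * d - 1) * (K * (3 * M)) +
        (3 * (H : ℝ)) ^ (2 * d - 1) * (3 * M)) := by
    refine le_trans (Nat.cast_le.2 hle) ?_
    push_cast
    exact add_le_add f1 (add_le_add f2 f3)
  refine hle2.trans (le_of_eq ?_)
  rw [mul_pow]
  ring

end BLS
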