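import Pool.Agent.Lib.MP_10e784_agL.SE

/-!
# Products of elliptic curves: everywhere locally soluble double covers, the failure of the Hasse principle
-/

set_option autoImplicit false

namespace BLS

open Finset

/-- the indices of the basis of the sections of `O(2 d_1 O) ⊠ .. ⊠ O(2 d_g O)` on `E_1 × .. × E_g` -/
abbrev IxG {g : ℕ} (d : Fin g → ℕ) : Type := (l : Fin g) → Ix (d l)

/-- the double cover `w² = φ` of `E_1 × .. × E_g` has a point over the field `K` -/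
def SolG (K : Type) [Field K] {g : ℕ} (A B : Fin g → ℤ) (d : Fin g → ℕ) (a : IxG d → ℤ) : Prop :=
  ∃ P : Fin g → Option (K × K), (∀ l, PtK K (A l) (B l) (P l)) ∧
    IsSquare (∑ k, (a k : K) * ∏ l, basK K (d l) (P l) (k l))

/-- the index `k` at `l₀`, `x^{d_l}` elsewhere -/
def up {g : ℕ} (d : Fin g → ℕ) (l₀ : Fin g) (k : Ix (d l₀)) : IxG d := Function.update (fun l => kd (d l)) l₀ k

private theorem up_same {g : ℕ} (d : Fin g → ℕ) (l₀ : Fin g) (k : Ix (d l₀)) : up d l₀ k l₀ = k :=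
  Function.update_self _ _ _

private theorem up_ne {g : ℕ} (d : Fin g → ℕ) (l₀ : Fin g) (k : Ix (d l₀)) {l : Fin g} (h : l ≠ l₀) :
    up d l₀ k l = kd (d l) :=
  Function.update_of_ne h _ _

private theorem up_inj {g : ℕ} (d : Fin g → ℕ) (l₀ : Fin g) : Function.Injective (up d l₀) := by
  intro k k' h
  rw [← up_same d l₀ k, h, up_same]

private theorem basK_none {K : Type} [Field K] {d : ℕ} (k : Ix d) (h : k ≠ kd d) : basK K d none k = 0 := by
  rcases k with i | i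
  · show (if i = Fin.last d then (1 : K) else 0) = 0
    rw [if_neg]
    rintro rfl
    exact h rfl
  · rfl

private theorem basK_kd {K : Type} [Field K] (d : ℕ) : basK K d none (kd d) = 1 := by
  show (if Fin.last d = Fin.last d then (1 : K) else 0) = 1
  rw [if_pos rfl]

/-- the double cover of the product contains a double cover of the factor `l₀` -/
theorem sub_sol (K : Type) [Field K] {g : ℕ} (A B : Fin g → ℤ) (d : Fin g → ℕ) (l₀ : Fin g) (a : IxG d → ℤ)
    (h : Sol K (A l₀) (B l₀) (d l₀) (fun k => a (up d l₀ k))) : SolG K A B d a := by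
  obtain ⟨P₀, h1, h2⟩ := h
  refine ⟨fun l => if l = l₀ then P₀ else none, fun l => ?_, ?_⟩
  · show PtK K (A l) (B l) (if l = l₀ then P₀ else none)
    by_cases hl : l = l₀
    · subst hl
      rw [if_pos rfl]
      exact h1
    · rw [if_neg hl]
      trivial
  · have h3 : ∑ k : IxG d, (a k : K) * ∏ l, basK K (d l) (if l = l₀ then P₀ else none) (k l) =
        ∑ k, ((a (up d l₀ k) : ℤ) : K) * basK K (d l₀) P₀ k := by
      symm
      refine Fintype.sum_of_injective (up d l₀) (up_inj d l₀) _ _ ?_ ?_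
      · intro k hk
        have h4 : ∃ l, l ≠ l₀ ∧ k l ≠ kd (d l) := by
          by_contra h5
          push Not at h5
          refine hk ⟨k l₀, ?_⟩
          funext l
          by_cases hl : l = l₀
          · subst hl
            exact up_same d l (k l)
          · rw [up_ne d l₀ _ hl, h5 l hl]
        obtain ⟨l, hl, hkl⟩ := h4
        rw [prod_eq_zero (mem_univ l), mul_zero]
        rw [if_neg hl]
        exact basK_none (k l) hkl
      · intro k
        congr 1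
        rw [prod_eq_single l₀]
        · rw [if_pos rfl, up_same]
        · intro l _ hl
          rw [if_neg hl, up_ne d l₀ k hl]
          exact basK_kd (d l)
        · intro h5
          exact absurd (mem_univ _) h5
    rw [h3]
    exact h2

/-- the box -/
def BG {g : ℕ} (d : Fin g → ℕ) (H : ℕ) (z : (Fin g → ℤ × ℤ) × (IxG d → ℤ)) : Prop :=
  (∀ l, 4 * (z.1 l).1 ^ 3 + 27 * (z.1 l).2 ^ 2 ≠ 0) ∧ (∀ l, |(z.1 l).1| ≤ (H : ℤ) ^ 2) ∧
    (∀ l, |(z.1 l).2| ≤ (H : ℤ) ^ 3) ∧ ∀ k, |z.2 k| ≤ (H : ℤ)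

theorem BG_fin {g : ℕ} (d : Fin g → ℕ) (H : ℕ) (Q : (Fin g → ℤ × ℤ) × (IxG d → ℤ) → Prop) :
    Finite {z // BG d H z ∧ Q z} := by
  let f : {z // BG d H z ∧ Q z} → (Fin g → ((Icc (-(H : ℤ) ^ 2) ((H : ℤ) ^ 2) : Finset ℤ) ×
        (Icc (-(H : ℤ) ^ 3) ((H : ℤ) ^ 3) : Finset ℤ))) × (IxG d → (Icc (-(H : ℤ)) H : Finset ℤ)) :=
    fun z => (fun l => (⟨(z.1.1 l).1, mem_Icc.2 (abs_le.1 (z.2.1.2.1 l))⟩,
      ⟨(z.1.1 l).2, mem_Icc.2 (abs_le.1 (z.2.1.2.2.1 l))⟩),
      fun i => ⟨z.1.2 i, mem_Icc.2 (abs_le.1 (z.2.1.2.2.2 i))⟩)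
  have hf : Function.Injective f := by
    intro a b hab
    have h1 : a.1.1 = b.1.1 := by
      funext l
      have h2 : (a.1.1 l).1 = (b.1.1 l).1 := congrArg (fun w => ((w.1 l).1 : ℤ)) hab
      have h3 : (a.1.1 l).2 = (b.1.1 l).2 := congrArg (fun w => ((w.1 l).2 : ℤ)) hab
      exact Prod.ext h2 h3
    have h3 : a.1.2 = b.1.2 := by
      funext i
      exact congrArg (fun w => (w.2 i : ℤ)) hab
    exact Subtype.ext (Prod.ext h1 h3)
  exact Finite.of_injective f hf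

private theorem card_I (H : ℕ) : (H : ℝ) ≤ (Nat.card {x : ℤ // |x| ≤ (H : ℤ)} : ℝ) := by
  have h1 : Nat.card {x : ℤ // |x| ≤ (H : ℤ)} = (Icc (-(H : ℤ)) H).card := by
    rw [← Nat.card_eq_finsetCard]
    exact Nat.card_congr (Equiv.subtypeEquivRight fun x => by rw [mem_Icc, abs_le])
  rw [h1, Int.card_Icc]
  have h2 : (H : ℤ) + 1 - -(H : ℤ) = ((2 * H + 1 : ℕ) : ℤ) := by
    push_cast
    ring
  rw [h2, Int.toNat_natCast]
  push_cast
  have h3 : (0 : ℝ) ≤ H := Nat.cast_nonneg H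
  linarith

open Classical in
/-- a positive proportion of the double covers of products of elliptic curves is everywhere locally soluble -/
theorem loc_G {g : ℕ} (d : Fin g → ℕ) (hd : ∀ l, 1 ≤ d l) (l₀ : Fin g) (h2 : 2 ≤ d l₀) :
    ∃ (η : ℝ) (H0 : ℕ), 0 < η ∧ ∀ H : ℕ, H0 ≤ H → η * (H : ℝ) ^ (5 * g + ∏ l, (2 * d l)) ≤
      (Nat.card {z : (Fin g → ℤ × ℤ) × (IxG d → ℤ) // BG d H z ∧
        (SolG ℝ (fun l => (z.1 l).1) (fun l => (z.1 l).2) d z.2 ∧
          ∀ (p : ℕ) [Fact p.Prime], SolG ℚ_[p] (fun l => (z.1 l).1) (fun l => (z.1 l).2) d z.2)} : ℝ) := by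
  obtain ⟨η, H0, hη, hX⟩ := loc_all (d l₀) h2
  refine ⟨η, max H0 1, hη, fun H hH => ?_⟩
  have hH0 : H0 ≤ H := (le_max_left _ _).trans hH
  have hH1 : 1 ≤ H := (le_max_right _ _).trans hH
  have hX' := hX H hH0
  set X := {a : (ℤ × ℤ) × (Ix (d l₀) → ℤ) // 4 * a.1.1 ^ 3 + 27 * a.1.2 ^ 2 ≠ 0 ∧
      |a.1.1| ≤ (H : ℤ) ^ 2 ∧ |a.1.2| ≤ (H : ℤ) ^ 3 ∧ (∀ k, |a.2 k| ≤ (H : ℤ)) ∧
      Sol ℝ a.1.1 a.1.2 (d l₀) a.2 ∧ ∀ (p : ℕ) [Fact p.Prime], Sol ℚ_[p] a.1.1 a.1.2 (d l₀) a.2} with hXdef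
  set Y := {z : ℤ × ℤ // z ∈ (bx H).filter fun z => ds z.1 z.2 ≠ 0} with hYdef
  set I := {x : ℤ // |x| ≤ (H : ℤ)} with hIdef
  have hYc : (H : ℝ) ^ 5 ≤ (Nat.card Y : ℝ) := by
    rw [hYdef, Nat.card_eq_finsetCard]
    exact card_bx H hH1
  let F : X × ({l : Fin g // l ≠ l₀} → Y) × ({k : IxG d // k ∉ Set.range (up d l₀)} → I) →
      {z : (Fin g → ℤ × ℤ) × (IxG d → ℤ) // BG d H z ∧
        (SolG ℝ (fun l => (z.1 l).1) (fun l => (z.1 l).2) d z.2 ∧
          ∀ (p : ℕ) [Fact p.Prime], SolG ℚ_[p] (fun l => (z.1 l).1) (fun l => (z.1 l).2) d z.2)} :=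
    fun s => ⟨(fun l => if h : l = l₀ then s.1.1.1 else (s.2.1 ⟨l, h⟩).1,
      fun k => if h : k ∈ Set.range (up d l₀) then s.1.1.2 (k l₀) else (s.2.2 ⟨k, h⟩).1), by
      obtain ⟨x, y, w⟩ := s
      obtain ⟨⟨⟨A, B⟩, a⟩, x1, x2, x3, x4, x5, x6⟩ := x
      have hy : ∀ l (h : l ≠ l₀), ds (y ⟨l, h⟩).1.1 (y ⟨l, h⟩).1.2 ≠ 0 ∧ |(y ⟨l, h⟩).1.1| ≤ (H : ℤ) ^ 2 ∧
          |(y ⟨l, h⟩).1.2| ≤ (H : ℤ) ^ 3 := by
        intro l h
        obtain ⟨h3, h4⟩ := mem_filter.1 (y ⟨l, h⟩).2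
        obtain ⟨h5, h6⟩ := mem_product.1 h3
        exact ⟨h4, abs_le.2 (mem_Icc.1 h5), abs_le.2 (mem_Icc.1 h6)⟩
      have hsol : ∀ (K : Type) [Field K], Sol K A B (d l₀) a →
          SolG K (fun l => (if h : l = l₀ then (A, B) else (y ⟨l, h⟩).1).1)
            (fun l => (if h : l = l₀ then (A, B) else (y ⟨l, h⟩).1).2) d
            (fun k => if h : k ∈ Set.range (up d l₀) then a (k l₀) else (w ⟨k, h⟩).1) := by
        intro K _ h
        refine sub_sol K _ _ d l₀ _ ?_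
        have e1 : (fun k => (fun k : IxG d => if h : k ∈ Set.range (up d l₀) then a (k l₀) else (w ⟨k, h⟩).1)
            (up d l₀ k)) = a := by
          funext k
          show (if h : up d l₀ k ∈ Set.range (up d l₀) then a (up d l₀ k l₀) else (w ⟨up d l₀ k, h⟩).1) = a k
          rw [dif_pos ⟨k, rfl⟩, up_same]
        rw [e1]
        simp only [dif_pos]
        exact h
      refine ⟨⟨fun l => ?_, fun l => ?_, fun l => ?_, fun k => ?_⟩, hsol ℝ x5, fun p _ => hsol ℚ_[p] (x6 p)⟩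
      · show 4 * (if h : l = l₀ then (A, B) else (y ⟨l, h⟩).1).1 ^ 3 +
          27 * (if h : l = l₀ then (A, B) else (y ⟨l, h⟩).1).2 ^ 2 ≠ 0
        by_cases h : l = l₀
        · rw [dif_pos h]
          exact x1
        · rw [dif_neg h]
          exact (hy l h).1
      · show |(if h : l = l₀ then (A, B) else (y ⟨l, h⟩).1).1| ≤ (H : ℤ) ^ 2
        by_cases h : l = l₀
        · rw [dif_pos h]
          exact x2
        · rw [dif_neg h]
          exact (hy l h).2.1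
      · show |(if h : l = l₀ then (A, B) else (y ⟨l, h⟩).1).2| ≤ (H : ℤ) ^ 3
        by_cases h : l = l₀
        · rw [dif_pos h]
          exact x3
        · rw [dif_neg h]
          exact (hy l h).2.2
      · show |(if h : k ∈ Set.range (up d l₀) then a (k l₀) else (w ⟨k, h⟩).1)| ≤ (H : ℤ)
        by_cases h : k ∈ Set.range (up d l₀)
        · rw [dif_pos h]
          exact x4 _
        · rw [dif_neg h]
          exact (w ⟨k, h⟩).2⟩
  have hF : Function.Injective F := by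
    rintro ⟨x, y, w⟩ ⟨x', y', w'⟩ h
    have h1 := congrArg Subtype.val h
    have h3 : ∀ l, (if h : l = l₀ then x.1.1 else (y ⟨l, h⟩).1) = (if h : l = l₀ then x'.1.1 else (y' ⟨l, h⟩).1) :=
      fun l => congrFun (congrArg Prod.fst h1) l
    have h4 : ∀ k, (if h : k ∈ Set.range (up d l₀) then x.1.2 (k l₀) else (w ⟨k, h⟩).1) =
        (if h : k ∈ Set.range (up d l₀) then x'.1.2 (k l₀) else (w' ⟨k, h⟩).1) :=
      fun k => congrFun (congrArg Prod.snd h1) k
    have h5 : x = x' := by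
      refine Subtype.ext (Prod.ext ?_ ?_)
      · have := h3 l₀
        rwa [dif_pos rfl, dif_pos rfl] at this
      · funext k
        have := h4 (up d l₀ k)
        rw [dif_pos ⟨k, rfl⟩, dif_pos ⟨k, rfl⟩, up_same] at this
        exact this
    have h6 : y = y' := by
      funext l
      have := h3 l.1
      rw [dif_neg l.2, dif_neg l.2] at this
      exact Subtype.ext this
    have h7 : w = w' := by
      funext k
      have := h4 k.1
      rw [dif_neg k.2, dif_neg k.2] at this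
      exact Subtype.ext this
    rw [h5, h6, h7]
  have hfin := BG_fin d H (fun z => SolG ℝ (fun l => (z.1 l).1) (fun l => (z.1 l).2) d z.2 ∧
          ∀ (p : ℕ) [Fact p.Prime], SolG ℚ_[p] (fun l => (z.1 l).1) (fun l => (z.1 l).2) d z.2)
  have h8 := Nat.card_le_card_of_injective F hF
  rw [Nat.card_prod, Nat.card_prod, Nat.card_fun, Nat.card_fun] at h8
  have h9 : Nat.card {l : Fin g // l ≠ l₀} = g - 1 := by
    rw [Nat.card_eq_fintype_card, Fintype.card_subtype_compl, Fintype.card_fin, Fintype.card_subtype_eq]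
  have hIx : Fintype.card (Ix (d l₀)) = 2 * d l₀ := by
    rw [Fintype.card_sum, Fintype.card_fin, Fintype.card_fin]
    omega
  have hN : Fintype.card (IxG d) = ∏ l, (2 * d l) := by
    rw [Fintype.card_pi]
    refine prod_congr rfl fun l _ => ?_
    rw [Fintype.card_sum, Fintype.card_fin, Fintype.card_fin]
    have := hd l
    omega
  have h10 : Nat.card {k : IxG d // k ∉ Set.range (up d l₀)} + 2 * d l₀ = ∏ l, (2 * d l) := by
    have e1 : Nat.card {k : IxG d // k ∈ Set.range (up d l₀)} = 2 * d l₀ := by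
      rw [← hIx, ← Nat.card_eq_fintype_card]
      exact Nat.card_range_of_injective (up_inj d l₀)
    rw [← e1, ← hN, ← Nat.card_eq_fintype_card, add_comm, ← Nat.card_sum]
    exact Nat.card_congr (Equiv.sumCompl (fun k : IxG d => k ∈ Set.range (up d l₀)))
  have hg : 1 ≤ g := by
    have := l₀.2
    omega
  have h11 : (1 : ℝ) ≤ H := by exact_mod_cast hH1
  have h12 : ((Nat.card X * (Nat.card Y ^ Nat.card {l : Fin g // l ≠ l₀} *
      Nat.card I ^ Nat.card {k : IxG d // k ∉ Set.range (up d l₀)}) : ℕ) : ℝ) ≤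
      (Nat.card {z : (Fin g → ℤ × ℤ) × (IxG d → ℤ) // BG d H z ∧
        (SolG ℝ (fun l => (z.1 l).1) (fun l => (z.1 l).2) d z.2 ∧
          ∀ (p : ℕ) [Fact p.Prime], SolG ℚ_[p] (fun l => (z.1 l).1) (fun l => (z.1 l).2) d z.2)} : ℝ) := by
    exact_mod_cast h8
  refine le_trans ?_ h12
  push_cast
  rw [h9]
  set m := Nat.card {k : IxG d // k ∉ Set.range (up d l₀)} with hm
  have h13 : 5 * g + ∏ l, (2 * d l) = (2 * d l₀ + 5) + (5 * (g - 1) + m) := by omega
  have h14 : η * (H : ℝ) ^ (2 * d l₀ + 5 + (5 * (g - 1) + m)) =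
      η * (H : ℝ) ^ (2 * d l₀ + 5) * (((H : ℝ) ^ 5) ^ (g - 1) * (H : ℝ) ^ m) := by
    rw [← pow_mul, ← pow_add, mul_assoc, ← pow_add]
  rw [h13, h14]
  refine mul_le_mul hX' (mul_le_mul (pow_le_pow_left₀ (by positivity) hYc _)
    (pow_le_pow_left₀ (by positivity) (card_I H) _) (by positivity) (by positivity)) (by positivity) (by positivity)

/-- a density argument -/
private theorem GL_diff {α : Type} (P Q R : α → Prop) [Finite {a // P a ∧ Q a}] [Finite {a // P a ∧ R a}] :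
    (Nat.card {a // P a ∧ Q a} : ℝ) ≤ Nat.card {a // P a ∧ R a} + Nat.card {a // P a ∧ Q a ∧ ¬ R a} := by
  classical
  have hf : Finite {a // P a ∧ Q a ∧ ¬ R a} :=
    Finite.of_injective (fun a => (⟨a.1, a.2.1, a.2.2.1⟩ : {a // P a ∧ Q a})) fun a b h =>
      Subtype.ext (congrArg (fun z => z.1) h)
  let f : {a // P a ∧ Q a} → {a // P a ∧ R a} ⊕ {a // P a ∧ Q a ∧ ¬ R a} := fun a =>
    if h : R a.1 then .inl ⟨a.1, a.2.1, h⟩ else .inr ⟨a.1, a.2.1, a.2.2, h⟩
  have hinj : Function.Injective f := by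
    intro a b hab
    by_cases ha : R a.1 <;> by_cases hb : R b.1
    · have h1 := hab
      simp only [f, dif_pos ha, dif_pos hb, Sum.inl.injEq, Subtype.mk.injEq] at h1
      exact Subtype.ext h1
    · have h1 := hab
      simp only [f, dif_pos ha, dif_neg hb, reduceCtorEq] at h1
    · have h1 := hab
      simp only [f, dif_neg ha, dif_pos hb, reduceCtorEq] at h1
    · have h1 := hab
      simp only [f, dif_neg ha, dif_neg hb, Sum.inr.injEq, Subtype.mk.injEq] at h1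
      exact Subtype.ext h1
  have h1 := Nat.card_le_card_of_injective f hinj
  rw [Nat.card_sum] at h1
  exact_mod_cast h1

/-- a positive proportion of the double covers of products of elliptic curves violates the Hasse principle -/
theorem hp_G {c : ℝ} (hc : 0 < c) {g : ℕ} (d : Fin g → ℕ) (hd : ∀ l, 1 ≤ d l) (l₀ : Fin g) (h2 : 2 ≤ d l₀)
    (hA : ∃ C : ℝ, ∀ H : ℕ, 1 ≤ H → (Nat.card {z : (Fin g → ℤ × ℤ) × (IxG d → ℤ) // BG d H z ∧
      SolG ℚ (fun l => (z.1 l).1) (fun l => (z.1 l).2) d z.2} : ℝ) ≤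
      C * (H : ℝ) ^ (5 * g + ∏ l, (2 * d l)) * Real.exp (-(Real.log H) ^ c)) :
    ∃ (η : ℝ) (H0 : ℕ), 0 < η ∧ ∀ H : ℕ, H0 ≤ H → η * (H : ℝ) ^ (5 * g + ∏ l, (2 * d l)) ≤
      (Nat.card {z : (Fin g → ℤ × ℤ) × (IxG d → ℤ) // BG d H z ∧
        (SolG ℝ (fun l => (z.1 l).1) (fun l => (z.1 l).2) d z.2 ∧
          ∀ (p : ℕ) [Fact p.Prime], SolG ℚ_[p] (fun l => (z.1 l).1) (fun l => (z.1 l).2) d z.2) ∧
        ¬ SolG ℚ (fun l => (z.1 l).1) (fun l => (z.1 l).2) d z.2} : ℝ) := by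
  obtain ⟨η, H1, hη, h1⟩ := loc_G d hd l₀ h2
  obtain ⟨C, hC⟩ := hA
  obtain ⟨H2, h3⟩ := exp_small (C := C) hc (half_pos hη)
  refine ⟨η / 2, max H1 (max H2 1), half_pos hη, fun H hH => ?_⟩
  have a1 : H1 ≤ H := (le_max_left _ _).trans hH
  have a2 : H2 ≤ H := (le_max_left _ _).trans ((le_max_right _ _).trans hH)
  have a3 : 1 ≤ H := (le_max_right _ _).trans ((le_max_right _ _).trans hH)
  have := BG_fin d H
  have h4 := GL_diff (BG d H)
    (fun z => SolG ℝ (fun l => (z.1 l).1) (fun l => (z.1 l).2) d z.2 ∧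
      ∀ (p : ℕ) [Fact p.Prime], SolG ℚ_[p] (fun l => (z.1 l).1) (fun l => (z.1 l).2) d z.2)
    (fun z => SolG ℚ (fun l => (z.1 l).1) (fun l => (z.1 l).2) d z.2)
  have h5 := h1 H a1
  have h6 := hC H a3
  have h7 := h3 H a2
  have h8 : C * (H : ℝ) ^ (5 * g + ∏ l, (2 * d l)) * Real.exp (-(Real.log H) ^ c) ≤
      η / 2 * (H : ℝ) ^ (5 * g + ∏ l, (2 * d l)) := by
    calc C * (H : ℝ) ^ (5 * g + ∏ l, (2 * d l)) * Real.exp (-(Real.log H) ^ c) =
          C * Real.exp (-(Real.log H) ^ c) * (H : ℝ) ^ (5 * g + ∏ l, (2 * d l)) := by ring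
      _ ≤ η / 2 * (H : ℝ) ^ (5 * g + ∏ l, (2 * d l)) := mul_le_mul_of_nonneg_right h7 (by positivity)
  linarith

end BLS
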