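import Pool.Agent.Lib.MP_10e784_agL.HA

/-!
# LEAF HB: a smooth point modulo `p` lifts; the points over `O`

PROOF.  `sol_O`: `P = none`; the sum is `a (kd d)` (`basK`).
`sol_of_gp`: let `x, y, w` be the point modulo `p`.  Lift `x` to an integer `x₁`.  The integer `x₁³ + A x₁ + B` reduces to `y² ≠ 0`: `sq_unit` gives `s` in `ℤ_[p]` with `s² = x₁³ + A x₁ + B`, `toZMod s = y`.  The element `∑ a_i x₁^i + ∑ b_i x₁^i s` of `ℤ_[p]` reduces to `w² ≠ 0` (`pa`, `pb` evaluated at `x`): `sq_unit` again.  `P = some (x₁, s)` in `ℚ_[p]`.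
-/

set_option autoImplicit false

namespace BLS

open Polynomial

theorem sol_O (K : Type) [Field K] {d : ℕ} (A B : ℤ) (a : Ix d → ℤ) (h : IsSquare ((a (kd d) : ℤ) : K)) :
    Sol K A B d a := by
  refine ⟨none, trivial, ?_⟩
  have h1 : ∑ k, (a k : K) * basK K d none k = ((a (kd d) : ℤ) : K) := by
    rw [Fintype.sum_sum_type, Finset.sum_eq_single (Fin.last d)]
    · rw [Finset.sum_eq_zero fun i _ => by
        show ((a (.inr i) : ℤ) : K) * 0 = 0
        exact mul_zero _, add_zero]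
      show ((a (kd d) : ℤ) : K) * (if Fin.last d = Fin.last d then 1 else 0) = _
      rw [if_pos rfl, mul_one]
    · intro i _ hi
      show ((a (.inl i) : ℤ) : K) * (if i = Fin.last d then 1 else 0) = 0
      rw [if_neg hi, mul_zero]
    · intro h2
      exact absurd (Finset.mem_univ _) h2
  rw [h1]
  exact h

theorem sol_of_gp (p : ℕ) [Fact p.Prime] (hp : p ≠ 2) {d : ℕ} (A B : ℤ) (a : Ix d → ℤ)
    (h : Gp (A : ZMod p) (B : ZMod p) (fun k => ((a k : ℤ) : ZMod p))) : Sol ℚ_[p] A B d a := by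
  obtain ⟨x, y, w, hy, hw, hxy, hwe⟩ := h
  obtain ⟨u, hu⟩ : ∃ u : ℤ_[p], PadicInt.toZMod u = x :=
    ⟨(x.val : ℤ_[p]), by rw [map_natCast, ZMod.natCast_zmod_val]⟩
  obtain ⟨s, hs, hsy⟩ := sq_unit p hp (u ^ 3 + A * u + B) y hy (by
    rw [map_add, map_add, map_mul, map_pow, map_intCast, map_intCast, hu, hxy])
  obtain ⟨t, ht⟩ : ∃ t : ℤ_[p], t = (∑ i : Fin (d + 1), ((a (.inl i) : ℤ) : ℤ_[p]) * u ^ (i : ℕ)) +
      ∑ i : Fin (d - 1), ((a (.inr i) : ℤ) : ℤ_[p]) * (u ^ (i : ℕ) * s) := ⟨_, rfl⟩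
  have ht2 : PadicInt.toZMod t = w ^ 2 := by
    rw [hwe, ht, map_add, map_sum, map_sum]
    unfold pa pb
    rw [Polynomial.eval_finsetSum, Polynomial.eval_finsetSum, Finset.sum_mul]
    refine congrArg₂ (· + ·) (Finset.sum_congr rfl fun i _ => ?_) (Finset.sum_congr rfl fun i _ => ?_)
    · rw [Polynomial.eval_monomial, map_mul, map_pow, map_intCast, hu]
    · rw [Polynomial.eval_monomial, map_mul, map_mul, map_pow, map_intCast, hu, hsy, mul_assoc]
  obtain ⟨r, hr, -⟩ := sq_unit p hp t w hw ht2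
  refine ⟨some ((u : ℚ_[p]), (s : ℚ_[p])), ?_, ?_⟩
  · show (s : ℚ_[p]) ^ 2 = (u : ℚ_[p]) ^ 3 + (A : ℚ_[p]) * (u : ℚ_[p]) + (B : ℚ_[p])
    have h1 := congrArg (fun v : ℤ_[p] => (v : ℚ_[p])) hs
    push_cast at h1
    exact h1.symm
  · refine ⟨(r : ℚ_[p]), ?_⟩
    have h1 : ∑ k, ((a k : ℤ) : ℚ_[p]) * basK ℚ_[p] d (some ((u : ℚ_[p]), (s : ℚ_[p]))) k =
        (t : ℚ_[p]) := by
      have e : ∀ v : ℤ_[p], (v : ℚ_[p]) = PadicInt.Coe.ringHom v := fun _ => rfl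
      rw [Fintype.sum_sum_type, e t, ht, map_add, map_sum, map_sum]
      refine congrArg₂ (· + ·) (Finset.sum_congr rfl fun i _ => ?_) (Finset.sum_congr rfl fun i _ => ?_)
      · rw [map_mul, map_pow, map_intCast]
        rfl
      · rw [map_mul, map_mul, map_pow, map_intCast]
        rfl
    rw [h1, hr, PadicInt.coe_pow, sq]

end BLS
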