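import Pool.Agent.Lib.MP_10e784_agL.Defs

/-!
# LEAF IA: biquadratic polynomials over `K[X]`; the quartic model for `b ≠ 0`

PROOF.  `sq_dvd_sqf`: if `u = 0` then `s² g = 0` and `s = 0`.  Otherwise `e = gcd u s`, `u = e u'`, `s = e s'`, `IsCoprime u' s'`; `u'² ∣ s'² g`, so `u'² ∣ g` and `u'` is a unit.
`biq`: `F = X⁴ - 2 C a X² + C N` is monic of degree `4`; if it is not irreducible it has a monic factor of degree `1` or `2` (`Monic.irreducible_iff_natDegree'` or `Monic.irreducible_iff_lt_natDegree_lt`): a root `r`, or `F = (X² + α X + β) (X² + γ X + δ)`; compare the coefficients: `γ = -α`, `δ + β - α² = -2 a`, `α (δ - β) = 0`, `β δ = N`.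
`red_ne`: `(X² - C a)² - C (b² f) = X⁴ - 2 C a X² + C (a² - b² f)`.  (1) a root `r`: `(r² - a)² = b² f`, impossible: the degree of a nonzero square is even, that of `b² f` is odd.  (2) `β + δ = -2 a`, `β δ = a² - b² f`: `(β - δ)² = 4 b² f`, impossible for the same reason (the characteristic is not `2`).  (3) `α² = 2 (a + β)`, `β² = a² - b² f`: put `u = α / 2`: `a + β = 2 u²` and `(b m)² g = b² f = (a - β) (a + β) = 2 u² (a - β)`; `u ≠ 0` since `b² f ≠ 0`; so `u² ∣ (b m)² g`, `u ∣ b m` (`sq_dvd_sqf`), `b m = u t`, `t² g = 2 (a - β)`; `v = t / 2`: `a = ((a + β) + (a - β)) / 2 = u² + v² g` and `b m = 2 u v`.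
-/

set_option autoImplicit false

namespace BLS

open Polynomial

variable {K : Type} [Field K]

theorem sq_dvd_sqf {u s g : K[X]} (hg : Squarefree g) (h : u ^ 2 ∣ s ^ 2 * g) : u ∣ s := by
  classical
  by_cases hu : u = 0
  · subst hu
    rw [zero_pow two_ne_zero, zero_dvd_iff] at h
    rcases mul_eq_zero.1 h with h1 | h1
    · rw [pow_eq_zero_iff two_ne_zero] at h1
      rw [h1]
    · exact absurd h1 hg.ne_zero
  · obtain ⟨u', hu'⟩ := EuclideanDomain.gcd_dvd_left u s
    obtain ⟨s', hs'⟩ := EuclideanDomain.gcd_dvd_right u s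
    set e := EuclideanDomain.gcd u s with he
    have he0 : e ≠ 0 := by
      intro h0
      rw [h0, zero_mul] at hu'
      exact hu hu'
    have hcop : IsCoprime u' s' := by
      have h1 := EuclideanDomain.gcd_eq_gcd_ab u s
      rw [← he] at h1
      refine ⟨EuclideanDomain.gcdA u s, EuclideanDomain.gcdB u s, ?_⟩
      have h2 : e * (EuclideanDomain.gcdA u s * u' + EuclideanDomain.gcdB u s * s') = e * 1 := by
        rw [mul_one]
        calc e * (EuclideanDomain.gcdA u s * u' + EuclideanDomain.gcdB u s * s') =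
            (e * u') * EuclideanDomain.gcdA u s + (e * s') * EuclideanDomain.gcdB u s := by ring
          _ = u * EuclideanDomain.gcdA u s + s * EuclideanDomain.gcdB u s := by rw [← hu', ← hs']
          _ = e := h1.symm
      exact mul_left_cancel₀ he0 h2
    have h3 : u' ^ 2 ∣ s' ^ 2 * g := by
      have h4 : e ^ 2 * u' ^ 2 ∣ e ^ 2 * (s' ^ 2 * g) := by
        have e1 : e ^ 2 * u' ^ 2 = u ^ 2 := by rw [← mul_pow, ← hu']
        have e2 : e ^ 2 * (s' ^ 2 * g) = s ^ 2 * g := by rw [← mul_assoc, ← mul_pow, ← hs']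
        rw [e1, e2]
        exact h
      exact (mul_dvd_mul_iff_left (pow_ne_zero 2 he0)).1 h4
    have h5 : u' ^ 2 ∣ g := (IsCoprime.pow hcop).dvd_of_dvd_mul_left h3
    have h6 : IsUnit u' := hg u' (by rwa [← pow_two])
    obtain ⟨w, hw⟩ := h6.exists_right_inv
    refine ⟨w * s', ?_⟩
    rw [hs']
    calc e * s' = e * (u' * w) * s' := by rw [hw, mul_one]
      _ = (e * u') * (w * s') := by ring
      _ = u * (w * s') := by rw [← hu']

theorem biq (a N : K[X]) (h : ¬ Irreducible (X ^ 4 - 2 * C a * X ^ 2 + C N : K[X][X])) :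
    (∃ r : K[X], r ^ 4 - 2 * a * r ^ 2 + N = 0) ∨ (∃ β δ : K[X], β + δ = -2 * a ∧ β * δ = N) ∨
      (∃ α β : K[X], α ^ 2 = 2 * (a + β) ∧ β ^ 2 = N) := by
  have hF : (X ^ 4 - 2 * C a * X ^ 2 + C N : K[X][X]) = X ^ 4 - C (2 * a) * X ^ 2 + C N := by
    simp only [C_mul, map_ofNat]
  rw [hF] at h
  set F : K[X][X] := X ^ 4 - C (2 * a) * X ^ 2 + C N with hFdef
  have hFc : ∀ n, F.coeff n = (if n = 4 then 1 else 0) - 2 * a * (if n = 2 then 1 else 0) + (if n = 0 then N else 0) := by
    intro n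
    rw [hFdef, coeff_add, coeff_sub, coeff_X_pow, coeff_C_mul, coeff_X_pow, coeff_C]
  have hd : F.natDegree = 4 := by
    rw [hFdef]
    compute_degree!
  have hm : F.Monic := by
    rw [Monic, leadingCoeff, hd, hFc]
    norm_num
  rw [hm.irreducible_iff_natDegree'] at h
  have h1 : F ≠ 1 := by
    intro h0
    rw [h0, natDegree_one] at hd
    omega
  push Not at h
  obtain ⟨f, g, hf, hg, hfg, hg2⟩ := h h1
  rw [hd, Finset.mem_Ioc] at hg2
  have hfd : f.natDegree + g.natDegree = 4 := by
    rw [← hf.natDegree_mul hg, hfg, hd]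
  have hcase : g.natDegree = 1 ∨ g.natDegree = 2 := by omega
  rcases hcase with hg1 | hg1
  · -- a root
    left
    have hgX : g = X + C (g.coeff 0) := by
      have h2 := eq_X_add_C_of_natDegree_le_one hg1.le
      have h3 : g.coeff 1 = 1 := by
        have := hg.coeff_natDegree
        rwa [hg1] at this
      rw [h3, C_1, one_mul] at h2
      exact h2
    refine ⟨-g.coeff 0, ?_⟩
    have h4 : F.eval (-g.coeff 0) = 0 := by
      rw [← hfg, eval_mul]
      have h5 : g.eval (-g.coeff 0) = 0 := by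
        conv_lhs => rw [hgX]
        simp
      rw [h5, mul_zero]
    rw [hFdef] at h4
    simp only [eval_add, eval_sub, eval_mul, eval_pow, eval_X, eval_C] at h4
    exact h4
  · right
    have hf1 : f.natDegree = 2 := by omega
    have f2 : f.coeff 2 = 1 := by
      have := hf.coeff_natDegree
      rwa [hf1] at this
    have g2 : g.coeff 2 = 1 := by
      have := hg.coeff_natDegree
      rwa [hg1] at this
    have f3 : f.coeff 3 = 0 := coeff_eq_zero_of_natDegree_lt (by omega)
    have g3 : g.coeff 3 = 0 := coeff_eq_zero_of_natDegree_lt (by omega)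
    have c0 : f.coeff 0 * g.coeff 0 = N := by
      have h2 := hFc 0
      rw [← hfg, mul_coeff_zero] at h2
      simpa using h2
    have c1 : f.coeff 0 * g.coeff 1 + f.coeff 1 * g.coeff 0 = 0 := by
      have h2 := hFc 1
      rw [← hfg, coeff_mul, Finset.Nat.antidiagonal_succ] at h2
      simpa using h2
    have c2 : f.coeff 0 + f.coeff 1 * g.coeff 1 + g.coeff 0 = -(2 * a) := by
      have h2 := hFc 2
      rw [← hfg, coeff_mul] at h2
      simp [Finset.Nat.antidiagonal_succ, f2, g2] at h2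
      rw [← h2]
      ring
    have c3 : f.coeff 1 + g.coeff 1 = 0 := by
      have h2 := hFc 3
      rw [← hfg, coeff_mul] at h2
      simp [Finset.Nat.antidiagonal_succ, f2, g2, f3, g3] at h2
      exact h2
    have c4 : g.coeff 1 = -f.coeff 1 := by linear_combination c3
    rw [c4] at c1 c2
    have c5 : f.coeff 1 * (g.coeff 0 - f.coeff 0) = 0 := by linear_combination c1
    rcases mul_eq_zero.1 c5 with h2 | h2
    · left
      refine ⟨f.coeff 0, g.coeff 0, ?_, c0⟩
      rw [h2] at c2
      linear_combination c2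
    · right
      have h3 : g.coeff 0 = f.coeff 0 := by linear_combination h2
      refine ⟨f.coeff 1, f.coeff 0, ?_, ?_⟩
      · rw [h3] at c2
        linear_combination -c2
      · rw [← c0, h3]
        ring

private theorem ia_odd {f b w : K[X]} (hodd : Odd f.natDegree) (hb : b ≠ 0) : w ^ 2 ≠ b ^ 2 * f := by
  intro h
  have hf : f ≠ 0 := by
    rintro rfl
    rw [natDegree_zero] at hodd
    exact absurd hodd (by decide)
  have hw : w ≠ 0 := by
    rintro rfl
    rw [zero_pow two_ne_zero] at h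
    exact mul_ne_zero (pow_ne_zero 2 hb) hf h.symm
  have h1 := congrArg natDegree h
  rw [natDegree_pow, natDegree_mul (pow_ne_zero 2 hb) hf, natDegree_pow] at h1
  obtain ⟨k, hk⟩ := hodd
  omega

theorem red_ne (h2 : (2 : K) ≠ 0) {f m g a b : K[X]} (hf : f = m ^ 2 * g) (hg : Squarefree g)
    (hodd : Odd f.natDegree) (hb : b ≠ 0)
    (h : ¬ Irreducible ((X ^ 2 - C a) ^ 2 - C (b ^ 2 * f) : K[X][X])) :
    ∃ u v : K[X], a = u ^ 2 + v ^ 2 * g ∧ b * m = 2 * u * v := by
  have h2' : (2 : K[X]) ≠ 0 := by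
    rw [← map_ofNat (C : K →+* K[X]) 2]
    exact C_ne_zero.2 h2
  have hhalf : (2 : K[X]) * C (1 / 2 : K) = 1 := by
    rw [← map_ofNat (C : K →+* K[X]) 2, ← C_mul, mul_one_div, div_self h2, C_1]
  have hF : ((X ^ 2 - C a) ^ 2 - C (b ^ 2 * f) : K[X][X]) = X ^ 4 - 2 * C a * X ^ 2 + C (a ^ 2 - b ^ 2 * f) := by
    rw [C_sub, C_pow]
    ring
  rw [hF] at h
  rcases biq a _ h with ⟨r, hr⟩ | ⟨β, δ, h3, h4⟩ | ⟨α, β, h3, h4⟩
  · exact absurd (by linear_combination hr : (r ^ 2 - a) ^ 2 = b ^ 2 * f) (ia_odd hodd hb)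
  · refine absurd (?_ : (β - δ) ^ 2 = (2 * b) ^ 2 * f) (ia_odd hodd (mul_ne_zero h2' hb))
    linear_combination (β + δ - 2 * a) * h3 - 4 * h4
  · set u : K[X] := C (1 / 2 : K) * α with hu
    have hα : α = 2 * u := by
      rw [hu, ← mul_assoc, hhalf, one_mul]
    have e1 : a + β = 2 * u ^ 2 := by
      refine mul_left_cancel₀ h2' ?_
      rw [← h3, hα]
      ring
    have e2 : (b * m) ^ 2 * g = 2 * u ^ 2 * (a - β) := by
      rw [← e1]
      linear_combination h4 - b ^ 2 * hf
    have hf0 : f ≠ 0 := by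
      rintro rfl
      rw [natDegree_zero] at hodd
      exact absurd hodd (by decide)
    have hu0 : u ≠ 0 := by
      intro h0
      rw [h0] at e2
      have e3 : b ^ 2 * f = 0 := by
        rw [hf]
        linear_combination e2
      exact mul_ne_zero (pow_ne_zero 2 hb) hf0 e3
    have hdv : u ^ 2 ∣ (b * m) ^ 2 * g := ⟨2 * (a - β), by rw [e2]; ring⟩
    obtain ⟨t, ht⟩ := sq_dvd_sqf hg hdv
    have e4 : t ^ 2 * g = 2 * (a - β) := by
      refine mul_left_cancel₀ (pow_ne_zero 2 hu0) ?_
      rw [ht] at e2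
      linear_combination e2
    have ht2 : t = 2 * (C (1 / 2 : K) * t) := by
      rw [← mul_assoc, hhalf, one_mul]
    refine ⟨u, C (1 / 2 : K) * t, ?_, ?_⟩
    · set v : K[X] := C (1 / 2 : K) * t with hv
      have e5 : a - β = 2 * (v ^ 2 * g) := by
        refine mul_left_cancel₀ h2' ?_
        rw [← e4, ht2]
        ring
      refine mul_left_cancel₀ h2' ?_
      linear_combination e1 + e5
    · rw [ht]
      calc u * t = u * (2 * (C (1 / 2 : K) * t)) := by rw [← ht2]
        _ = 2 * u * (C (1 / 2 : K) * t) := by ring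

end BLS
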