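import Pool.Agent.Lib.MP_10e784_agL.IA

/-!
# LEAF IB: the quartic model for `b = 0`

PROOF.  `(X² - C (a + f))² - C (4 a f) = X⁴ - 2 C (a + f) X² + C ((a - f)²)`; `biq`.  (1) a root `r`: `(r² - (a + f))² = 4 a f`, so `a f = s²` with `s = (r² - a - f) / 2`.  (2) `β + δ = -2 (a + f)`, `β δ = (a - f)²`: `(β - δ)² = 16 a f`, `a f = s²` again.  (3) `β² = (a - f)²`, `β = ± (a - f)`, `α² = 2 (a + f + β)` is `4 a` or `4 f`; `4 f` is impossible (odd degree); `4 a`: `u = α / 2`, `v = 0`.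
If `a f = s²`: `a = 0` is trivial (`u = v = 0`).  Otherwise `m² ∣ s²`, `m ∣ s` (`m ≠ 0`), `s = m r`, `a g = r²`; `g ∣ r²` and `g` squarefree imply `g ∣ r`, `r = g t`, `a = t² g`: `u = 0`, `v = t`.
-/

set_option autoImplicit false

namespace BLS

open Polynomial

variable {K : Type} [Field K]

private theorem IB_half (h2 : (2 : K) ≠ 0) : ∃ h : K[X], 2 * h = 1 := by
  refine ⟨C (2 : K)⁻¹, ?_⟩
  have h1 : (2 : K[X]) = C (2 : K) := (C_ofNat 2).symm
  rw [h1, ← C_mul, mul_inv_cancel₀ h2, C_1]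

private theorem IB_sq {f m g a s : K[X]} (hf : f = m ^ 2 * g) (hg : Squarefree g)
    (hf0 : f ≠ 0) (hs : a * f = s ^ 2) :
    ∃ u v : K[X], a = u ^ 2 + v ^ 2 * g ∧ 0 = 2 * u * v := by
  have hm : m ≠ 0 := by
    rintro rfl
    exact hf0 (by rw [hf]; ring)
  have hg0 : g ≠ 0 := by
    rintro rfl
    exact hf0 (by rw [hf]; ring)
  have h1 : m ^ 2 ∣ s ^ 2 := ⟨a * g, by rw [← hs, hf]; ring⟩
  obtain ⟨r, hr⟩ := (IsIntegrallyClosed.pow_dvd_pow_iff two_ne_zero).1 h1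
  have h3 : a * g = r ^ 2 := by
    refine mul_left_cancel₀ (pow_ne_zero 2 hm) ?_
    rw [← mul_pow, ← hr, ← hs, hf]
    ring
  obtain ⟨t, ht⟩ := (hg.dvd_pow_iff_dvd two_ne_zero).1 (Dvd.intro_left a h3)
  refine ⟨0, t, ?_, by ring⟩
  refine mul_right_cancel₀ hg0 ?_
  rw [h3, ht]
  ring

theorem red_zero (h2 : (2 : K) ≠ 0) {f m g a : K[X]} (hf : f = m ^ 2 * g) (hg : Squarefree g)
    (hodd : Odd f.natDegree) (h : ¬ Irreducible ((X ^ 2 - C (a + f)) ^ 2 - C (4 * a * f) : K[X][X])) :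
    ∃ u v : K[X], a = u ^ 2 + v ^ 2 * g ∧ 0 = 2 * u * v := by
  obtain ⟨e, he⟩ := IB_half h2
  have hf0 : f ≠ 0 := by
    rintro rfl
    simp at hodd
  have h1 : ((X ^ 2 - C (a + f)) ^ 2 - C (4 * a * f) : K[X][X]) =
      X ^ 4 - 2 * C (a + f) * X ^ 2 + C ((a - f) ^ 2) := by
    have h4 : C (4 * a * f : K[X]) = C ((a + f) ^ 2) - C ((a - f) ^ 2) := by
      rw [← C_sub]
      congr 1
      ring
    rw [h4, C_pow]
    ring
  rw [h1] at h
  rcases biq _ _ h with ⟨r, hr⟩ | ⟨β, δ, hs, hp⟩ | ⟨α, β, ha, hb⟩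
  · refine IB_sq hf hg hf0 (s := e * (r ^ 2 - (a + f))) ?_
    have h5 : (r ^ 2 - (a + f)) ^ 2 = 4 * (a * f) := by linear_combination hr
    rw [mul_pow, h5]
    linear_combination (-(a * f) * (2 * e + 1)) * he
  · refine IB_sq hf hg hf0 (s := e ^ 2 * (β - δ)) ?_
    have h5 : (β - δ) ^ 2 = 16 * (a * f) := by
      linear_combination (β + δ - 2 * (a + f)) * hs - 4 * hp
    rw [mul_pow, h5]
    linear_combination (-(a * f) * (8 * e ^ 3 + 4 * e ^ 2 + 2 * e + 1)) * he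
  · have h6 : (β - (a - f)) * (β + (a - f)) = 0 := by linear_combination hb
    rcases mul_eq_zero.1 h6 with h7 | h7
    · refine ⟨e * α, 0, ?_, by ring⟩
      have h8 : α ^ 2 = 4 * a := by linear_combination ha + 2 * h7
      rw [mul_pow, h8]
      linear_combination (-a * (2 * e + 1)) * he
    · exfalso
      have h8 : α ^ 2 = 4 * f := by linear_combination ha + 2 * h7
      have h9 : f = (e * α) ^ 2 := by
        rw [mul_pow, h8]
        linear_combination (-f * (2 * e + 1)) * he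
      rw [h9, natDegree_pow] at hodd
      exact (Nat.not_odd_iff_even.2 (even_two_mul _)) hodd

end BLS
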