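import Pool.Agent.Lib.MP_10e784_agL.Defs
import Pool.Agent.Lib.MP_10e784_agBW.WO

/-!
# LEAF IC: an absolutely irreducible plane curve has at least `3 p / 4` points modulo `p`

PROOF.  `F ≠ 0`.  `monoW` (WM.lean of MP_10e784_agBW): `c`, `e ≠ 0`, `m ≤ n` with `Qn m F'`, `F' = C (C e) * shW c F`.  `shW c` over the closure is an automorphism (inverse `shW (-c)`) and commutes with `fK`, and `C (C e)` is a unit, so `fK p F'` is irreducible; in particular `m ≠ 0` (`Qn 0 F'` means `F' = 1`).  `stepW` (WK.lean): `3 p ≤ 4 #zeros of F'`; `(x, y) ↦ (x + c y, y)` sends the zeros of `F'` injectively to those of `F` (see the proof of `branch_pointsW` in WO.lean: `evB_self`, `evB_sh`).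
-/

set_option autoImplicit false

open Classical

namespace BLS

open Polynomial Finset

private theorem IC_inv {K : Type} [Field K] (c : K) :
    (HNW.shW c).comp (HNW.shW (-c)) = RingHom.id K[X][X] := by
  refine HNW.hom_ext2 (fun a => ?_) ?_ ?_
  · simp [HNW.shW]
  · simp [HNW.shW]
    ring
  · simp [HNW.shW]

private theorem IC_irr {K : Type} [Field K] (c : K) {G : K[X][X]} (hG : Irreducible G) :
    Irreducible (HNW.shW c G) := by
  have h1 := IC_inv c
  have h2 := IC_inv (-c)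
  rw [neg_neg] at h2
  exact (MulEquiv.irreducible_iff (RingEquiv.ofRingHom (HNW.shW c) (HNW.shW (-c)) h1 h2)).2 hG

private theorem IC_comm (p : ℕ) [Fact p.Prime] (c : ZMod p) (F : (ZMod p)[X][X]) :
    HNQ.fK p (HNW.shW c F) = HNW.shW (algebraMap (ZMod p) (AlgebraicClosure (ZMod p)) c) (HNQ.fK p F) := by
  have h : (mapRingHom (mapRingHom (algebraMap (ZMod p) (AlgebraicClosure (ZMod p))))).comp (HNW.shW c) =
      (HNW.shW (algebraMap (ZMod p) (AlgebraicClosure (ZMod p)) c)).comp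
        (mapRingHom (mapRingHom (algebraMap (ZMod p) (AlgebraicClosure (ZMod p))))) := by
    refine HNW.hom_ext2 (fun a => ?_) ?_ ?_
    · simp [HNW.shW]
    · simp [HNW.shW]
    · simp [HNW.shW]
  exact congrArg (fun φ : (ZMod p)[X][X] →+* (AlgebraicClosure (ZMod p))[X][X] => φ F) h

theorem zeros_ge (p : ℕ) [Fact p.Prime] {n : ℕ} (hp : 1000 * n ^ 6 ≤ p) (hn : 1 ≤ n)
    {F : (ZMod p)[X][X]} (hT : HNQ.TD n F) (hi : Irreducible (HNQ.fK p F)) :
    3 * p ≤ 4 * (univ.filter fun z : ZMod p × ZMod p => F.evalEval z.1 z.2 = 0).card := by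
  have hF : F ≠ 0 := by
    rintro rfl
    rw [HNQ.fK, Polynomial.map_zero] at hi
    exact not_irreducible_zero hi
  have hnp : n < p := by
    have h1 : n ≤ n ^ 6 := Nat.le_self_pow (by norm_num) n
    omega
  obtain ⟨c, e, d, he, hdn, hQ⟩ := HNW.monoW p hnp hF hT
  have hirr : Irreducible (HNQ.fK p (C (C e) * HNW.shW c F)) := by
    have h1 : HNQ.fK p (C (C e) * HNW.shW c F) =
        C (C (algebraMap (ZMod p) (AlgebraicClosure (ZMod p)) e)) * HNQ.fK p (HNW.shW c F) := by
      rw [HNQ.fK, HNQ.fK, Polynomial.map_mul, map_C, coe_mapRingHom, map_C]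
    rw [h1, IC_comm]
    have h2 : IsUnit (C (C (algebraMap (ZMod p) (AlgebraicClosure (ZMod p)) e)) :
        (AlgebraicClosure (ZMod p))[X][X]) :=
      ((isUnit_iff_ne_zero.2 ((_root_.map_ne_zero _).2 he)).map C).map C
    exact (irreducible_isUnit_mul h2).2 (IC_irr _ hi)
  have hd : 1 ≤ d := by
    rcases Nat.eq_zero_or_pos d with h0 | h0
    · exfalso
      have h1 : C (C e) * HNW.shW c F = 1 := by
        refine eq_one_of_monic_natDegree_zero hQ.mo ?_
        rw [hQ.dg, h0]
      rw [h1, HNQ.fK, Polynomial.map_one] at hirr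
      exact hirr.not_isUnit isUnit_one
    · exact h0
  have hst := HNW.stepW p hd ((Nat.mul_le_mul_left _ (Nat.pow_le_pow_left hdn 6)).trans hp) hQ hirr
  refine hst.trans (Nat.mul_le_mul_left 4 ?_)
  refine card_le_card_of_injOn (fun q : ZMod p × ZMod p => (q.1 + c * q.2, q.2)) ?_ ?_
  · intro q hq
    have h1 : (C (C e) * HNW.shW c F).evalEval q.1 q.2 = 0 := (mem_filter.1 hq).2
    have h2 : (C (C e) * HNW.shW c F).evalEval q.1 q.2 = e * F.evalEval (q.1 + c * q.2) q.2 := by
      rw [← HNW.evB_self, map_mul, HNW.evB_CC, HNW.evB_sh, HNW.evB_self]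
      rfl
    rw [h2] at h1
    exact mem_filter.2 ⟨mem_univ _, (mul_eq_zero.1 h1).resolve_left he⟩
  · rintro ⟨x, y⟩ _ ⟨x', y'⟩ _ h
    simp only [Prod.mk.injEq] at h
    obtain ⟨h1, h2⟩ := h
    subst h2
    rw [add_left_inj] at h1
    rw [h1]

end BLS
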