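import Pool.Agent.Lib.MP_10e784_agL.MA

/-!
# LEAF SA: the primes which divide the discriminant, on average; the number of the curves

PROOF.  `bx H = Icc (-H²) H² ×ˢ Icc (-H³) H³`.
`sum_pd`: exchange the sums: `∑_(P0 < p ≤ H) (1 / p) #{(A, B) ∈ bx H : p ∣ 4 A³ + 27 B²}`.  For each `A` the class of `B` modulo `p` takes at most two values (`27` is invertible, `p ≥ 5`): at most `(2 H² + 1) 2 (2 H³ / p + 1) ≤ 3 H² 2 · 3 H³ / p = 18 H^5 / p` (`p ≤ H ≤ H³`, `H ≥ 1`; `card_ap` with `H³`).  `∑_(p > P0) 1 / p² ≤ 1 / P0` (as in MB; copy the telescoping).  `C2 = 18`.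
`card_bx`: the pairs with `ds A B ≠ 0`: for each `A` at most two `B` with `27 B² = -4 A³`: at least `(2 H² + 1) (2 H³ + 1 - 2) ≥ H^5` (`H ≥ 1`).
`card_bx_le`: `(2 H² + 1) (2 H³ + 1) ≤ 9 H^5`.
-/

set_option autoImplicit false

namespace BLS

open Finset

/-- the box of the coefficients of the curves -/
noncomputable def bx (H : ℕ) : Finset (ℤ × ℤ) :=
  (Icc (-(H : ℤ) ^ 2) ((H : ℤ) ^ 2)) ×ˢ (Icc (-(H : ℤ) ^ 3) ((H : ℤ) ^ 3))

private theorem SA_card (H k : ℕ) : (Icc (-(H : ℤ) ^ k) ((H : ℤ) ^ k)).card = 2 * H ^ k + 1 := by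
  rw [Int.card_Icc]
  have h : (H : ℤ) ^ k + 1 - -(H : ℤ) ^ k = ((2 * H ^ k + 1 : ℕ) : ℤ) := by
    push_cast
    ring
  rw [h, Int.toNat_natCast]

private theorem SA_dvd {p : ℕ} (hp : p.Prime) (h5 : 5 ≤ p) {A B B0 : ℤ} (h : (p : ℤ) ∣ ds A B)
    (h0 : (p : ℤ) ∣ ds A B0) : (p : ℤ) ∣ B0 - B ∨ (p : ℤ) ∣ -B0 - B := by
  have hp' : Prime (p : ℤ) := Nat.prime_iff_prime_int.1 hp
  have h1 : (p : ℤ) ∣ 27 * ((B0 - B) * (-B0 - B)) := by
    have h2 : 27 * ((B0 - B) * (-B0 - B)) = ds A B - ds A B0 := by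
      rw [ds, ds]
      ring
    rw [h2]
    exact dvd_sub h h0
  rcases hp'.dvd_mul.1 h1 with h2 | h2
  · exfalso
    have h3 : p ∣ 3 ^ 3 := by
      have : (p : ℤ) ∣ ((27 : ℕ) : ℤ) := h2
      exact Int.natCast_dvd_natCast.1 this
    have h4 := Nat.le_of_dvd (by norm_num) (hp.dvd_of_dvd_pow h3)
    omega
  · exact hp'.dvd_mul.1 h2

private theorem SA_col (p : ℕ) (hp : p.Prime) (h5 : 5 ≤ p) (H : ℕ) (A : ℤ) :
    (((Icc (-(H : ℤ) ^ 3) ((H : ℤ) ^ 3)).filter fun B => (p : ℤ) ∣ ds A B).card : ℝ) ≤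
      2 * (2 * (H : ℝ) ^ 3 / p + 1) := by
  have hT : ∀ c : ZMod p, (((Icc (-(H : ℤ) ^ 3) ((H : ℤ) ^ 3)).filter fun B : ℤ => ((B : ℤ) : ZMod p) = c).card : ℝ) ≤
      2 * (H : ℝ) ^ 3 / p + 1 := by
    intro c
    have h1 := card_ap p (H ^ 3) (by omega) c
    rw [Nat.subtype_card ((Icc (-(H : ℤ) ^ 3) ((H : ℤ) ^ 3)).filter fun B : ℤ => ((B : ℤ) : ZMod p) = c)
      (fun x => by
        rw [mem_filter, mem_Icc, abs_le]
        push_cast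
        rfl)] at h1
    push_cast at h1
    exact h1
  rcases (((Icc (-(H : ℤ) ^ 3) ((H : ℤ) ^ 3)).filter fun B => (p : ℤ) ∣ ds A B)).eq_empty_or_nonempty with h0 | ⟨B0, h0⟩
  · rw [h0, card_empty, Nat.cast_zero]
    positivity
  · have hB0 := (mem_filter.1 h0).2
    have hsub : ((Icc (-(H : ℤ) ^ 3) ((H : ℤ) ^ 3)).filter fun B => (p : ℤ) ∣ ds A B) ⊆
        ((Icc (-(H : ℤ) ^ 3) ((H : ℤ) ^ 3)).filter fun B : ℤ => ((B : ℤ) : ZMod p) = ((B0 : ℤ) : ZMod p)) ∪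
        ((Icc (-(H : ℤ) ^ 3) ((H : ℤ) ^ 3)).filter fun B : ℤ => ((B : ℤ) : ZMod p) = ((-B0 : ℤ) : ZMod p)) := by
      intro B hB
      obtain ⟨hB1, hB2⟩ := mem_filter.1 hB
      rw [mem_union, mem_filter, mem_filter, ZMod.intCast_eq_intCast_iff_dvd_sub,
        ZMod.intCast_eq_intCast_iff_dvd_sub]
      rcases SA_dvd hp h5 hB2 hB0 with h | h
      · exact Or.inl ⟨hB1, h⟩
      · exact Or.inr ⟨hB1, h⟩
    have h1 : (((Icc (-(H : ℤ) ^ 3) ((H : ℤ) ^ 3)).filter fun B => (p : ℤ) ∣ ds A B).card : ℝ) ≤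
        (((Icc (-(H : ℤ) ^ 3) ((H : ℤ) ^ 3)).filter fun B : ℤ => ((B : ℤ) : ZMod p) = ((B0 : ℤ) : ZMod p)).card : ℝ) +
        (((Icc (-(H : ℤ) ^ 3) ((H : ℤ) ^ 3)).filter fun B : ℤ => ((B : ℤ) : ZMod p) = ((-B0 : ℤ) : ZMod p)).card : ℝ) := by
      exact_mod_cast (card_le_card hsub).trans (card_union_le _ _)
    have h2 := hT ((B0 : ℤ) : ZMod p)
    have h3 := hT ((-B0 : ℤ) : ZMod p)
    linarith

private theorem SA_tel (P0 H : ℕ) (hP : 1 ≤ P0) : ∑ n ∈ Icc (P0 + 1) H, (1 : ℝ) / (n : ℝ) ^ 2 ≤ 1 / P0 := by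
  have hP' : (0 : ℝ) < P0 := by exact_mod_cast hP
  rcases Nat.lt_or_ge H P0 with h | h
  · rw [Icc_eq_empty (by omega), sum_empty]
    positivity
  · have key : ∀ m : ℕ, P0 ≤ m → ∑ n ∈ Icc (P0 + 1) m, (1 : ℝ) / (n : ℝ) ^ 2 ≤ 1 / P0 - 1 / m := by
      intro m hm
      induction m, hm using Nat.le_induction with
      | base => rw [Icc_eq_empty (by omega), sum_empty, sub_self]
      | succ m hm ih =>
        have hm' : (0 : ℝ) < m := by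
          have : 0 < m := by omega
          exact_mod_cast this
        rw [sum_Icc_succ_top (by omega)]
        have h1 : (1 : ℝ) / ((m + 1 : ℕ) : ℝ) ^ 2 ≤ 1 / m - 1 / ((m + 1 : ℕ) : ℝ) := by
          push_cast
          rw [div_sub_div _ _ hm'.ne' (by positivity), div_le_div_iff₀ (by positivity) (by positivity)]
          nlinarith
        linarith
    have h1 := key H h
    have h2 : (0 : ℝ) ≤ 1 / H := by positivity
    linarith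

theorem sum_pd : ∃ C2 : ℝ, 0 < C2 ∧ ∀ P0 H : ℕ, 4 ≤ P0 → 1 ≤ H →
    ∑ z ∈ bx H, ∑ p ∈ (Icc (P0 + 1) H).filter (fun p : ℕ => p.Prime ∧ (p : ℤ) ∣ ds z.1 z.2), (1 : ℝ) / p ≤
      C2 * (H : ℝ) ^ 5 / P0 := by
  refine ⟨18, by norm_num, fun P0 H hP hH => ?_⟩
  have hH' : (1 : ℝ) ≤ H := by exact_mod_cast hH
  have h1 : ∑ z ∈ bx H, ∑ p ∈ (Icc (P0 + 1) H).filter (fun p : ℕ => p.Prime ∧ (p : ℤ) ∣ ds z.1 z.2), (1 : ℝ) / p =
      ∑ p ∈ Icc (P0 + 1) H, ∑ z ∈ bx H, if p.Prime ∧ (p : ℤ) ∣ ds z.1 z.2 then (1 : ℝ) / p else 0 := by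
    rw [sum_comm]
    exact sum_congr rfl fun z _ => sum_filter _ _
  rw [h1]
  have h2 : ∀ p ∈ Icc (P0 + 1) H, (∑ z ∈ bx H, if p.Prime ∧ (p : ℤ) ∣ ds z.1 z.2 then (1 : ℝ) / p else 0) ≤
      18 * (H : ℝ) ^ 5 * (1 / (p : ℝ) ^ 2) := by
    intro p hp
    obtain ⟨hp1, hp2⟩ := mem_Icc.1 hp
    have hp0 : (0 : ℝ) < p := by
      have : 0 < p := by omega
      exact_mod_cast this
    by_cases hpp : p.Prime
    · have h3 : (∑ z ∈ bx H, if p.Prime ∧ (p : ℤ) ∣ ds z.1 z.2 then (1 : ℝ) / p else 0) =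
          ∑ A ∈ Icc (-(H : ℤ) ^ 2) ((H : ℤ) ^ 2),
            (((Icc (-(H : ℤ) ^ 3) ((H : ℤ) ^ 3)).filter fun B => (p : ℤ) ∣ ds A B).card : ℝ) * (1 / p) := by
        rw [bx, sum_product]
        refine sum_congr rfl fun A _ => ?_
        rw [← nsmul_eq_mul, ← sum_const, sum_filter]
        refine sum_congr rfl fun B _ => ?_
        simp only [hpp, true_and]
      rw [h3]
      have hpH : (p : ℝ) ≤ (H : ℝ) ^ 3 := by
        have : (p : ℝ) ≤ H := by exact_mod_cast hp2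
        exact this.trans (le_self_pow₀ hH' (by norm_num))
      have h4 : ∀ A ∈ Icc (-(H : ℤ) ^ 2) ((H : ℤ) ^ 2),
          (((Icc (-(H : ℤ) ^ 3) ((H : ℤ) ^ 3)).filter fun B => (p : ℤ) ∣ ds A B).card : ℝ) * (1 / p) ≤
            6 * (H : ℝ) ^ 3 * (1 / (p : ℝ) ^ 2) := by
        intro A _
        have h5 := SA_col p hpp (by omega) H A
        have h6 : 2 * (2 * (H : ℝ) ^ 3 / p + 1) ≤ 6 * (H : ℝ) ^ 3 / p := by
          have h7 : (1 : ℝ) ≤ (H : ℝ) ^ 3 / p := (one_le_div hp0).2 hpH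
          have h8 : 2 * (2 * (H : ℝ) ^ 3 / p + 1) = 4 * ((H : ℝ) ^ 3 / p) + 2 := by ring
          have h9 : 6 * (H : ℝ) ^ 3 / p = 6 * ((H : ℝ) ^ 3 / p) := by ring
          rw [h8, h9]
          linarith
        calc (((Icc (-(H : ℤ) ^ 3) ((H : ℤ) ^ 3)).filter fun B => (p : ℤ) ∣ ds A B).card : ℝ) * (1 / p)
            ≤ 6 * (H : ℝ) ^ 3 / p * (1 / p) := mul_le_mul_of_nonneg_right (h5.trans h6) (by positivity)
          _ = 6 * (H : ℝ) ^ 3 * (1 / (p : ℝ) ^ 2) := by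
            rw [sq]
            field_simp
      refine (sum_le_sum h4).trans ?_
      rw [sum_const, nsmul_eq_mul, SA_card]
      push_cast
      have h10 : (2 * (H : ℝ) ^ 2 + 1) ≤ 3 * (H : ℝ) ^ 2 := by
        have : (1 : ℝ) ≤ (H : ℝ) ^ 2 := one_le_pow₀ hH'
        linarith
      calc (2 * (H : ℝ) ^ 2 + 1) * (6 * (H : ℝ) ^ 3 * (1 / (p : ℝ) ^ 2))
          ≤ 3 * (H : ℝ) ^ 2 * (6 * (H : ℝ) ^ 3 * (1 / (p : ℝ) ^ 2)) :=
            mul_le_mul_of_nonneg_right h10 (by positivity)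
        _ = 18 * (H : ℝ) ^ 5 * (1 / (p : ℝ) ^ 2) := by ring
    · have h3 : (∑ z ∈ bx H, if p.Prime ∧ (p : ℤ) ∣ ds z.1 z.2 then (1 : ℝ) / p else 0) = 0 :=
        sum_eq_zero fun z _ => if_neg fun h => hpp h.1
      rw [h3]
      positivity
  refine (sum_le_sum h2).trans ?_
  rw [← mul_sum]
  calc 18 * (H : ℝ) ^ 5 * ∑ n ∈ Icc (P0 + 1) H, (1 : ℝ) / (n : ℝ) ^ 2
      ≤ 18 * (H : ℝ) ^ 5 * (1 / P0) := mul_le_mul_of_nonneg_left (SA_tel P0 H (by omega)) (by positivity)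
    _ = 18 * (H : ℝ) ^ 5 / P0 := by ring

private theorem SA_two (H : ℕ) (A : ℤ) :
    ((Icc (-(H : ℤ) ^ 3) ((H : ℤ) ^ 3)).filter fun B => ds A B = 0).card ≤ 2 := by
  rcases (((Icc (-(H : ℤ) ^ 3) ((H : ℤ) ^ 3)).filter fun B => ds A B = 0)).eq_empty_or_nonempty with h0 | ⟨B0, h0⟩
  · rw [h0, card_empty]
    norm_num
  · have hB0 := (mem_filter.1 h0).2
    refine (card_le_card (t := {B0, -B0}) ?_).trans card_le_two
    intro B hB
    have hB2 := (mem_filter.1 hB).2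
    rw [ds] at hB0 hB2
    have h1 : B ^ 2 = B0 ^ 2 := by linarith
    rw [mem_insert, mem_singleton]
    exact sq_eq_sq_iff_eq_or_eq_neg.1 h1

theorem card_bx (H : ℕ) (hH : 1 ≤ H) : (H : ℝ) ^ 5 ≤ (((bx H).filter fun z => ds z.1 z.2 ≠ 0).card : ℝ) := by
  have h1 : ((bx H).filter fun z => ds z.1 z.2 ≠ 0).card =
      ∑ A ∈ Icc (-(H : ℤ) ^ 2) ((H : ℤ) ^ 2), ((Icc (-(H : ℤ) ^ 3) ((H : ℤ) ^ 3)).filter fun B => ds A B ≠ 0).card := by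
    rw [bx, card_filter, sum_product]
    exact sum_congr rfl fun A _ => (card_filter _ _).symm
  have h2 : ∀ A ∈ Icc (-(H : ℤ) ^ 2) ((H : ℤ) ^ 2),
      H ^ 3 ≤ ((Icc (-(H : ℤ) ^ 3) ((H : ℤ) ^ 3)).filter fun B => ds A B ≠ 0).card := by
    intro A _
    have h3 : ((Icc (-(H : ℤ) ^ 3) ((H : ℤ) ^ 3)).filter fun B => ds A B = 0).card +
        ((Icc (-(H : ℤ) ^ 3) ((H : ℤ) ^ 3)).filter fun B => ds A B ≠ 0).card = 2 * H ^ 3 + 1 := by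
      rw [← SA_card]
      exact card_filter_add_card_filter_not _
    have h4 := SA_two H A
    have h5 : 1 ≤ H ^ 3 := Nat.one_le_pow _ _ hH
    omega
  have h6 : H ^ 5 ≤ ((bx H).filter fun z => ds z.1 z.2 ≠ 0).card := by
    rw [h1]
    calc H ^ 5 ≤ (2 * H ^ 2 + 1) * H ^ 3 := by
          have : H ^ 5 = H ^ 2 * H ^ 3 := by ring
          rw [this]
          exact Nat.mul_le_mul_right _ (by omega)
      _ = ∑ _A ∈ Icc (-(H : ℤ) ^ 2) ((H : ℤ) ^ 2), H ^ 3 := by rw [sum_const, smul_eq_mul, SA_card]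
      _ ≤ _ := sum_le_sum h2
  exact_mod_cast h6

theorem card_bx_le (H : ℕ) (hH : 1 ≤ H) : ((bx H).card : ℝ) ≤ 9 * (H : ℝ) ^ 5 := by
  have h1 : (bx H).card ≤ 9 * H ^ 5 := by
    rw [bx, card_product, SA_card, SA_card]
    have h2 : 1 ≤ H ^ 2 := Nat.one_le_pow _ _ hH
    have h3 : 1 ≤ H ^ 3 := Nat.one_le_pow _ _ hH
    calc (2 * H ^ 2 + 1) * (2 * H ^ 3 + 1) ≤ (3 * H ^ 2) * (3 * H ^ 3) :=
          Nat.mul_le_mul (by omega) (by omega)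
      _ = 9 * H ^ 5 := by ring
  exact_mod_cast h1

end BLS
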