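import Pool.Agent.Lib.MP_10e784_agL.MB
import Pool.Agent.Lib.MP_10e784_agL.GE
import Pool.Agent.Lib.MP_10e784_agL.SA
import Pool.Agent.Lib.MP_10e784_agL.SB
import Pool.Agent.Lib.MP_10e784_agL.TL

/-!
# LEAF SC: the number of everywhere locally soluble double covers of one curve

PROOF.  `M = 8 P0!`.  `{Tm} ⊆ {ELS} ∪ {bad at a prime P0 < p ≤ H / M} ∪ {bad at a prime p > H / M}` (`els`): `card_Tm ≤ E + mid + big` (`coprime_fac` for `mid`; `p > P0 ≥ 4` gives `5 ≤ p`).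
-/

set_option autoImplicit false

namespace BLS

open Finset

/-- the number of the everywhere locally soluble double covers `w² = φ`, `φ` in the box -/
noncomputable def nE (d H : ℕ) (A B : ℤ) : ℕ :=
  Nat.card {a : Ix d → ℤ // (∀ k, |a k| ≤ (H : ℤ)) ∧ Sol ℝ A B d a ∧ ∀ (p : ℕ) [Fact p.Prime], Sol ℚ_[p] A B d a}

theorem one_curve (d : ℕ) (hd : 2 ≤ d) : ∃ (C1 : ℝ) (P1 : ℕ), 0 < C1 ∧ 4 ≤ P1 ∧ ∀ P0 : ℕ, P1 ≤ P0 →
    ∃ (C : ℝ) (H0 : ℕ), 0 < C ∧ ∀ H : ℕ, H0 ≤ H → ∀ A B : ℤ, |A| ≤ (H : ℤ) ^ 2 → |B| ≤ (H : ℤ) ^ 3 → ds A B ≠ 0 →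
      (H : ℝ) ^ (2 * d) / (8 * P0.factorial : ℕ) * (1 - C1 * (1 / P0 +
        ∑ p ∈ (Icc (P0 + 1) H).filter (fun p : ℕ => p.Prime ∧ (p : ℤ) ∣ ds A B), (1 : ℝ) / p)) -
        C * (H : ℝ) ^ (2 * d - 1) ≤ nE d H A B := by
  obtain ⟨P1, hP1, hels⟩ := els d
  obtain ⟨C1, hC1, hmid⟩ := mid d hd
  refine ⟨C1, P1, hC1, hP1, fun P0 hP0 => ?_⟩
  have hM : 1 ≤ 8 * P0.factorial := Nat.mul_pos (by norm_num) (Nat.factorial_pos P0)
  obtain ⟨C, H0, hC, hbig⟩ := big d hd (8 * P0.factorial) hM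
  refine ⟨C, H0, hC, fun H hH A B hA hB hds => ?_⟩
  have h4 : 4 ≤ P0 := hP1.trans hP0
  have hmid' := hmid P0 (8 * P0.factorial) H h4 hM (fun p hp hlt => coprime_fac P0 p h4 hp hlt) A B
  have hbig' := hbig H hH A B hA hB hds
  have hT := card_Tm d (8 * P0.factorial) H (by omega) hM
  have hcard : Nat.card {a : Ix d → ℤ // Tm (8 * P0.factorial) H a} ≤ nE d H A B +
      (Nat.card {a : Ix d → ℤ // Tm (8 * P0.factorial) H a ∧ ∃ (p : ℕ) (_ : Fact p.Prime), P0 < p ∧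
        p * (8 * P0.factorial) ≤ H ∧ Bp p (A : ZMod p) (B : ZMod p) (fun k => ((a k : ℤ) : ZMod p))} +
      Nat.card {a : Ix d → ℤ // Tm (8 * P0.factorial) H a ∧ ∃ (p : ℕ) (_ : Fact p.Prime), 5 ≤ p ∧
        H < p * (8 * P0.factorial) ∧
        Bp p (A : ZMod p) (B : ZMod p) (fun k => ((a k : ℤ) : ZMod p))}) := by
    have hbox : {a : Ix d → ℤ | ∀ k, |a k| ≤ (H : ℤ)}.Finite := by
      have h1 : Finite {a : Ix d → ℤ // (∀ k, |a k| ≤ (H : ℤ)) ∧ True} := box_fin H (fun _ => True)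
      have h2 : {a : Ix d → ℤ | (∀ k, |a k| ≤ (H : ℤ)) ∧ True}.Finite := Set.finite_coe_iff.1 h1
      exact h2.subset (fun a ha => ⟨ha, trivial⟩)
    have hsub : {a : Ix d → ℤ | Tm (8 * P0.factorial) H a} ⊆
        {a : Ix d → ℤ | (∀ k, |a k| ≤ (H : ℤ)) ∧ Sol ℝ A B d a ∧
          ∀ (p : ℕ) [Fact p.Prime], Sol ℚ_[p] A B d a} ∪
        ({a : Ix d → ℤ | Tm (8 * P0.factorial) H a ∧ ∃ (p : ℕ) (_ : Fact p.Prime), P0 < p ∧
          p * (8 * P0.factorial) ≤ H ∧ Bp p (A : ZMod p) (B : ZMod p) (fun k => ((a k : ℤ) : ZMod p))} ∪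
        {a : Ix d → ℤ | Tm (8 * P0.factorial) H a ∧ ∃ (p : ℕ) (_ : Fact p.Prime), 5 ≤ p ∧
          H < p * (8 * P0.factorial) ∧
          Bp p (A : ZMod p) (B : ZMod p) (fun k => ((a k : ℤ) : ZMod p))}) := by
      intro a ha
      by_cases hb : ∃ (p : ℕ) (_ : Fact p.Prime), P0 < p ∧
          Bp p (A : ZMod p) (B : ZMod p) (fun k => ((a k : ℤ) : ZMod p))
      · obtain ⟨p, hp, hlt, hBp⟩ := hb
        right
        rcases le_or_gt (p * (8 * P0.factorial)) H with hle | hgt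
        · left
          exact ⟨ha, p, hp, hlt, hle, hBp⟩
        · right
          exact ⟨ha, p, hp, by omega, hgt, hBp⟩
      · left
        have hb' : ∀ (p : ℕ) (_ : Fact p.Prime), P0 < p →
            ¬ Bp p (A : ZMod p) (B : ZMod p) (fun k => ((a k : ℤ) : ZMod p)) :=
          fun p hp hlt hBp => hb ⟨p, hp, hlt, hBp⟩
        exact ⟨ha.1, hels P0 hP0 H A B a ha hb'⟩
    have hf1 := hbox.subset (t := {a : Ix d → ℤ | (∀ k, |a k| ≤ (H : ℤ)) ∧ Sol ℝ A B d a ∧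
          ∀ (p : ℕ) [Fact p.Prime], Sol ℚ_[p] A B d a}) (fun a ha => ha.1)
    have hf2 := hbox.subset (t := {a : Ix d → ℤ | Tm (8 * P0.factorial) H a ∧
          ∃ (p : ℕ) (_ : Fact p.Prime), P0 < p ∧
          p * (8 * P0.factorial) ≤ H ∧ Bp p (A : ZMod p) (B : ZMod p) (fun k => ((a k : ℤ) : ZMod p))})
          (fun a ha => ha.1.1)
    have hf3 := hbox.subset (t := {a : Ix d → ℤ | Tm (8 * P0.factorial) H a ∧
          ∃ (p : ℕ) (_ : Fact p.Prime), 5 ≤ p ∧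
          H < p * (8 * P0.factorial) ∧
          Bp p (A : ZMod p) (B : ZMod p) (fun k => ((a k : ℤ) : ZMod p))}) (fun a ha => ha.1.1)
    have h1 := Set.ncard_le_ncard hsub (hf1.union (hf2.union hf3))
    refine h1.trans ((Set.ncard_union_le _ _).trans ?_)
    exact Nat.add_le_add le_rfl (Set.ncard_union_le _ _)
  have hcard' : (Nat.card {a : Ix d → ℤ // Tm (8 * P0.factorial) H a} : ℝ) ≤ (nE d H A B : ℝ) +
      ((Nat.card {a : Ix d → ℤ // Tm (8 * P0.factorial) H a ∧ ∃ (p : ℕ) (_ : Fact p.Prime), P0 < p ∧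
        p * (8 * P0.factorial) ≤ H ∧ Bp p (A : ZMod p) (B : ZMod p) (fun k => ((a k : ℤ) : ZMod p))} : ℝ) +
      (Nat.card {a : Ix d → ℤ // Tm (8 * P0.factorial) H a ∧ ∃ (p : ℕ) (_ : Fact p.Prime), 5 ≤ p ∧
        H < p * (8 * P0.factorial) ∧
        Bp p (A : ZMod p) (B : ZMod p) (fun k => ((a k : ℤ) : ZMod p))} : ℝ)) := by
    exact_mod_cast hcard
  have e : (H : ℝ) ^ (2 * d) / (8 * P0.factorial : ℕ) * (1 - C1 * (1 / P0 +
        ∑ p ∈ (Icc (P0 + 1) H).filter (fun p : ℕ => p.Prime ∧ (p : ℤ) ∣ ds A B), (1 : ℝ) / p)) =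
      (H : ℝ) ^ (2 * d) / (8 * P0.factorial : ℕ) - C1 * (H : ℝ) ^ (2 * d) / (8 * P0.factorial : ℕ) *
        (1 / P0 + ∑ p ∈ (Icc (P0 + 1) H).filter (fun p : ℕ => p.Prime ∧ (p : ℤ) ∣ ds A B), (1 : ℝ) / p) := by
    ring
  rw [e]
  linarith

end BLS
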