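import Pool.Agent.Lib.MP_10e784_agL.SC

/-!
# LEAF SD: a positive proportion is everywhere locally soluble: one curve, all curves

PROOF.  `loc_fix`: `P0 = max P1 |ds A B|` and `≥ 2 C1`: no prime `p > P0` divides `ds A B ≠ 0`, the sum is empty; for `H ≥ |A|, |B|, H0`: `nE ≥ H^(2 d) / (2 M) - C H^(2 d - 1) ≥ H^(2 d) / (4 M)` for `H ≥ 4 M C`.
`loc_all`: the set is in bijection with (or contains) the disjoint union over the pairs `z ∈ bx H` with `ds z.1 z.2 ≠ 0` of the sets of `nE d H z.1 z.2` (`Nat.card_sigma`, an injection is enough): its cardinality is at least `∑ nE d H z.1 z.2`.  By `one_curve`, `card_bx`, `card_bx_le`, `sum_pd`: `≥ H^(2 d) / M (H^5 - 9 C1 H^5 / P0 - C1 C2 H^5 / P0) - 9 C H^(2 d + 4)`.  `P0 ≥ 2 C1 (9 + C2)`: `≥ H^(2 d + 5) / (2 M) - 9 C H^(2 d + 4) ≥ H^(2 d + 5) / (4 M)` for `H ≥ 36 M C`.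
-/

set_option autoImplicit false

namespace BLS

open Finset

private theorem SD_box (d H : ℕ) : {a : Ix d → ℤ | ∀ k, |a k| ≤ (H : ℤ)}.Finite := by
  refine (Set.Finite.pi' fun _ : Ix d => (Set.finite_Icc (-(H : ℤ)) (H : ℤ))).subset fun a ha => ?_
  intro k
  exact Set.mem_Icc.2 (abs_le.1 (ha k))

private theorem SD_finE (d H : ℕ) (A B : ℤ) :
    Finite {a : Ix d → ℤ // (∀ k, |a k| ≤ (H : ℤ)) ∧ Sol ℝ A B d a ∧
      ∀ (p : ℕ) [Fact p.Prime], Sol ℚ_[p] A B d a} :=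
  ((SD_box d H).subset fun a (ha : (∀ k, |a k| ≤ (H : ℤ)) ∧ Sol ℝ A B d a ∧
      ∀ (p : ℕ) [Fact p.Prime], Sol ℚ_[p] A B d a) => ha.1 : Set.Finite {a : Ix d → ℤ |
        (∀ k, |a k| ≤ (H : ℤ)) ∧ Sol ℝ A B d a ∧
      ∀ (p : ℕ) [Fact p.Prime], Sol ℚ_[p] A B d a})

/-- `C P ≤ H P / (4 M)` -/
private theorem SD_small {M C H P : ℝ} (hM : 0 < M) (hP : 0 ≤ P) (h : 4 * M * C ≤ H) :
    C * P ≤ H * P / (4 * M) := by
  rw [le_div_iff₀ (by positivity)]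
  have := mul_le_mul_of_nonneg_right h hP
  linarith

theorem loc_fix (d : ℕ) (hd : 2 ≤ d) (A B : ℤ) (h : ds A B ≠ 0) : ∃ (η : ℝ) (H0 : ℕ), 0 < η ∧ ∀ H : ℕ, H0 ≤ H →
    η * (H : ℝ) ^ (2 * d) ≤ (nE d H A B : ℝ) := by
  obtain ⟨C1, P1, hC1, hP1, h1⟩ := one_curve d hd
  obtain ⟨P0, hP0⟩ : ∃ P0 : ℕ, P0 = max (max P1 (ds A B).natAbs) ⌈2 * C1⌉₊ := ⟨_, rfl⟩
  have hPa : P1 ≤ P0 := by rw [hP0]; exact (le_max_left _ _).trans (le_max_left _ _)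
  have hPb : (ds A B).natAbs ≤ P0 := by rw [hP0]; exact (le_max_right _ _).trans (le_max_left _ _)
  have hPc : 2 * C1 ≤ (P0 : ℝ) := by
    refine (Nat.le_ceil _).trans ?_
    rw [hP0]
    exact_mod_cast le_max_right _ _
  obtain ⟨C, H0, hC, h2⟩ := h1 P0 hPa
  obtain ⟨M, hM⟩ : ∃ M : ℝ, M = ((8 * P0.factorial : ℕ) : ℝ) := ⟨_, rfl⟩
  have hM0 : 0 < M := by
    rw [hM]
    exact_mod_cast Nat.mul_pos (by norm_num) (Nat.factorial_pos _)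
  have hPpos : (0 : ℝ) < P0 := by linarith
  refine ⟨1 / (4 * M), max (max (max H0 A.natAbs) B.natAbs) (max ⌈4 * M * C⌉₊ 1), by positivity,
    fun H hH => ?_⟩
  have hH0 : H0 ≤ H := (((le_max_left _ _).trans (le_max_left _ _)).trans (le_max_left _ _)).trans hH
  have hHA : A.natAbs ≤ H := (((le_max_right _ _).trans (le_max_left _ _)).trans (le_max_left _ _)).trans hH
  have hHB : B.natAbs ≤ H := ((le_max_right _ _).trans (le_max_left _ _)).trans hH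
  have hHM : ⌈4 * M * C⌉₊ ≤ H := ((le_max_left _ _).trans (le_max_right _ _)).trans hH
  have hH1 : 1 ≤ H := ((le_max_right _ _).trans (le_max_right _ _)).trans hH
  have hHM' : 4 * M * C ≤ (H : ℝ) := (Nat.le_ceil _).trans (by exact_mod_cast hHM)
  have hz : (1 : ℤ) ≤ (H : ℤ) := by exact_mod_cast hH1
  have hA2 : |A| ≤ (H : ℤ) ^ 2 := by
    have e1 : |A| ≤ (H : ℤ) := by rw [Int.abs_eq_natAbs]; exact_mod_cast hHA
    exact e1.trans (le_self_pow₀ hz (by norm_num))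
  have hB3 : |B| ≤ (H : ℤ) ^ 3 := by
    have e1 : |B| ≤ (H : ℤ) := by rw [Int.abs_eq_natAbs]; exact_mod_cast hHB
    exact e1.trans (le_self_pow₀ hz (by norm_num))
  have h3 := h2 H hH0 A B hA2 hB3 h
  have h4 : (Icc (P0 + 1) H).filter (fun p : ℕ => p.Prime ∧ (p : ℤ) ∣ ds A B) = ∅ := by
    rw [Finset.filter_eq_empty_iff]
    rintro p hp ⟨-, hdvd⟩
    have e1 : p ≤ (ds A B).natAbs :=
      Nat.le_of_dvd (Int.natAbs_pos.2 h) (Int.natCast_dvd.1 hdvd)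
    have e2 := (Finset.mem_Icc.1 hp).1
    omega
  rw [h4, Finset.sum_empty, add_zero, ← hM] at h3
  obtain ⟨P, hP⟩ : ∃ P : ℝ, P = (H : ℝ) ^ (2 * d - 1) := ⟨_, rfl⟩
  have hPH : (H : ℝ) ^ (2 * d) = H * P := by
    rw [hP, ← pow_succ']
    congr 1
    omega
  have hP0' : 0 ≤ P := by rw [hP]; positivity
  rw [← hP, hPH] at h3
  rw [hPH]
  have h5 : C1 * (1 / (P0 : ℝ)) ≤ 1 / 2 := by
    rw [mul_one_div, div_le_iff₀ hPpos]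
    linarith
  have h6 := SD_small (C := C) hM0 hP0' hHM'
  have h7 : (H : ℝ) * P / M * (1 / 2) ≤ (H : ℝ) * P / M * (1 - C1 * (1 / (P0 : ℝ))) := by
    refine mul_le_mul_of_nonneg_left (by linarith) (by positivity)
  have h8 : (H : ℝ) * P / M * (1 / 2) = 2 * (H * P / (4 * M)) := by
    field_simp
    norm_num
  have h9 : 1 / (4 * M) * ((H : ℝ) * P) = H * P / (4 * M) := by ring
  linarith

theorem loc_all (d : ℕ) (hd : 2 ≤ d) : ∃ (η : ℝ) (H0 : ℕ), 0 < η ∧ ∀ H : ℕ, H0 ≤ H →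
    η * (H : ℝ) ^ (2 * d + 5) ≤ (Nat.card {a : (ℤ × ℤ) × (Ix d → ℤ) // 4 * a.1.1 ^ 3 + 27 * a.1.2 ^ 2 ≠ 0 ∧
      |a.1.1| ≤ (H : ℤ) ^ 2 ∧ |a.1.2| ≤ (H : ℤ) ^ 3 ∧ (∀ k, |a.2 k| ≤ (H : ℤ)) ∧
      Sol ℝ a.1.1 a.1.2 d a.2 ∧ ∀ (p : ℕ) [Fact p.Prime], Sol ℚ_[p] a.1.1 a.1.2 d a.2} : ℝ) := by
  obtain ⟨C1, P1, hC1, hP1, h1⟩ := one_curve d hd
  obtain ⟨C2, hC2, h2⟩ := sum_pd
  obtain ⟨P0, hP0⟩ : ∃ P0 : ℕ, P0 = max P1 ⌈2 * (C1 * (9 + C2))⌉₊ := ⟨_, rfl⟩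
  have hPa : P1 ≤ P0 := by rw [hP0]; exact le_max_left _ _
  have hPc : 2 * (C1 * (9 + C2)) ≤ (P0 : ℝ) := by
    refine (Nat.le_ceil _).trans ?_
    rw [hP0]
    exact_mod_cast le_max_right _ _
  obtain ⟨C, H0, hC, h3⟩ := h1 P0 hPa
  obtain ⟨M, hM⟩ : ∃ M : ℝ, M = ((8 * P0.factorial : ℕ) : ℝ) := ⟨_, rfl⟩
  have hM0 : 0 < M := by
    rw [hM]
    exact_mod_cast Nat.mul_pos (by norm_num) (Nat.factorial_pos _)
  have hP4 : 4 ≤ P0 := hP1.trans hPa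
  have hPpos : (0 : ℝ) < P0 := by exact_mod_cast (by omega : 0 < P0)
  refine ⟨1 / (4 * M), max H0 (max ⌈4 * M * (9 * C)⌉₊ 1), by positivity, fun H hH => ?_⟩
  have hH0 : H0 ≤ H := (le_max_left _ _).trans hH
  have hHM : ⌈4 * M * (9 * C)⌉₊ ≤ H := ((le_max_left _ _).trans (le_max_right _ _)).trans hH
  have hH1 : 1 ≤ H := ((le_max_right _ _).trans (le_max_right _ _)).trans hH
  have hHM' : 4 * M * (9 * C) ≤ (H : ℝ) := (Nat.le_ceil _).trans (by exact_mod_cast hHM)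
  obtain ⟨S, hS⟩ : ∃ S : ℤ × ℤ → ℝ, S = fun z => ∑ p ∈ (Icc (P0 + 1) H).filter
    (fun p : ℕ => p.Prime ∧ (p : ℤ) ∣ ds z.1 z.2), (1 : ℝ) / p := ⟨_, rfl⟩
  have hS0 : ∀ z, 0 ≤ S z := by
    intro z
    rw [hS]
    exact Finset.sum_nonneg fun p _ => by positivity
  obtain ⟨F, hF⟩ : ∃ F : Finset (ℤ × ℤ), F = (bx H).filter fun z => ds z.1 z.2 ≠ 0 := ⟨_, rfl⟩
  have hFb : ∀ z ∈ F, |z.1| ≤ (H : ℤ) ^ 2 ∧ |z.2| ≤ (H : ℤ) ^ 3 ∧ ds z.1 z.2 ≠ 0 := by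
    intro z hz
    rw [hF, Finset.mem_filter] at hz
    obtain ⟨hz1, hz2⟩ := hz
    unfold bx at hz1
    rw [Finset.mem_product, Finset.mem_Icc, Finset.mem_Icc] at hz1
    exact ⟨abs_le.2 hz1.1, abs_le.2 hz1.2, hz2⟩
  have hcard1 : (H : ℝ) ^ 5 ≤ (F.card : ℝ) := by
    rw [hF]
    exact card_bx H hH1
  have hcard2 : (F.card : ℝ) ≤ 9 * (H : ℝ) ^ 5 := by
    refine le_trans ?_ (card_bx_le H hH1)
    rw [hF]
    exact_mod_cast Finset.card_filter_le _ _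
  have hsum : ∑ z ∈ F, S z ≤ C2 * (H : ℝ) ^ 5 / P0 := by
    refine le_trans ?_ (h2 P0 H hP4 hH1)
    rw [hF, hS]
    exact Finset.sum_le_sum_of_subset_of_nonneg (Finset.filter_subset _ _) fun z _ _ =>
      Finset.sum_nonneg fun p _ => by positivity
  -- the number of the pairs
  obtain ⟨N, hN⟩ : ∃ N : ℕ, N = Nat.card {a : (ℤ × ℤ) × (Ix d → ℤ) // 4 * a.1.1 ^ 3 + 27 * a.1.2 ^ 2 ≠ 0 ∧
      |a.1.1| ≤ (H : ℤ) ^ 2 ∧ |a.1.2| ≤ (H : ℤ) ^ 3 ∧ (∀ k, |a.2 k| ≤ (H : ℤ)) ∧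
      Sol ℝ a.1.1 a.1.2 d a.2 ∧ ∀ (p : ℕ) [Fact p.Prime], Sol ℚ_[p] a.1.1 a.1.2 d a.2} := ⟨_, rfl⟩
  have hNle : ∑ z ∈ F, nE d H z.1 z.2 ≤ N := by
    have hfin : Finite {a : (ℤ × ℤ) × (Ix d → ℤ) // 4 * a.1.1 ^ 3 + 27 * a.1.2 ^ 2 ≠ 0 ∧
      |a.1.1| ≤ (H : ℤ) ^ 2 ∧ |a.1.2| ≤ (H : ℤ) ^ 3 ∧ (∀ k, |a.2 k| ≤ (H : ℤ)) ∧
      Sol ℝ a.1.1 a.1.2 d a.2 ∧ ∀ (p : ℕ) [Fact p.Prime], Sol ℚ_[p] a.1.1 a.1.2 d a.2} := by
      have e1 : (((bx H : Finset (ℤ × ℤ)) : Set (ℤ × ℤ)) ×ˢ {a : Ix d → ℤ | ∀ k, |a k| ≤ (H : ℤ)}).Finite :=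
        (bx H).finite_toSet.prod (SD_box d H)
      refine (e1.subset ?_ : Set.Finite {a : (ℤ × ℤ) × (Ix d → ℤ) | 4 * a.1.1 ^ 3 + 27 * a.1.2 ^ 2 ≠ 0 ∧
        |a.1.1| ≤ (H : ℤ) ^ 2 ∧ |a.1.2| ≤ (H : ℤ) ^ 3 ∧ (∀ k, |a.2 k| ≤ (H : ℤ)) ∧
        Sol ℝ a.1.1 a.1.2 d a.2 ∧ ∀ (p : ℕ) [Fact p.Prime], Sol ℚ_[p] a.1.1 a.1.2 d a.2})
      rintro a ⟨-, ha1, ha2, ha3, -⟩
      refine ⟨?_, ha3⟩
      rw [Finset.mem_coe]
      unfold bx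
      rw [Finset.mem_product, Finset.mem_Icc, Finset.mem_Icc]
      exact ⟨abs_le.1 ha1, abs_le.1 ha2⟩
    have hfinE : ∀ z : ↥F, Finite {a : Ix d → ℤ // (∀ k, |a k| ≤ (H : ℤ)) ∧ Sol ℝ z.1.1 z.1.2 d a ∧
        ∀ (p : ℕ) [Fact p.Prime], Sol ℚ_[p] z.1.1 z.1.2 d a} := fun z => SD_finE d H z.1.1 z.1.2
    have e2 : ∑ z ∈ F, nE d H z.1 z.2 = Nat.card (Σ z : ↥F, {a : Ix d → ℤ // (∀ k, |a k| ≤ (H : ℤ)) ∧
        Sol ℝ z.1.1 z.1.2 d a ∧ ∀ (p : ℕ) [Fact p.Prime], Sol ℚ_[p] z.1.1 z.1.2 d a}) := by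
      rw [Nat.card_sigma, ← Finset.sum_coe_sort F]
      rfl
    rw [e2, hN]
    refine Nat.card_le_card_of_injective (fun x => ⟨(x.1.1, x.2.1), (hFb x.1.1 x.1.2).2.2,
      (hFb x.1.1 x.1.2).1, (hFb x.1.1 x.1.2).2.1, x.2.2⟩) ?_
    rintro ⟨⟨z, hz⟩, ⟨a, ha⟩⟩ ⟨⟨z', hz'⟩, ⟨a', ha'⟩⟩ hxy
    have e3 := congrArg Subtype.val hxy
    have e4 : z = z' := congrArg Prod.fst e3
    have e5 : a = a' := congrArg Prod.snd e3
    subst e4 e5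
    rfl
  obtain ⟨P, hP⟩ : ∃ P : ℝ, P = (H : ℝ) ^ (2 * d - 1) := ⟨_, rfl⟩
  have hPH : (H : ℝ) ^ (2 * d) = H * P := by
    rw [hP, ← pow_succ']
    congr 1
    omega
  have hP0' : 0 ≤ P := by rw [hP]; positivity
  have hlow : ∑ z ∈ F, ((H : ℝ) * P / M * (1 - C1 * (1 / P0 + S z)) - C * P) ≤ (N : ℝ) := by
    have e1 : ∑ z ∈ F, ((H : ℝ) * P / M * (1 - C1 * (1 / P0 + S z)) - C * P) ≤
        ∑ z ∈ F, (nE d H z.1 z.2 : ℝ) := by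
      refine Finset.sum_le_sum fun z hz => ?_
      obtain ⟨hz1, hz2, hz3⟩ := hFb z hz
      have e2 := h3 H hH0 z.1 z.2 hz1 hz2 hz3
      rw [← hM, hPH, ← hP] at e2
      rw [hS]
      exact e2
    refine e1.trans ?_
    have e3 : ((∑ z ∈ F, nE d H z.1 z.2 : ℕ) : ℝ) ≤ (N : ℝ) := by exact_mod_cast hNle
    rw [Nat.cast_sum] at e3
    exact e3
  have hexp : ∑ z ∈ F, ((H : ℝ) * P / M * (1 - C1 * (1 / P0 + S z)) - C * P) =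
      (H : ℝ) * P / M * (F.card - C1 * (F.card * (1 / P0) + ∑ z ∈ F, S z)) - F.card * (C * P) := by
    rw [Finset.sum_sub_distrib, ← Finset.mul_sum, Finset.sum_sub_distrib, ← Finset.mul_sum,
      Finset.sum_add_distrib, Finset.sum_const, Finset.sum_const, Finset.sum_const, nsmul_eq_mul,
      nsmul_eq_mul, nsmul_eq_mul, mul_one]
  rw [hexp] at hlow
  rw [← hN]
  obtain ⟨Q, hQ⟩ : ∃ Q : ℝ, Q = (H : ℝ) ^ 5 := ⟨_, rfl⟩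
  have hQ0 : 0 ≤ Q := by rw [hQ]; positivity
  rw [← hQ] at hcard1 hcard2 hsum
  have hpow : (H : ℝ) ^ (2 * d + 5) = H * P * Q := by
    rw [pow_add, hPH, hQ]
  rw [hpow]
  have hHr : (0 : ℝ) ≤ H := Nat.cast_nonneg H
  have hK0 : 0 ≤ (H : ℝ) * P / M := by positivity
  have h5 : C1 * (F.card * (1 / P0) + ∑ z ∈ F, S z) ≤ Q / 2 := by
    have e1 : (F.card : ℝ) * (1 / P0) ≤ 9 * Q * (1 / P0) :=
      mul_le_mul_of_nonneg_right hcard2 (by positivity)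
    have e2 : C1 * ((F.card : ℝ) * (1 / P0) + ∑ z ∈ F, S z) ≤ C1 * (9 * Q * (1 / P0) + C2 * Q / P0) :=
      mul_le_mul_of_nonneg_left (by linarith) hC1.le
    refine e2.trans ?_
    have e3 : C1 * (9 * Q * (1 / P0) + C2 * Q / P0) = C1 * (9 + C2) * Q / P0 := by ring
    rw [e3, div_le_div_iff₀ hPpos (by norm_num)]
    have := mul_le_mul_of_nonneg_right hPc hQ0
    linarith
  have h6 : (H : ℝ) * P / M * (Q / 2) ≤
      (H : ℝ) * P / M * (F.card - C1 * (F.card * (1 / P0) + ∑ z ∈ F, S z)) :=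
    mul_le_mul_of_nonneg_left (by linarith) hK0
  have h7 := SD_small (C := 9 * C) hM0 hP0' hHM'
  have h8 : (F.card : ℝ) * (C * P) ≤ 9 * Q * (C * P) :=
    mul_le_mul_of_nonneg_right hcard2 (by positivity)
  have h9 : 9 * Q * (C * P) = 9 * C * P * Q := by ring
  have h10 : 9 * C * P * Q ≤ H * P / (4 * M) * Q := mul_le_mul_of_nonneg_right h7 hQ0
  have h11 : (H : ℝ) * P / M * (Q / 2) = 2 * (H * P / (4 * M) * Q) := by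
    field_simp
    norm_num
  have h12 : 1 / (4 * M) * ((H : ℝ) * P * Q) = H * P / (4 * M) * Q := by ring
  linarith

end BLS
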