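import Pool.Agent.Lib.MP_10e784_agL.Defs

/-!
# LEAF UA: uniqueness of the constant coefficient

PROOF.  Let `δ = s - t ≠ 0`, `r = u - u'`, `q = v - v'`, `r' = u + u'`, `q' = v + v'`.  Then `r r' + q q' g = u² - u'² + (v² - v'²) g = C δ` and `r q' + r' q = 2 (u v - u' v') = 0`.  So `(r² - q² g) (r'² - q'² g) = (r r' + q q' g)² - (r q' + r' q)² g = C (δ²)`, and `r² - q² g` and `r'² - q'² g` are nonzero constants.  The degree of `r²` is even and that of `q² g` is odd if `q ≠ 0`, so the leading terms do not cancel: `q = 0` and `r` is constant.  In the same way `q' = 0` and `r'` is constant.  Therefore `v = v' = 0` (the characteristic is not `2`), `u` is constant, `b m = 0`, `b = 0` (`m ≠ 0`), `a = u² - C s` is constant.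
-/

set_option autoImplicit false

namespace BLS

open Polynomial

variable {K : Type} [Field K]

theorem const_of_norm {g : K[X]} (hg : Odd g.natDegree) {r q : K[X]} {e : K} (he : e ≠ 0)
    (h : ∃ z : K[X], (r ^ 2 - q ^ 2 * g) * z = C e) : q = 0 ∧ ∃ c : K, r = C c := by
  obtain ⟨z, hz⟩ := h
  have hg0 : g ≠ 0 := by
    rintro rfl
    rw [natDegree_zero] at hg
    exact absurd hg (by decide)
  have hne : (r ^ 2 - q ^ 2 * g) * z ≠ 0 := by
    rw [hz]
    exact C_ne_zero.2 he
  have hN : r ^ 2 - q ^ 2 * g ≠ 0 := left_ne_zero_of_mul hne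
  have hz0 : z ≠ 0 := right_ne_zero_of_mul hne
  have hd : (r ^ 2 - q ^ 2 * g).natDegree = 0 := by
    have h1 := natDegree_mul hN hz0
    rw [hz, natDegree_C] at h1
    omega
  have hq : q = 0 := by
    by_contra hq
    have h1 : (q ^ 2 * g).natDegree = 2 * q.natDegree + g.natDegree := by
      rw [natDegree_mul (pow_ne_zero 2 hq) hg0, natDegree_pow]
    have h2 : (r ^ 2).natDegree = 2 * r.natDegree := natDegree_pow r 2
    obtain ⟨k, hk⟩ := hg
    rcases lt_trichotomy (r ^ 2).natDegree (q ^ 2 * g).natDegree with h3 | h3 | h3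
    · have h4 := natDegree_sub_eq_right_of_natDegree_lt h3
      omega
    · omega
    · have h4 := natDegree_sub_eq_left_of_natDegree_lt h3
      omega
  refine ⟨hq, r.coeff 0, ?_⟩
  rw [hq] at hd
  have h1 : (r ^ 2).natDegree = 0 := by
    have h2 : r ^ 2 - 0 ^ 2 * g = r ^ 2 := by ring
    rwa [h2] at hd
  rw [natDegree_pow] at h1
  exact eq_C_of_natDegree_eq_zero (by omega)

theorem uniq (h2 : (2 : K) ≠ 0) {g : K[X]} (hg : Odd g.natDegree) {m : K[X]} (hm : m ≠ 0) {a b : K[X]} {s t : K}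
    (hst : s ≠ t) {u v u' v' : K[X]} (h1 : a + C s = u ^ 2 + v ^ 2 * g) (h1' : b * m = 2 * u * v)
    (h3 : a + C t = u' ^ 2 + v' ^ 2 * g) (h3' : b * m = 2 * u' * v') : b = 0 ∧ ∃ c : K, a = C c := by
  have h2' : (2 : K[X]) ≠ 0 := by
    have h4 : (2 : K[X]) = C 2 := rfl
    rw [h4]
    exact C_ne_zero.2 h2
  have e1 : (u - u') * (u + u') + (v - v') * (v + v') * g = C (s - t) := by
    rw [C_sub]
    linear_combination h3 - h1
  have e2 : (u - u') * (v + v') + (u + u') * (v - v') = 0 := by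
    linear_combination h3' - h1'
  have hδ : (s - t) ^ 2 ≠ 0 := pow_ne_zero 2 (sub_ne_zero.2 hst)
  have e3 : ((u - u') ^ 2 - (v - v') ^ 2 * g) * ((u + u') ^ 2 - (v + v') ^ 2 * g) = C ((s - t) ^ 2) := by
    rw [C_pow, ← e1]
    linear_combination (-g) * ((u - u') * (v + v') + (u + u') * (v - v')) * e2
  obtain ⟨q0, c, hc⟩ := const_of_norm hg hδ ⟨_, e3⟩
  obtain ⟨q0', c', hc'⟩ := const_of_norm hg hδ ⟨_, (mul_comm _ _).trans e3⟩
  have hv : v = 0 := by
    have h4 : 2 * v = 0 := by linear_combination q0 + q0'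
    exact (mul_eq_zero.1 h4).resolve_left h2'
  have hb : b = 0 := by
    have h4 : b * m = 0 := by rw [h1', hv, mul_zero]
    exact (mul_eq_zero.1 h4).resolve_right hm
  refine ⟨hb, ((c + c') / 2) ^ 2 - s, ?_⟩
  have hu : u = C ((c + c') / 2) := by
    apply mul_left_cancel₀ h2'
    have h4 : (2 : K[X]) = C 2 := rfl
    rw [h4, ← C_mul, mul_div_cancel₀ _ h2, C_add, ← hc, ← hc', ← h4]
    ring
  rw [hv, hu] at h1
  rw [C_sub, C_pow]
  linear_combination h1

end BLS
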