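import Pool.Agent.Lib.MP_10e784_agL.UA

/-!
# LEAF UB: uniqueness of `a_0`; the squarefree part of the cubic

PROOF.  `sqf_pf`: `IsCoprime f f'` from the identity `4 A² f' - (6 A X - 9 B) (3 f - X f') = 4 A³ + 27 B²` (`f' = 3 X² + A`); `Separable.squarefree`.
`exists_dec`: if `f = pf A B` is squarefree `m = 1`.  Otherwise `x * x ∣ f`, `x` not a unit; `natDegree f = 3`, so `natDegree x = 1` and `f = x² g`, `natDegree g = 1`, `g` is irreducible, so squarefree.
`Bd_unique`: take `m`, `g` of `exists_dec`; `m ≠ 0`, `natDegree g` is odd (`3 = 2 natDegree m + natDegree g`).  `h`, `h'` give `u, v, u', v'`.  `pa a = P + C (a k0)`, `pa a' = P + C (a' k0)` with the same `P`, `pb a = pb a'`.  If `a k0 ≠ a' k0`, `uniq` gives `pb a = 0` and `P` constant: all the coefficients of `a` at indices other than `k0` vanish (`coeff` of the sums of monomials), a contradiction to `hn`.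
-/

set_option autoImplicit false

namespace BLS

open Polynomial

variable {K : Type} [Field K]

private theorem UB_deg (A B : K) : (pf A B).natDegree = 3 := by
  unfold pf
  compute_degree!

private theorem UB_ne (A B : K) : pf A B ≠ 0 := by
  intro h
  have h1 := UB_deg A B
  rw [h, natDegree_zero] at h1
  omega

private theorem UB_der (A B : K) : derivative (pf A B) = 3 * X ^ 2 + C A := by
  unfold pf
  simp only [derivative_add, derivative_X_pow, derivative_mul, derivative_C, derivative_X]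
  norm_num
  rfl

theorem sqf_pf (A B : K) (h : 4 * A ^ 3 + 27 * B ^ 2 ≠ 0) : Squarefree (pf A B) := by
  have h1 : (pf A B).Separable := by
    rw [separable_def, UB_der]
    refine ⟨C (4 * A ^ 3 + 27 * B ^ 2)⁻¹ * (-3 * (6 * C A * X - 9 * C B)),
      C (4 * A ^ 3 + 27 * B ^ 2)⁻¹ * (4 * C A ^ 2 + (6 * C A * X - 9 * C B) * X), ?_⟩
    have h2 : -3 * (6 * C A * X - 9 * C B) * pf A B +
        (4 * C A ^ 2 + (6 * C A * X - 9 * C B) * X) * (3 * X ^ 2 + C A) =
        C (4 * A ^ 3 + 27 * B ^ 2) := by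
      have h3 : C (4 * A ^ 3 + 27 * B ^ 2) = 4 * C A ^ 3 + 27 * C B ^ 2 := by
        simp only [map_add, map_mul, map_pow]
        rfl
      rw [h3]
      unfold pf
      ring
    have h4 : C (4 * A ^ 3 + 27 * B ^ 2)⁻¹ * C (4 * A ^ 3 + 27 * B ^ 2) = 1 := by
      rw [← C_mul, inv_mul_cancel₀ h, C_1]
    linear_combination C (4 * A ^ 3 + 27 * B ^ 2)⁻¹ * h2 + h4
  exact h1.squarefree

theorem exists_dec (A B : K) : ∃ m g : K[X], Squarefree g ∧ pf A B = m ^ 2 * g := by
  by_cases h : Squarefree (pf A B)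
  · exact ⟨1, pf A B, h, by ring⟩
  · unfold Squarefree at h
    push Not at h
    obtain ⟨x, ⟨g, hg⟩, hx⟩ := h
    have h0 := UB_ne A B
    have hx0 : x ≠ 0 := by
      rintro rfl
      rw [hg] at h0
      simp at h0
    have hg0 : g ≠ 0 := by
      rintro rfl
      rw [hg] at h0
      simp at h0
    have h1 : (pf A B).natDegree = x.natDegree + x.natDegree + g.natDegree := by
      rw [hg, natDegree_mul (mul_ne_zero hx0 hx0) hg0, natDegree_mul hx0 hx0]
    rw [UB_deg] at h1
    have h2 : x.natDegree ≠ 0 := by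
      intro h3
      refine hx ?_
      rw [Polynomial.isUnit_iff_degree_eq_zero, degree_eq_natDegree hx0, h3]
      rfl
    have h3 : g.natDegree = 1 := by omega
    refine ⟨x, g, ?_, by rw [hg]; ring⟩
    refine (Polynomial.irreducible_of_degree_eq_one ?_).squarefree
    rw [degree_eq_natDegree hg0, h3]
    rfl

private theorem UB_coeff {n : ℕ} (e : Fin n → ℕ) (he : Function.Injective e) (x : Fin n → K)
    (j : Fin n) : (∑ i, monomial (e i) (x i)).coeff (e j) = x j := by
  rw [finsetSum_coeff, Finset.sum_eq_single j]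
  · rw [coeff_monomial, if_pos rfl]
  · intro i _ hij
    rw [coeff_monomial, if_neg fun h => hij (he h)]
  · intro hj
    exact absurd (Finset.mem_univ j) hj

theorem Bd_unique (h2 : (2 : K) ≠ 0) {d : ℕ} (A B : K) (a a' : Ix d → K) (h : Bd A B a) (h' : Bd A B a')
    (hk : ∀ k, k ≠ k0 d → a k = a' k) (hn : ∃ k, k ≠ k0 d ∧ a k ≠ 0) : a = a' := by
  by_contra hne
  have hst : a (k0 d) ≠ a' (k0 d) := by
    intro h3
    refine hne (funext fun k => ?_)
    by_cases h4 : k = k0 d
    · rw [h4, h3]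
    · exact hk k h4
  obtain ⟨m, g, hg, hmg⟩ := exists_dec A B
  have h0 := UB_ne A B
  have hm : m ≠ 0 := by
    rintro rfl
    rw [hmg] at h0
    simp at h0
  have hg0 : g ≠ 0 := by
    rintro rfl
    rw [hmg] at h0
    simp at h0
  have hodd : Odd g.natDegree := by
    have h1 : (pf A B).natDegree = 2 * m.natDegree + g.natDegree := by
      rw [hmg, natDegree_mul (pow_ne_zero 2 hm) hg0, natDegree_pow]
    rw [UB_deg] at h1
    rw [Nat.odd_iff]
    omega
  obtain ⟨u, v, h1, h1'⟩ := h m g hg hmg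
  obtain ⟨u', v', h3, h3'⟩ := h' m g hg hmg
  obtain ⟨P, hP⟩ : ∃ P : K[X], P = ∑ i : Fin d, monomial ((i.succ : Fin (d + 1)) : ℕ)
    (a (.inl i.succ)) := ⟨_, rfl⟩
  have ha : pa a = P + C (a (k0 d)) := by
    unfold pa
    rw [Fin.sum_univ_succ, hP, add_comm]
    rfl
  have ha' : pa a' = P + C (a' (k0 d)) := by
    unfold pa
    rw [Fin.sum_univ_succ, hP, add_comm]
    congr 1
    refine Finset.sum_congr rfl fun i _ => ?_
    rw [hk (.inl i.succ) fun h5 => Fin.succ_ne_zero i (Sum.inl_injective h5)]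
  have hb : pb a' = pb a := by
    unfold pb
    refine Finset.sum_congr rfl fun i _ => ?_
    rw [hk (.inr i) fun h5 => Sum.inr_ne_inl h5]
  rw [ha] at h1
  rw [ha'] at h3
  rw [hb] at h3'
  obtain ⟨h5, c, h6⟩ := uniq h2 hodd hm hst h1 h1' h3 h3'
  obtain ⟨k, hk0, hka⟩ := hn
  refine hka ?_
  rcases k with i | i
  · have hi : i ≠ 0 := fun h7 => hk0 (by rw [h7])
    obtain ⟨j, rfl⟩ := Fin.exists_succ_eq_of_ne_zero hi
    have h8 := UB_coeff (fun i : Fin d => ((i.succ : Fin (d + 1)) : ℕ))
      (fun x y hxy => Fin.succ_injective d (Fin.ext hxy)) (fun i => a (.inl i.succ)) j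
    have h9 : (∑ i : Fin d, monomial ((i.succ : Fin (d + 1)) : ℕ) (a (.inl i.succ))) = C c := by
      rw [← hP, h6]
    beta_reduce at h8
    rw [h9, coeff_C, if_neg (by simp)] at h8
    exact h8.symm
  · have h8 := UB_coeff (fun i : Fin (d - 1) => (i : ℕ)) (fun x y hxy => Fin.ext hxy)
      (fun i => a (.inr i)) i
    have h9 : (∑ i : Fin (d - 1), monomial (i : ℕ) (a (.inr i))) = 0 := h5
    beta_reduce at h8
    rw [h9, coeff_zero] at h8
    exact h8.symm

end BLS
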